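import Pool.Agent.H20RD.Lang2
import Pool.Agent.TH678.PN.Comp
import Pool.Agent.H620R2.Gauge.C
import Pool.Agent.H620R2.GaugeR.Seq
import Mathlib.MeasureTheory.OuterMeasure.BorelCantelli

/-!
# Random oracles of every density: the easy side
-/

set_option autoImplicit false

namespace Pool.Agent.H20RD

open Pool.Agent.NPC Pool.Agent.H622R2 Pool.Agent.H620R2.Gauge MeasureTheory
open scoped ENNReal

/-! ### Only finitely many exceptions -/

theorem rnd_one (q : List Bool → unitInterval) (β : Bool) (x : List Bool) :
    (rnd q).real {A | A x = β} = w β (q x) := by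
  have h := rnd_hit q β {x}
  simpa using h

/-- the likely value -/
noncomputable def lik (p : unitInterval) : Bool := decide ((1 / 2 : ℝ) < p)

theorem w_lik (p : unitInterval) : w (!lik p) p = min (p : ℝ) (1 - p) := by
  unfold lik
  by_cases h : (1 / 2 : ℝ) < p
  · simp only [h, decide_true, Bool.not_true, w, Bool.false_eq_true, if_false]
    rw [min_eq_right (by linarith)]
  · simp only [h, decide_false, Bool.not_false, w, if_true]
    rw [min_eq_left (by linarith)]

theorem ae_finite {p : ℕ → unitInterval}
    (h : Summable fun n => 2 ^ n * min (p n : ℝ) (1 - p n)) :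
    ∀ᵐ A ∂(rnd fun x => p x.length), {x : List Bool | A x ≠ lik (p x.length)}.Finite := by
  refine ae_finite_setOfPred_mem (s := fun x : List Bool => {A : Orc | A x ≠ lik (p x.length)}) ?_
  have h0 : ∀ n, 0 ≤ min (p n : ℝ) (1 - p n) := fun n => by
    rw [← w_lik]
    exact w_nonneg _ _
  have h1 : ∀ x : List Bool, (rnd fun x => p x.length) {A : Orc | A x ≠ lik (p x.length)} =
      ENNReal.ofReal (min (p x.length : ℝ) (1 - p x.length)) := by
    intro x
    rw [← w_lik, ← rnd_one (fun x => p x.length) _ x, ofReal_measureReal]
    congr 1
    ext A
    simp only [Set.mem_ofPred_eq]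
    cases A x <;> cases lik (p x.length) <;> simp
  simp only [h1]
  rw [← (Equiv.sigmaFiberEquiv (List.length (α := Bool))).tsum_eq, ENNReal.tsum_sigma']
  have h2 : ∀ n, ∑' x : {x : List Bool // x.length = n},
      ENNReal.ofReal (min (p ((Equiv.sigmaFiberEquiv (List.length (α := Bool))) ⟨n, x⟩).length : ℝ)
        (1 - p ((Equiv.sigmaFiberEquiv (List.length (α := Bool))) ⟨n, x⟩).length)) =
      ENNReal.ofReal (2 ^ n * min (p n : ℝ) (1 - p n)) := by
    intro n
    have h3 : ∀ x : {x : List Bool // x.length = n},
        ((Equiv.sigmaFiberEquiv (List.length (α := Bool))) ⟨n, x⟩).length = n := fun x => x.2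
    simp only [h3]
    let _ : Fintype {x : List Bool // x.length = n} := inferInstanceAs (Fintype (List.Vector Bool n))
    rw [tsum_fintype, Finset.sum_const, Finset.card_univ,
      show Fintype.card {x : List Bool // x.length = n} = 2 ^ n from by
        have := card_vector (α := Bool) n
        rwa [Fintype.card_bool] at this, nsmul_eq_mul, ENNReal.ofReal_mul (by positivity)]
    congr 1
    rw [ENNReal.ofReal_pow (by norm_num)]
    simp
  simp only [h2]
  rw [← ENNReal.ofReal_tsum_of_nonneg (fun n => mul_nonneg (by positivity) (h0 n)) h]
  exact ENNReal.ofReal_ne_top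

/-! ### Finite changes of the oracle -/

theorem exists_change (T : Finset (List Bool)) (f : List Bool → List Bool) :
    ∃ g : List Bool → List Bool, Poly g ∧ ∀ y, g y = if y ∈ T then f y else y := by
  classical
  induction T using Finset.induction_on with
  | empty => exact ⟨id, Poly.id, fun y => by simp⟩
  | insert a T ha ih =>
    obtain ⟨g, hg, hg2⟩ := ih
    refine ⟨fun y => if y = a then f a else g y,
      (Poly.ite (Poly.decide_eq Poly.id (NPC.Poly.const a)) (NPC.Poly.const (f a)) hg).congr
        fun y => by simp, fun y => ?_⟩
    simp only [hg2, Finset.mem_insert]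
    by_cases h : y = a
    · subst h
      simp
    · simp [h]

/-- finite changes of oracles with an element, as a query map -/
theorem exists_map {A B : Oracle} (h : {y | A y ≠ B y}.Finite) {u v : List Bool}
    (hu : B u = false) (hv : B v = true) :
    ∃ g : List Bool → List Bool, Poly g ∧ A = fun y => B (g y) := by
  obtain ⟨g, hg, hg2⟩ := exists_change h.toFinset fun y => if A y then v else u
  refine ⟨g, hg, ?_⟩
  funext y
  rw [hg2]
  split_ifs with h1 h2
  · rw [hv, h2]
  · rw [hu]
    simpa using h2
  · simpa using h1

theorem join_finite {O A D : Oracle} (h : {x | A x ≠ D x}.Finite) :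
    {y | join O A y ≠ join O D y}.Finite := by
  refine (h.image (fun x => true :: x)).subset ?_
  rintro y hy
  rcases y with _ | ⟨c, y⟩
  · exact absurd rfl hy
  · cases c with
    | false => exact absurd rfl hy
    | true => exact ⟨y, hy, rfl⟩

theorem collapse_of_finite {O A D : Oracle} (hO : O [] = true) (h : {x | A x ≠ D x}.Finite)
    (hD : ∀ L, IsPSPACE (join O D) L → IsP (join O D) L) (L : Set (List Bool))
    (hL : IsPSPACE (join O A) L) : IsP (join O A) L := by
  obtain ⟨g, hg, hg2⟩ := exists_map (join_finite (O := O) h) (u := []) (v := [false]) rfl hO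
  have h' : {x | D x ≠ A x}.Finite := by
    simpa only [ne_comm] using h
  obtain ⟨g', hg', hg2'⟩ := exists_map (join_finite (O := O) h') (u := []) (v := [false]) rfl hO
  rw [hg2] at hL
  have h1 := hD L (TH678.PN.IsPSPACE.of_map hg hL)
  rw [hg2'] at h1
  exact TH678.PN.IsP.of_map hg' h1

/-! ### The oracle -/

/-- the oracle given by a table of values for the lengths -/
def tab (h : List Bool) : Oracle := fun z => h.getD z.length false

/-- There is an oracle which makes `PSPACE` equal to `P` relative to its join with any oracle that
depends on the length only. -/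
theorem exists_oracle : ∃ O : Oracle, O [] = true ∧ ∀ d : ℕ → Bool, ∀ L,
    IsPSPACE (join O fun z => d z.length) L → IsP (join O fun z => d z.length) L := by
  obtain ⟨g, hg⟩ := CC.exists_enum
  choose bd hbd using pspace_task
  set R : ℕ → Polynomial ℕ := fun e => bd (g e).1 (g e).2 with hR
  let V : ℕ → Oracle → List Bool → Prop := fun e A y =>
    CC.Acc (g e).1 (CC.cut ((bd (g e).1 (g e).2).eval (unpair y).2.length)
      (join A (tab (unpair y).1))) (unpair y).2
  have hV : ∀ e A A' y, (∀ z : List Bool, z.length < (code R e y).length → A z = A' z) →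
      (V e A y ↔ V e A' y) := by
    intro e A A' y h
    have hcut : CC.cut ((bd (g e).1 (g e).2).eval (unpair y).2.length)
        (join A (tab (unpair y).1)) = CC.cut ((bd (g e).1 (g e).2).eval (unpair y).2.length)
        (join A' (tab (unpair y).1)) := by
      funext z
      unfold CC.cut
      split_ifs with hz
      · rcases z with _ | ⟨c, z⟩
        · rfl
        · cases c with
          | true => rfl
          | false =>
            change A z = A' z
            apply h
            have h1 := CC.lt_length_code R e y
            have h2 := eval_mono (bd (g e).1 (g e).2) (length_unpair_snd y)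
            rw [List.length_cons] at hz
            change (bd (g e).1 (g e).2).eval y.length < _ at h1
            omega
      · rfl
    change CC.Acc _ _ _ ↔ CC.Acc _ _ _
    rw [hcut]
  refine ⟨CC.Phi R V fun _ => true, ?_, fun d L hL => ?_⟩
  · rw [CC.Phi_not]
    intro e x h
    have h1 := CC.lt_length_code R e x
    rw [← h] at h1
    simp at h1
  · set O := CC.Phi R V fun _ => true with hO
    set D : Oracle := fun z => d z.length with hD
    obtain ⟨M, p, hM⟩ := hL
    obtain ⟨e, he⟩ := hg (M, p)
    set b := bd M p with hb
    let h : List Bool → List Bool := fun x => (List.range (b.eval x.length + 1)).map d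
    have hF1 : IsFP (join O D) h := by
      have h1 := IsFP.tt (A := join O D)
        (Q := fun x => (List.range (b.eval x.length + 1)).map fun i =>
          true :: List.replicate (min i (b.eval x.length)) false)
        (H := fun y => y.2) ?_ (Poly.snd Poly.id)
      · convert h1 using 2 with x
        simp only [h, List.map_map]
        refine List.map_congr_left fun i hi => ?_
        rw [List.mem_range] at hi
        simp only [Function.comp_apply, join, hD, List.length_replicate]
        rw [min_eq_left (by omega)]
      · have hx : UPoly (fun x : List Bool => b.eval x.length) :=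
          (UPoly.length Poly.id).eval b
        refine NPC.Poly.map (UPoly.add hx (UPoly.const 1)).range
          (F := fun x i => true :: List.replicate (min i (b.eval x.length)) false) ?_
        have hx' : UPoly (fun p : List Bool × ℕ => b.eval p.1.length) :=
          (UPoly.length (Poly.fst Poly.id)).eval b
        exact Poly.cons (NPC.Poly.const true) (poly_rep false (UPoly.of_le
          (Poly.min (Poly.snd Poly.id) hx'.toPoly) hx' fun p => min_le_right _ _))
    have hF2 : IsFP (join O D) (fun y => [join O D (false :: code R e y)]) :=
      IsFP.tt (A := join O D) (Q := fun y => [false :: code R e y]) (H := fun y => y.2)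
        (Poly.cons (Poly.cons (NPC.Poly.const false) (CC.poly_code R e)) (NPC.Poly.const []))
        (Poly.snd Poly.id)
    refine ⟨_, IsFP.seq (φ := fun p => pairBits p.2 p.1) (ψ := fun p => p.2.2) hF1 hF2
      (poly_pairBits (Poly.snd Poly.id) (Poly.fst Poly.id)) (Poly.snd (Poly.snd Poly.id)),
      fun x => ?_⟩
    change x ∈ L ↔ [O (code R e (pairBits (h x) x))] = [true]
    rw [List.cons.injEq, and_iff_left rfl, hO, CC.Phi_code R V _ hV e]
    rw [hbd M p (join O D) L hM x]
    change _ ↔ CC.Acc (g e).1 (CC.cut ((bd (g e).1 (g e).2).eval
      (unpair (pairBits (h x) x)).2.length) (join O (tab (unpair (pairBits (h x) x)).1)))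
      (unpair (pairBits (h x) x)).2
    rw [unpair_pairBits, he]
    have hcut : CC.cut (b.eval x.length) (join O D) =
        CC.cut (b.eval x.length) (join O (tab (h x))) := by
      funext z
      unfold CC.cut
      split_ifs with hz
      · rcases z with _ | ⟨c, z⟩
        · rfl
        · cases c with
          | false => rfl
          | true =>
            change d z.length = (h x).getD z.length false
            rw [List.length_cons] at hz
            simp only [h]
            rw [List.getD_eq_getElem _ _ (by simp; omega)]
            simp
      · rfl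
    rw [hcut]

theorem easy : ∃ O : Oracle, ∀ p : ℕ → unitInterval,
    Summable (fun n => 2 ^ n * min (p n : ℝ) (1 - p n)) →
    ∀ᵐ A ∂(rnd fun x => p x.length), ∀ L : Set (List Bool),
      IsPSPACE (join O A) L → IsP (join O A) L := by
  obtain ⟨O, hO, h⟩ := exists_oracle
  refine ⟨O, fun p hp => ?_⟩
  filter_upwards [ae_finite hp] with A hA L hL
  exact collapse_of_finite hO hA (h fun n => lik (p n)) L hL

end Pool.Agent.H20RD
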