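import Pool.Agent.H20RD.Lang

/-!
# The test language, with the bits of the search
-/

set_option autoImplicit false

namespace Pool.Agent.H20RD

open Pool.Agent.NPC Pool.Agent.H622R2 Pool.Agent.H620R2.Gauge

/-- the number of the bit in question -/
def pi (x : List Bool) : ℕ := (unpair x).1.length

/-- the parameters of the block -/
def py (x : List Bool) : List Bool := (unpair (unpair x).2).2

/-- the input for the bit number `i` -/
def inq (i j k m : ℕ) : List Bool :=
  pairBits (List.replicate i true) (pairBits (List.replicate (m - i) true) (inpt j k m))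

theorem pi_inq (i j k m : ℕ) : pi (inq i j k m) = i := by
  simp [pi, inq, unpair_pairBits]

theorem py_inq (i j k m : ℕ) : py (inq i j k m) = inpt j k m := by
  simp [py, inq, unpair_pairBits]

theorem length_inpt (j k m : ℕ) : (inpt j k m).length = 2 * (j + k) + m + 2 := by
  unfold inpt
  rw [A2.length_pairBits, A2.length_pairBits]
  simp only [List.length_replicate]
  omega

theorem length_inq {i j k m : ℕ} (hi : i ≤ m) :
    (inq i j k m).length = 2 * (j + k) + 3 * m + 4 := by
  unfold inq
  rw [A2.length_pairBits, A2.length_pairBits, length_inpt]
  simp only [List.length_replicate]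
  omega

/-- the language of the inputs for which a cell is hit whose name has the given bit -/
def LangQ (β : Bool) (A : Oracle) : Set (List Bool) :=
  {x | ∃ z : List Bool, z.length = pm (py x) ∧ z.getD (pi x) false = true ∧
    ∀ i ≤ pk (py x), A (cs (pj (py x)) (pk (py x)) z i) = β}

theorem mem_langQ {β : Bool} {A : Oracle} {i j k m : ℕ} :
    inq i j k m ∈ LangQ β A ↔ ∃ z : List Bool, z.length = m ∧ z.getD i false = true ∧
      A ∈ hitC β j k z := by
  unfold LangQ hitC
  simp only [Set.mem_ofPred_eq, pi_inq, py_inq, pj_inpt, pk_inpt, pm_inpt]

theorem poly_py : Poly py := Poly.snd (poly_unpair.comp (Poly.snd poly_unpair))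

/-- the questions about a cell -/
def qq (y : List Bool) : List (List Bool) := qs (pairBits (unpair y).1 (py (unpair y).2))

theorem poly_qq : Poly qq :=
  poly_qs.comp (poly_pairBits (Poly.fst poly_unpair) (poly_py.comp (Poly.snd poly_unpair)))

/-- the answers are right -/
def finq (β : Bool) (p : List Bool × List Bool) : List Bool :=
  [decide ((unpair p.1).1.length = pm (py (unpair p.1).2)) &&
    ((unpair p.1).1.getD (pi (unpair p.1).2) false && p.2.all fun b => decide (b = β))]

theorem poly_finq (β : Bool) : Poly (finq β) := by
  have hy : Poly (fun p : List Bool × List Bool => unpair p.1) := poly_unpair.comp (Poly.fst Poly.id)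
  have hpi : Poly (fun p : List Bool × List Bool => pi (unpair p.1).2) :=
    (UPoly.length (Poly.fst (poly_unpair.comp (Poly.snd hy)))).toPoly
  refine Poly.cons ?_ (NPC.Poly.const [])
  refine (Poly.cond (Poly.decide_eq (UPoly.length (Poly.fst hy)).toPoly
    (upoly_pm (poly_py.comp (Poly.snd hy))).toPoly)
      (Poly.cond (Poly.getD (d := fun _ => false) (Poly.fst hy) hpi (NPC.Poly.const false))
        (Poly.all (p := fun _ b => decide (b = β)) (Poly.snd Poly.id)
          (Poly.decide_eq (Poly.snd Poly.id) (NPC.Poly.const β))) (NPC.Poly.const false))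
      (NPC.Poly.const false)).congr fun p => ?_
  cases decide ((unpair p.1).1.length = pm (py (unpair p.1).2)) <;>
    cases (unpair p.1).1.getD (pi (unpair p.1).2) false <;> rfl

theorem length_unpair_snd : ∀ y : List Bool, (unpair y).2.length ≤ y.length := by
  intro y
  unfold unpair
  have : ∀ (n : ℕ) (s : List Bool × List Bool × Bool),
      (ustep^[n] s).2.1.length ≤ s.2.1.length := by
    intro n
    induction n with
    | zero => intro s; exact le_rfl
    | succ n ih =>
      intro s
      rw [Function.iterate_succ_apply]
      refine (ih _).trans ?_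
      obtain ⟨a, l, b⟩ := s
      unfold ustep
      cases b with
      | true => simp
      | false =>
        match l with
        | [] => simp
        | true :: [] => simp
        | true :: c :: l' => simp; omega
        | false :: l' => simp
  exact this _ _

/-- **The test language is in `NP`.** -/
theorem isNP_langQ (β : Bool) (O A : Oracle) : IsNP (join O A) (LangQ β A) := by
  refine ⟨_, Polynomial.X, IsFP.tt poly_qq (poly_finq β), fun x => ?_⟩
  simp only [finq, unpair_pairBits, qq, qs, List.cons.injEq, and_true, Bool.and_eq_true,
    decide_eq_true_eq, List.all_eq_true, Polynomial.eval_X]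
  have hle : pm (py x) ≤ x.length :=
    ((length_unpair_snd _).trans (length_unpair_snd _)).trans
      ((length_unpair_snd _).trans (length_unpair_snd _))
  constructor
  · rintro ⟨z, hz, hi, h⟩
    refine ⟨z, by omega, hz, hi, fun b hb => ?_⟩
    simp only [List.map_map, List.mem_map, List.mem_range, Function.comp_apply] at hb
    obtain ⟨i, hi, rfl⟩ := hb
    exact h _ (min_le_right _ _)
  · rintro ⟨z, _, hz, hi, h⟩
    refine ⟨z, hz, hi, fun i hi => ?_⟩
    apply h
    simp only [List.map_map, List.mem_map, List.mem_range, Function.comp_apply]
    refine ⟨i, by omega, ?_⟩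
    rw [min_eq_left hi]
    rfl

end Pool.Agent.H20RD
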