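import Pool.Agent.H20RD.PDefs
import Pool.Agent.H20RD.Lang2
import Pool.Agent.H620R2.GaugeR.Seq

/-!
# Decoding strings of variable length; counting
-/

set_option autoImplicit false

namespace Pool.Agent.H20RD

open Pool.Agent.NPC Pool.Agent.H622R2 Pool.Agent.H620R2.Gauge

/-- The string given by the pairs number `s, …, s + b - 1` of bits of `w`: the second bits of the
pairs whose first bit is `true`. -/
def dec (b s : ℕ) (w : List Bool) : List Bool :=
  ((List.range b).filter fun j => w.getD (2 * (s + j)) false).map fun j =>
    w.getD (2 * (s + j) + 1) false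

theorem length_dec_le (b s : ℕ) (w : List Bool) : (dec b s w).length ≤ b := by
  unfold dec
  rw [List.length_map]
  exact (List.length_filter_le _ _).trans (by simp)

section
variable {α : Type} [TEnc α]

theorem poly_dec {b s : α → ℕ} {w : α → List Bool} (hb : UPoly b) (hs : UPoly s) (hw : Poly w) :
    Poly fun a => dec (b a) (s a) (w a) := by
  have h1 : Poly fun q : α × ℕ => 2 * (s q.1 + q.2) :=
    Poly.mul (NPC.Poly.const 2) (Poly.add (hs.toPoly.comp (Poly.fst Poly.id)) (Poly.snd Poly.id))
  have h2 : Poly fun q : α × ℕ => w q.1 := hw.comp (Poly.fst Poly.id)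
  have h3 : Poly fun a => (List.range (b a)).filter fun j => (w a).getD (2 * (s a + j)) false :=
    Poly.filter (p := fun a j => (w a).getD (2 * (s a + j)) false) hb.range
      (Poly.getD (d := fun _ => false) h2 h1 (NPC.Poly.const false))
  exact NPC.Poly.map h3 (F := fun a j => (w a).getD (2 * (s a + j) + 1) false)
    (Poly.getD (d := fun _ => false) h2 (Poly.add h1 (NPC.Poly.const 1)) (NPC.Poly.const false))

end

theorem filter_range_lt (b l : ℕ) (h : l ≤ b) :
    (List.range b).filter (fun j => decide (j < l)) = List.range l := by
  obtain ⟨d, rfl⟩ := Nat.exists_eq_add_of_le h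
  rw [List.range_add, List.filter_append]
  have h1 : (List.range l).filter (fun j => decide (j < l)) = List.range l := by
    rw [List.filter_eq_self]
    intro j hj
    simpa using hj
  have h2 : ((List.range d).map (l + ·)).filter (fun j => decide (j < l)) = [] := by
    rw [List.filter_eq_nil_iff]
    intro j hj
    rw [List.mem_map] at hj
    obtain ⟨i, _, rfl⟩ := hj
    simp
  rw [h1, h2, List.append_nil]

/-- decoding, if the bits are known -/
theorem dec_eq {b s : ℕ} {w u : List Bool} (hu : u.length ≤ b)
    (h1 : ∀ j < b, w.getD (2 * (s + j)) false = decide (j < u.length))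
    (h2 : ∀ j < u.length, w.getD (2 * (s + j) + 1) false = u.getD j false) :
    dec b s w = u := by
  unfold dec
  have h3 : (List.range b).filter (fun j => w.getD (2 * (s + j)) false) = List.range u.length := by
    rw [← filter_range_lt b u.length hu]
    refine List.filter_congr fun j hj => ?_
    rw [List.mem_range] at hj
    rw [h1 j hj]
  rw [h3]
  refine List.ext_getElem (by simp) fun j k1 k2 => ?_
  rw [List.length_map, List.length_range] at k1
  rw [List.getElem_map, List.getElem_range, h2 j k1, List.getD_eq_getElem _ _ k2]

/-- every short string is decoded from some string -/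
theorem exists_dec {b : ℕ} {u : List Bool} (hu : u.length ≤ b) :
    ∃ w : List Bool, w.length = 2 * b ∧ dec b 0 w = u := by
  refine ⟨(List.range (2 * b)).map fun i => if i % 2 = 0 then decide (i / 2 < u.length) else
    u.getD (i / 2) false, by simp, ?_⟩
  refine dec_eq hu (fun j hj => ?_) fun j hj => ?_
  · rw [List.getD_eq_getElem _ _ (by simp; omega)]
    simp
  · rw [List.getD_eq_getElem _ _ (by simp; omega)]
    simp only [List.getElem_map, List.getElem_range]
    rw [if_neg (by omega)]
    congr 1
    omega

/-! ### Counting -/

open Finset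

theorem ncard_eq (m : ℕ) (P : List Bool → Prop) [DecidablePred P] :
    {w : List Bool | w.length = m ∧ P w}.ncard = ((strs m).filter P).card := by
  rw [← Set.ncard_coe_finset]
  congr 1
  ext w
  simp [mem_strs]

theorem strs_succ (m : ℕ) : strs (m + 1) = ((strs m).image (List.cons false)) ∪
    ((strs m).image (List.cons true)) := by
  ext w
  simp only [mem_union, mem_image, mem_strs]
  constructor
  · intro h
    rcases w with _ | ⟨c, w⟩
    · simp at h
    · cases c
      · exact Or.inl ⟨w, by simpa using h, rfl⟩
      · exact Or.inr ⟨w, by simpa using h, rfl⟩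
  · rintro (⟨w, h, rfl⟩ | ⟨w, h, rfl⟩) <;> simp [h]

theorem card_filter_succ (m : ℕ) (P : List Bool → Prop) [DecidablePred P] :
    ((strs (m + 1)).filter P).card = ((strs m).filter fun w => P (false :: w)).card +
      ((strs m).filter fun w => P (true :: w)).card := by
  rw [strs_succ, filter_union, card_union_of_disjoint, filter_image, filter_image,
    card_image_of_injective _ (List.cons_injective), card_image_of_injective _ (List.cons_injective)]
  rw [Finset.disjoint_left]
  intro w h1 h2
  rw [mem_filter, mem_image] at h1 h2
  obtain ⟨⟨u, _, rfl⟩, _⟩ := h1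
  obtain ⟨⟨v, _, h3⟩, _⟩ := h2
  simp at h3

end Pool.Agent.H20RD
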