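import Pool.Agent.H20RD.ODefs
import Pool.Agent.H20RD.Dec
import Pool.Agent.TH678.PN.Comp
import Pool.Agent.H620R2.Gauge.P
import Pool.Agent.H620R2.Gauge.Blk

/-!
# The parity of the number of elements of a given length
-/

set_option autoImplicit false

namespace Pool.Agent.H20RD

open Pool.Agent.NPC Pool.Agent.H622R2 Pool.Agent.H620R2.Gauge Finset

section
variable {α : Type} [TEnc α]

theorem drop_eq (l : List Bool) (k : ℕ) :
    (List.range (l.length - k)).map (fun j => l.getD (k + j) false) = l.drop k := by
  refine List.ext_getElem (by simp) fun j h1 h2 => ?_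
  rw [List.length_drop] at h2
  rw [List.getElem_map, List.getElem_range, List.getElem_drop,
    List.getD_eq_getElem _ _ (by omega)]

theorem take_eq (l : List Bool) (k : ℕ) :
    (List.range (min k l.length)).map (fun j => l.getD j false) = l.take k := by
  refine List.ext_getElem (by simp) fun j h1 h2 => ?_
  rw [List.length_take] at h2
  rw [List.getElem_map, List.getElem_range, List.getElem_take,
    List.getD_eq_getElem _ _ (by omega)]

theorem poly_drop {l : α → List Bool} {k : α → ℕ} (hl : Poly l) (hk : Poly k) :
    Poly fun a => (l a).drop (k a) := by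
  have h1 : UPoly fun a => (l a).length - k a :=
    UPoly.of_le (Poly.sub (UPoly.length hl).toPoly hk) (UPoly.length hl) fun a => Nat.sub_le _ _
  have h2 : Poly fun q : α × ℕ => l q.1 := hl.comp (Poly.fst Poly.id)
  exact (NPC.Poly.map h1.range (F := fun a j => (l a).getD (k a + j) false)
    (Poly.getD (d := fun _ => false) h2 (Poly.add (hk.comp (Poly.fst Poly.id)) (Poly.snd Poly.id))
      (NPC.Poly.const false))).congr fun a => drop_eq (l a) (k a)

theorem poly_take {l : α → List Bool} {k : α → ℕ} (hl : Poly l) (hk : Poly k) :
    Poly fun a => (l a).take (k a) := by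
  have h1 : UPoly fun a => min (k a) (l a).length :=
    UPoly.of_le (Poly.min hk (UPoly.length hl).toPoly) (UPoly.length hl) fun a => min_le_right _ _
  have h2 : Poly fun q : α × ℕ => l q.1 := hl.comp (Poly.fst Poly.id)
  exact (NPC.Poly.map h1.range (F := fun a j => (l a).getD j false)
    (Poly.getD (d := fun _ => false) h2 (Poly.snd Poly.id)
      (NPC.Poly.const false))).congr fun a => take_eq (l a) (k a)

end

/-- the number of strings of the same length in the oracle is odd -/
def oddL (A : Oracle) : Set (List Bool) :=
  {x | Odd ((strs x.length).filter fun y => A y = true).card}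

theorem image_bitsOf (n : ℕ) : (range (2 ^ n)).image (bitsOf n) = strs n := by
  apply eq_of_subset_of_card_le
  · intro y hy
    rw [mem_image] at hy
    obtain ⟨j, _, rfl⟩ := hy
    rw [mem_strs, length_bitsOf]
  · rw [card_strs, card_image_of_injOn, card_range]
    intro i hi j hj h
    rw [mem_coe, mem_range] at hi hj
    exact bitsOf_inj hi hj h

theorem oddL_pspace (O A : Oracle) : IsPSPACE (join O A) (oddL A) := by
  have hg : Poly fun y : List Bool => true :: y.drop (y.length / 2) :=
    Poly.cons (NPC.Poly.const true) (poly_drop Poly.id
      (Poly.div (UPoly.length Poly.id).toPoly (NPC.Poly.const 2)))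
  have h := TH678.PN.IsPSPACE.of_map hg (parLang_pspace fun y => join O A
    (true :: y.drop (y.length / 2)))
  have e : parLang (fun y => join O A (true :: y.drop (y.length / 2))) = oddL A := by
    ext x
    unfold parLang oddL
    simp only [Set.mem_ofPred_eq]
    have h1 : ((strs x.length).filter fun y => A y = true).card =
        ((range (2 ^ x.length)).filter fun j => join O A (true :: (x ++ bitsOf x.length j).drop
          ((x ++ bitsOf x.length j).length / 2)) = true).card := by
      rw [← image_bitsOf, filter_image, card_image_of_injOn]
      · congr 1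
        ext j
        simp only [mem_filter]
        refine and_congr_right fun _ => ?_
        rw [List.length_append, length_bitsOf, show (x.length + x.length) / 2 = x.length by omega,
          List.drop_left]
        rfl
      · intro i hi j hj h
        rw [mem_coe, mem_filter, mem_range] at hi hj
        exact bitsOf_inj hi.1 hj.1 h
    rw [h1]
  rwa [e] at h

theorem oddL_parity (O A : Oracle) : IsParityP (join O A) (oddL A) := by
  have h1 := IsFP.tt (A := join O A) (Q := fun y => [true :: (unpair y).1]) (H := fun y => y.2)
    (Poly.cons (Poly.cons (NPC.Poly.const true) (Poly.fst poly_unpair)) (NPC.Poly.const []))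
    (Poly.snd Poly.id)
  refine ⟨_, Polynomial.X, h1, fun x => ?_⟩
  simp only [List.map_cons, List.map_nil, unpair_pairBits, Polynomial.eval_X, List.cons.injEq,
    and_true]
  rw [ncard_eq]
  rfl

end Pool.Agent.H20RD
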