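import Pool.Agent.H20RD.Ent
import Pool.Agent.H20RD.OddL
import Pool.Agent.H20RD.Easy

/-!
# Relative to a sparse set, `PSPACE` is contained in `PP`
-/

set_option autoImplicit false

namespace Pool.Agent.H20RD

open Pool.Agent.NPC Pool.Agent.H622R2 Pool.Agent.H620R2.Gauge

section machine

variable (b K : Polynomial ℕ)

/-- the bound for the lengths -/
def sB (y : List Bool) : ℕ := b.eval (unpair y).2.length
/-- the number of blocks -/
def sK (y : List Bool) : ℕ := K.eval (unpair y).2.length
/-- the length of the code of the list -/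
def sA (y : List Bool) : ℕ := 2 * sB b y * sK K y + sK K y
/-- the code of the list -/
def sU (y : List Bool) : List Bool := (unpair y).1.tail.take (sA b K y)
/-- the blocks which are used -/
def sI (y : List Bool) : List ℕ := idxs (sB b y) (sK K y) (sU b K y)
/-- the string in a block -/
def sZ (y : List Bool) (i : ℕ) : List Bool := dec (sB b y) (min i (sK K y) * sB b y) (sU b K y)
/-- the questions -/
def sQ (y : List Bool) : List (List Bool) :=
  ((List.range (sB b y + 1)).map fun i => true :: List.replicate (min i (sB b y)) false) ++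
    (List.range (sK K y)).map fun i => true :: sZ b K y i

/-- the first test: the strings are exceptional -/
def g1 (q : List Bool × List Bool) : Bool := (sI b K q.1).all fun i =>
  decide (q.2.getD (sB b q.1 + 1 + i) false ≠ q.2.getD (sZ b K q.1 i).length false)
/-- the second test: the strings are different -/
def g2 (y : List Bool) : Bool := (sI b K y).all fun i => (sI b K y).all fun j =>
  decide (i = j) || !decide (sZ b K y i = sZ b K y j)
/-- the third test: the rest is zero -/
def g3 (y : List Bool) : Bool :=
  ((unpair y).1.tail.drop (sA b K y + (sI b K y).length * (sA b K y + 1))).all fun c =>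
    decide (c = false)

/-- the decision -/
def dcd (q : List Bool × List Bool × List Bool) : List Bool :=
  if g1 b K (q.1, q.2.1) && (g2 b K q.1 && g3 b K q.1) then q.2.2 else [(unpair q.1).1.getD 0 false]

/-- the question for the first oracle -/
def phi (q : List Bool × List Bool) : List Bool :=
  pairBits (q.2.take (sB b q.1 + 1)) (pairBits (sU b K q.1) (unpair q.1).2)

theorem upoly_sB : UPoly (sB b) := (UPoly.length (Poly.snd poly_unpair)).eval b
theorem upoly_sK : UPoly (sK K) := (UPoly.length (Poly.snd poly_unpair)).eval K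
theorem upoly_sA : UPoly (sA b K) :=
  UPoly.add (UPoly.mul (UPoly.mul (UPoly.const 2) (upoly_sB b)) (upoly_sK K)) (upoly_sK K)
theorem poly_sU : Poly (sU b K) :=
  poly_take (Poly.tail (Poly.fst poly_unpair)) (upoly_sA b K).toPoly
theorem poly_sI : Poly (sI b K) := by
  have h1 : Poly fun q : List Bool × ℕ => 2 * sB b q.1 * sK K q.1 + q.2 :=
    Poly.add (Poly.mul (Poly.mul (NPC.Poly.const 2) ((upoly_sB b).toPoly.comp (Poly.fst Poly.id)))
      ((upoly_sK K).toPoly.comp (Poly.fst Poly.id))) (Poly.snd Poly.id)
  exact Poly.filter (p := fun y i => (sU b K y).getD (2 * sB b y * sK K y + i) false)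
    (upoly_sK K).range (Poly.getD (d := fun _ => false) ((poly_sU b K).comp (Poly.fst Poly.id)) h1
      (NPC.Poly.const false))

section
variable {α : Type} [TEnc α]

theorem poly_sZ {y : α → List Bool} {i : α → ℕ} (hy : Poly y) (hi : Poly i) :
    Poly fun a => sZ b K (y a) (i a) := by
  have h1 : UPoly fun a => sB b (y a) := (UPoly.length (Poly.snd (poly_unpair.comp hy))).eval b
  have h2 : UPoly fun a => sK K (y a) := (UPoly.length (Poly.snd (poly_unpair.comp hy))).eval K
  have h3 : UPoly fun a => min (i a) (sK K (y a)) :=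
    UPoly.of_le (Poly.min hi h2.toPoly) h2 fun a => min_le_right _ _
  exact poly_dec h1 (UPoly.mul h3 h1) ((poly_sU b K).comp hy)

end

theorem poly_sQ : Poly (sQ b K) := by
  refine Poly.append ?_ ?_
  · refine NPC.Poly.map (UPoly.add (upoly_sB b) (UPoly.const 1)).range
      (F := fun y i => true :: List.replicate (min i (sB b y)) false) ?_
    have hx' : UPoly (fun p : List Bool × ℕ => sB b p.1) :=
      (UPoly.length (Poly.snd (poly_unpair.comp (Poly.fst Poly.id)))).eval b
    exact Poly.cons (NPC.Poly.const true) (poly_rep false (UPoly.of_le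
      (Poly.min (Poly.snd Poly.id) hx'.toPoly) hx' fun p => min_le_right _ _))
  · refine NPC.Poly.map (upoly_sK K).range (F := fun y i => true :: sZ b K y i) ?_
    exact Poly.cons (NPC.Poly.const true) (poly_sZ b K (Poly.fst Poly.id) (Poly.snd Poly.id))

theorem poly_g1 : Poly (g1 b K) := by
  refine Poly.all (p := fun (q : List Bool × List Bool) i =>
    decide (q.2.getD (sB b q.1 + 1 + i) false ≠ q.2.getD (sZ b K q.1 i).length false))
    ((poly_sI b K).comp (Poly.fst Poly.id)) ?_
  have hy : Poly fun q : (List Bool × List Bool) × ℕ => q.1.1 := Poly.fst (Poly.fst Poly.id)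
  have ha : Poly fun q : (List Bool × List Bool) × ℕ => q.1.2 := Poly.snd (Poly.fst Poly.id)
  have hi : Poly fun q : (List Bool × List Bool) × ℕ => q.2 := Poly.snd Poly.id
  have h1 := Poly.getD (d := fun _ => false) ha
    (Poly.add (Poly.add ((upoly_sB b).toPoly.comp hy) (NPC.Poly.const 1)) hi)
    (NPC.Poly.const false)
  have h2 := Poly.getD (d := fun _ => false) ha (UPoly.length (poly_sZ b K hy hi)).toPoly
    (NPC.Poly.const false)
  exact (Poly.not (Poly.decide_eq h1 h2)).congr fun q => by simp

theorem poly_g2 : Poly (g2 b K) := by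
  refine Poly.all (p := fun y i => (sI b K y).all fun j =>
    decide (i = j) || !decide (sZ b K y i = sZ b K y j)) (poly_sI b K) ?_
  refine Poly.all (p := fun (q : List Bool × ℕ) j =>
    decide (q.2 = j) || !decide (sZ b K q.1 q.2 = sZ b K q.1 j))
    ((poly_sI b K).comp (Poly.fst Poly.id)) ?_
  have hy : Poly fun q : (List Bool × ℕ) × ℕ => q.1.1 := Poly.fst (Poly.fst Poly.id)
  have hi : Poly fun q : (List Bool × ℕ) × ℕ => q.1.2 := Poly.snd (Poly.fst Poly.id)
  have hj : Poly fun q : (List Bool × ℕ) × ℕ => q.2 := Poly.snd Poly.id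
  exact poly_or' (Poly.decide_eq hi hj) (Poly.not (Poly.decide_eq (poly_sZ b K hy hi)
    (poly_sZ b K hy hj)))
where
  poly_or' {α : Type} [TEnc α] {f g : α → Bool} (hf : Poly f) (hg : Poly g) :
      Poly fun a => f a || g a :=
    (Poly.cond hf (NPC.Poly.const true) hg).congr fun a => by cases f a <;> rfl

theorem poly_g3 : Poly (g3 b K) := by
  refine Poly.all (p := fun _ c => decide (c = false)) (poly_drop (Poly.tail (Poly.fst poly_unpair))
    (Poly.add (upoly_sA b K).toPoly (Poly.mul (UPoly.length (poly_sI b K)).toPoly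
      (Poly.add (upoly_sA b K).toPoly (NPC.Poly.const 1)))))
    (Poly.decide_eq (Poly.snd Poly.id) (NPC.Poly.const false))

theorem poly_dcd : Poly (dcd b K) := by
  have h1 : Poly fun q : List Bool × List Bool × List Bool => g1 b K (q.1, q.2.1) :=
    (poly_g1 b K).comp (Poly.pair (Poly.fst Poly.id) (Poly.fst (Poly.snd Poly.id)))
  have h2 : Poly fun q : List Bool × List Bool × List Bool => g2 b K q.1 :=
    (poly_g2 b K).comp (Poly.fst Poly.id)
  have h3 : Poly fun q : List Bool × List Bool × List Bool => g3 b K q.1 :=
    (poly_g3 b K).comp (Poly.fst Poly.id)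
  have h4 : Poly fun q : List Bool × List Bool × List Bool => q.2.2 := Poly.snd (Poly.snd Poly.id)
  have h5 : Poly fun q : List Bool × List Bool × List Bool => [(unpair q.1).1.getD 0 false] :=
    Poly.cons (Poly.getD (d := fun _ => false) (Poly.fst (poly_unpair.comp (Poly.fst Poly.id)))
      (NPC.Poly.const 0) (NPC.Poly.const false)) (NPC.Poly.const [])
  refine (Poly.cond h1 (Poly.cond h2 (Poly.cond h3 h4 h5) h5) h5).congr fun q => ?_
  unfold dcd
  cases g1 b K (q.1, q.2.1) <;> cases g2 b K q.1 <;> cases g3 b K q.1 <;> rfl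

theorem poly_phi : Poly (phi b K) := by
  have hy : Poly fun q : List Bool × List Bool => q.1 := Poly.fst Poly.id
  exact poly_pairBits (poly_take (Poly.snd Poly.id)
    (Poly.add ((upoly_sB b).toPoly.comp hy) (NPC.Poly.const 1)))
    (poly_pairBits ((poly_sU b K).comp hy) (Poly.snd (poly_unpair.comp hy)))

end machine

end Pool.Agent.H20RD
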