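import Pool.Agent.H20RD.Lang2
import Pool.Agent.H622R2.Exp.E0

/-!
# Countable families of machines fail on the test language
-/

set_option autoImplicit false

namespace Pool.Agent.H20RD

open Pool.Agent.NPC Pool.Agent.H622R2 Pool.Agent.H620R2.Gauge MeasureTheory Filter

/-- A kind of machines: `Ok i A x b` says that the machine `i` with oracle `A` gives the right answer
on the input `x` if the truth value is `b`. The answer depends on short strings only, and if the
machine is right when the truth value is false, few changes of the oracle on disjoint sets make it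
right when the truth value is true. -/
structure Kind (ι : Type) (Ok : ι → Oracle → List Bool → Prop → Prop) : Prop where
  loc : ∀ i, ∃ B : Polynomial ℕ, ∀ x A A', (∀ y : List Bool, y.length ≤ B.eval x.length →
    A y = A' y) → ∀ b, Ok i A x b → Ok i A' x b
  few : ∀ i, ∃ r : Polynomial ℕ, ∀ x A, Ok i A x False → ∀ (P : Finset (List Bool))
    (F : List Bool → Oracle), (∀ t ∈ P, ∀ t' ∈ P, ∀ y, F t y ≠ A y → F t' y ≠ A y → t = t') →
    (∀ t ∈ P, Ok i (F t) x True) → P.card ≤ r.eval x.length

theorem depOn_langQ {β : Bool} {i j k m n : ℕ} (h : j + k + m = n) {A A' : Oracle}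
    (hA : ∀ x ∈ short n, A x = A' x) : inq i j k m ∈ LangQ β A ↔ inq i j k m ∈ LangQ β A' := by
  rw [mem_langQ, mem_langQ]
  have key : ∀ A A' : Oracle, (∀ x ∈ short n, A x = A' x) →
      (∃ z : List Bool, z.length = m ∧ z.getD i false = true ∧ A ∈ hitC β j k z) →
      ∃ z : List Bool, z.length = m ∧ z.getD i false = true ∧ A' ∈ hitC β j k z := by
    rintro A A' hA ⟨z, hz, hi, h2⟩
    refine ⟨z, hz, hi, fun i hi => ?_⟩
    rw [← hA _ (mem_short.2 (by rw [length_cs hi]; omega))]
    exact h2 i hi
  exact ⟨key A A' hA, key A' A fun x hx => (hA x hx).symm⟩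

theorem join_congr {O A A' : Oracle} {b : ℕ} (h : ∀ x ∈ short b, A x = A' x) (y : List Bool)
    (hy : y.length ≤ b + 1) : join O A y = join O A' y := by
  rcases y with _ | ⟨c, y⟩
  · rfl
  · cases c with
    | false => rfl
    | true =>
      change A y = A' y
      apply h
      rw [mem_short]
      simp only [List.length_cons] at hy
      omega

/-- changes of disjoint cells -/
theorem join_cells {O A : Oracle} {j k m : ℕ} {P : Finset (List Bool)} {A' : List Bool → Oracle}
    (hP : ∀ t ∈ P, t.length = m) (hA : ∀ t ∈ P, ∀ x, x ∉ cellC j k t → A' t x = A x) :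
    ∀ t ∈ P, ∀ t' ∈ P, ∀ y, join O (A' t) y ≠ join O A y → join O (A' t') y ≠ join O A y →
      t = t' := by
  intro t ht t' ht' y h1 h2
  rcases y with _ | ⟨c, y⟩
  · exact absurd rfl h1
  · cases c with
    | false => exact absurd rfl h1
    | true =>
      change A' t y ≠ A y at h1
      change A' t' y ≠ A y at h2
      have m1 : y ∈ cellC j k t := by
        by_contra hc
        exact h1 (hA t ht y hc)
      have m2 : y ∈ cellC j k t' := by
        by_contra hc
        exact h2 (hA t' ht' y hc)
      by_contra hne
      exact Finset.disjoint_left.1 (disjoint_cellC ((hP t ht).trans (hP t' ht').symm) hne) m1 m2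

/-- the answer if exactly one cell is hit -/
theorem langQ_one {β : Bool} {i j k m : ℕ} {A A' : Oracle} {z : List Bool} (hz : z.length = m)
    (hno : ∀ z : List Bool, z.length = m → A ∉ hitC β j k z)
    (h1 : ∀ x, x ∉ cellC j k z → A' x = A x) (h2 : A' ∈ hitC β j k z) :
    inq i j k m ∈ LangQ β A' ↔ z.getD i false = true := by
  rw [mem_langQ]
  constructor
  · rintro ⟨z', hz', hi, h3⟩
    by_cases he : z' = z
    · rw [← he]
      exact hi
    · exfalso
      apply hno z' hz'
      intro l hl
      rw [← h1]
      · exact h3 l hl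
      · intro hc
        refine Finset.disjoint_left.1 (disjoint_cellC (hz'.trans hz.symm) he) ?_ hc
        exact Finset.mem_image.2 ⟨l, Finset.mem_range.2 (by omega), rfl⟩
  · exact fun hi => ⟨z, hz, hi, h2⟩

/-- **Random oracles of every density are hard for all kinds of machines.** -/
theorem ae_fail {ι : Type} [Countable ι] {Ok : ι → Oracle → List Bool → Prop → Prop}
    (hK : Kind ι Ok) (O : Oracle) (β : Bool) (p : ℕ → unitInterval)
    (hs : ¬ Summable fun n => if w β (p n) ≤ 1 / 2 then 2 ^ n * w β (p n) else 0) :
    ∀ᵐ A ∂(rnd fun x => p x.length), ∀ i, ¬ ∀ x, Ok i (join O A) x (x ∈ LangQ β A) := by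
  classical
  rw [ae_all_iff]
  intro e
  obtain ⟨j, k, hjk, hbl⟩ := blocks β p hs
  obtain ⟨B, hB⟩ := hK.loc e
  obtain ⟨r, hr⟩ := hK.few e
  set m : ℕ → ℕ := fun n => n - j n - k n with hm
  set X : ℕ → ℕ → List Bool := fun n l => inq l (j n) (k n) (m n) with hX
  have hmn : ∀ n, m n ≤ n := fun n => by simp only [hm]; omega
  have hXl : ∀ n, ∀ l < m n, (X n l).length ≤ 3 * n + 4 := by
    intro n l hl
    have h1 := length_inq (i := l) (j := j n) (k := k n) (m := m n) hl.le
    have h2 := hjk n
    have h3 : m n = n - j n - k n := rfl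
    change (inq l (j n) (k n) (m n)).length ≤ _
    omega
  have hnull := hbl (fun n => {A | ∀ l < m n, Ok e (join O A) (X n l) (X n l ∈ LangQ β A)})
    (fun n => max (B.eval (3 * n + 4)) n) (fun n => 1 + n * r.eval (3 * n + 4)) ?_ ?_ ?_
  · refine measure_mono_null (fun A hA => ?_) hnull
    simp only [Set.mem_compl_iff, Set.mem_ofPred_eq, not_not] at hA
    exact fun n l _ => hA (X n l)
  · intro n
    have key : ∀ A A' : Oracle, (∀ x ∈ short (max (B.eval (3 * n + 4)) n), A x = A' x) →
        ∀ l < m n, Ok e (join O A) (X n l) (X n l ∈ LangQ β A) →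
        Ok e (join O A') (X n l) (X n l ∈ LangQ β A') := by
      intro A A' h l hl hA
      have e1 : (X n l ∈ LangQ β A) = (X n l ∈ LangQ β A') :=
        propext (depOn_langQ (n := n) (by have := hjk n; simp only [hm]; omega) fun x hx =>
          h x (short_mono (le_max_right _ _) hx))
      rw [e1] at hA
      refine hB (X n l) (join O A) (join O A') (fun y hy => ?_) _ hA
      refine join_congr h y ?_
      have h1 := eval_mono B (hXl n l hl)
      have h2 := le_max_left (B.eval (3 * n + 4)) n
      omega
    intro A A' h
    exact ⟨fun hA l hl => key A A' h l hl (hA l hl),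
      fun hA l hl => key A' A (fun x hx => (h x hx).symm) l hl (hA l hl)⟩
  · intro n A hA hno P hP
    choose! A' hA1 hA2 hA3 using fun z hz => (hP z hz).2
    have hlang : ∀ z ∈ P, ∀ l, (X n l ∈ LangQ β (A' z) ↔ z.getD l false = true) := fun z hz l =>
      langQ_one (hP z hz).1 hno (hA1 z hz) (hA2 z hz)
    -- every cell but one is found at some bit
    have hcov : P ⊆ {List.replicate (m n) false} ∪
        (Finset.range (m n)).biUnion fun l => P.filter fun z => z.getD l false = true := by
      intro z hz
      rw [Finset.mem_union, Finset.mem_singleton, Finset.mem_biUnion]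
      by_cases h : ∃ l < m n, z.getD l false = true
      · right
        obtain ⟨l, hl, hl2⟩ := h
        exact ⟨l, Finset.mem_range.2 hl, Finset.mem_filter.2 ⟨hz, hl2⟩⟩
      · left
        push Not at h
        have hzl := (hP z hz).1
        refine List.ext_getElem (by rw [hzl, List.length_replicate]) fun l h1 h2 => ?_
        have h3 := h l (by rw [hzl] at h1; exact h1)
        rw [List.getD_eq_getElem _ _ h1] at h3
        rw [List.getElem_replicate]
        simpa using h3
    have hone : ∀ l ∈ Finset.range (m n), (P.filter fun z => z.getD l false = true).card ≤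
        r.eval (3 * n + 4) := by
      intro l hl
      rw [Finset.mem_range] at hl
      have hf : (X n l ∈ LangQ β A) = False := by
        rw [eq_iff_iff, iff_false]
        intro h
        obtain ⟨z, hz, _, h2⟩ := mem_langQ.1 h
        exact hno z hz h2
      have hA0 := hA l hl
      rw [hf] at hA0
      refine (hr (X n l) (join O A) hA0 (P.filter fun z => z.getD l false = true)
        (fun z => join O (A' z)) ?_ ?_).trans (eval_mono r (hXl n l hl))
      · exact join_cells (fun t ht => (hP t (Finset.mem_filter.1 ht).1).1)
          fun t ht => hA1 t (Finset.mem_filter.1 ht).1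
      · intro t ht
        rw [Finset.mem_filter] at ht
        have h3 := hA3 t ht.1 l hl
        have ht' : (X n l ∈ LangQ β (A' t)) = True := by
          rw [eq_iff_iff, iff_true]
          exact (hlang t ht.1 l).2 ht.2
        rwa [ht'] at h3
    refine (Finset.card_le_card hcov).trans ((Finset.card_union_le _ _).trans ?_)
    rw [Finset.card_singleton]
    refine Nat.add_le_add_left (Finset.card_biUnion_le.trans
      ((Finset.sum_le_sum hone).trans ?_)) 1
    rw [Finset.sum_const, Finset.card_range, smul_eq_mul]
    exact Nat.mul_le_mul_right _ (hmn n)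
  · have h1 := Pool.Agent.H622R2.Exp.E0.poly_le
      ((1 + Polynomial.X * r.comp (Polynomial.C 3 * Polynomial.X + Polynomial.C 4)).comp
        (Polynomial.C 4 * Polynomial.X + Polynomial.C 3)) 128
    obtain ⟨N, hN⟩ := eventually_atTop.1 h1
    refine eventually_atTop.2 ⟨4 * N, fun n hn => ?_⟩
    have h2 := hN (n / 4) (by omega)
    simp only [Polynomial.eval_comp, Polynomial.eval_add, Polynomial.eval_mul, Polynomial.eval_C,
      Polynomial.eval_X, Polynomial.eval_one] at h2
    refine le_trans (Nat.mul_le_mul_left _ (Nat.add_le_add_left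
      (Nat.mul_le_mul ?_ (eval_mono r ?_)) _)) h2 <;> omega

end Pool.Agent.H20RD
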