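import Pool.Agent.H20RD.SparseSem
import Pool.Agent.H20RD.Mach

/-!
# Random oracles with few exceptional strings
-/

set_option autoImplicit false

namespace Pool.Agent.H20RD

open Pool.Agent.NPC Pool.Agent.H622R2 Pool.Agent.H620R2.Gauge MeasureTheory Finset Filter
open scoped ENNReal

/-- Markov's inequality -/
theorem markov (p : ℕ → unitInterval) (n c : ℕ) (l : Bool) :
    (c : ℝ) * (rnd fun x => p x.length).real {A | c ≤ ((strs n).filter fun z => A z ≠ l).card} ≤
      2 ^ n * w (!l) (p n) := by
  classical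
  have hdep : DepOn (strs n) {A : Orc | c ≤ ((strs n).filter fun z => A z ≠ l).card} := by
    intro A A' h
    have : ((strs n).filter fun z => A z ≠ l) = (strs n).filter fun z => A' z ≠ l :=
      filter_congr fun z hz => by rw [h z hz]
    rw [Set.mem_ofPred_eq, Set.mem_ofPred_eq, this]
  have hdep2 : ∀ z : List Bool, DepOn {z} {A : Orc | A z ≠ l} := by
    intro z A A' h
    rw [Set.mem_ofPred_eq, Set.mem_ofPred_eq, h z (mem_singleton_self z)]
  have h1 := sum_real_le (rnd fun x => p x.length) ({()} : Finset Unit) (strs n)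
    (fun _ => (c : ℝ)) (fun _ => 1)
    (fun _ => {A | c ≤ ((strs n).filter fun z => A z ≠ l).card}) (fun z => {A | A z ≠ l})
    (fun _ _ => hdep.measurable) (fun z _ => (hdep2 z).measurable) (fun A => ?_)
  · rw [sum_singleton] at h1
    refine h1.trans ?_
    have h2 : ∀ z ∈ strs n, 1 * (rnd fun x => p x.length).real {A | A z ≠ l} = w (!l) (p n) := by
      intro z hz
      rw [one_mul, ← mem_strs.1 hz, ← rnd_one (fun x => p x.length) (!l) z]
      congr 1
      ext A
      rw [Set.mem_ofPred_eq, Set.mem_ofPred_eq]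
      cases A z <;> cases l <;> simp
    rw [sum_congr rfl h2, sum_const, card_strs, nsmul_eq_mul]
    push_cast
    exact le_rfl
  · rw [sum_singleton]
    have h3 : ∑ z ∈ strs n, 1 * ({A : Orc | A z ≠ l}).indicator (fun _ => (1 : ℝ)) A =
        (((strs n).filter fun z => A z ≠ l).card : ℝ) := by
      rw [card_filter]
      push_cast
      refine sum_congr rfl fun z _ => ?_
      rw [one_mul, Set.indicator_apply]
      rfl
    rw [h3, Set.indicator_apply]
    split_ifs with h4
    · rw [mul_one]
      exact_mod_cast h4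
    · rw [mul_zero]
      positivity

theorem ae_sparse {p : ℕ → unitInterval}
    (h : ∃ q : Polynomial ℕ, ∀ n, 2 ^ n * min (p n : ℝ) (1 - p n) ≤ q.eval n) :
    ∀ᵐ A ∂(rnd fun x => p x.length), ∃ κ : Polynomial ℕ, ∀ n, (exc A n).card ≤ κ.eval n := by
  classical
  obtain ⟨q, hq⟩ := h
  set c : ℕ → ℕ := fun n => (n + 1) ^ 2 * (q.eval n + 1) with hc
  set s : ℕ → Set Orc := fun n =>
    {A | c n ≤ ((strs n).filter fun z => A z ≠ lik (p n)).card} ∪
      {A | A (List.replicate n false) ≠ lik (p n)} with hs
  have h1 : ∀ n, (rnd fun x => p x.length).real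
      {A | c n ≤ ((strs n).filter fun z => A z ≠ lik (p n)).card} ≤ 1 / ((n : ℝ) + 1) ^ 2 := by
    intro n
    have e1 := markov p n (c n) (lik (p n))
    rw [w_lik] at e1
    have e2 := e1.trans (hq n)
    rw [le_div_iff₀ (by positivity)]
    simp only [hc] at e2 ⊢
    push_cast at e2
    have e3 : (0 : ℝ) < (q.eval n : ℕ) + 1 := by positivity
    have e4 : (0 : ℝ) ≤ (rnd fun x => p x.length).real {A | (n + 1) ^ 2 * (q.eval n + 1) ≤
        ((strs n).filter fun z => A z ≠ lik (p n)).card} := measureReal_nonneg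
    by_contra hlt
    rw [not_le] at hlt
    have e5 := mul_lt_mul_of_pos_right hlt e3
    nlinarith
  have h2 : ∀ n, (rnd fun x => p x.length).real {A | A (List.replicate n false) ≠ lik (p n)} ≤
      (q.eval n : ℕ) / 2 ^ n := by
    intro n
    have e1 : {A : Orc | A (List.replicate n false) ≠ lik (p n)} =
        {A | A (List.replicate n false) = !(lik (p n))} := by
      ext A
      rw [Set.mem_ofPred_eq, Set.mem_ofPred_eq]
      cases A (List.replicate n false) <;> cases lik (p n) <;> simp
    rw [e1, rnd_one (fun x => p x.length), List.length_replicate, w_lik,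
      le_div_iff₀ (by positivity), mul_comm]
    exact hq n
  have h3 : ∀ᶠ n in atTop, ‖(rnd fun x => p x.length).real (s n)‖ ≤
      2 * (1 / ((n : ℝ) + 1) ^ 2) := by
    filter_upwards [Pool.Agent.H622R2.Exp.E0.poly_le
      ((Polynomial.X + Polynomial.C 1) ^ 2 * q) 1] with n hn
    simp only [Polynomial.eval_mul, Polynomial.eval_pow, Polynomial.eval_add, Polynomial.eval_X,
      Polynomial.eval_C, one_mul] at hn
    rw [Real.norm_of_nonneg measureReal_nonneg]
    have e1 : (rnd fun x => p x.length).real (s n) ≤ 1 / ((n : ℝ) + 1) ^ 2 +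
        (q.eval n : ℕ) / 2 ^ n :=
      (measureReal_union_le _ _).trans (add_le_add (h1 n) (h2 n))
    have e2 : ((q.eval n : ℕ) : ℝ) / 2 ^ n ≤ 1 / ((n : ℝ) + 1) ^ 2 := by
      rw [div_le_div_iff₀ (by positivity) (by positivity)]
      have : (((n + 1) ^ 2 * q.eval n : ℕ) : ℝ) ≤ ((2 ^ n : ℕ) : ℝ) := by exact_mod_cast hn
      push_cast at this
      linarith
    linarith
  have h4 : Summable fun n : ℕ => 2 * (1 / ((n : ℝ) + 1) ^ 2) := by
    refine Summable.mul_left 2 ?_
    have e1 := (summable_nat_add_iff 1).2 (Real.summable_one_div_nat_pow.2 one_lt_two)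
    exact_mod_cast e1
  have h5 : Summable fun n => (rnd fun x => p x.length).real (s n) :=
    Summable.of_norm_bounded_eventually_nat h4 h3
  have h6 : ∑' n, (rnd fun x => p x.length) (s n) ≠ ∞ := by
    have e1 : ∀ n, (rnd fun x => p x.length) (s n) =
        ENNReal.ofReal ((rnd fun x => p x.length).real (s n)) := fun n =>
      (ofReal_measureReal).symm
    simp only [e1]
    rw [← ENNReal.ofReal_tsum_of_nonneg (fun n => measureReal_nonneg) h5]
    exact ENNReal.ofReal_ne_top
  filter_upwards [ae_eventually_notMem h6] with A hA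
  obtain ⟨N, hN⟩ := eventually_atTop.1 hA
  refine ⟨(Polynomial.X + Polynomial.C 1) * (Polynomial.C (2 ^ N) +
    (Polynomial.X + Polynomial.C 1) ^ 2 * (q + Polynomial.C 1)), fun b => ?_⟩
  simp only [Polynomial.eval_mul, Polynomial.eval_pow, Polynomial.eval_add, Polynomial.eval_X,
      Polynomial.eval_C]
  have h7 : exc A b ⊆ (range (b + 1)).biUnion fun m => (strs m).filter fun z => A z ≠ dft A z := by
    intro z hz
    rw [exc, mem_filter, mem_short] at hz
    rw [mem_biUnion]
    exact ⟨z.length, mem_range.2 (by omega), mem_filter.2 ⟨mem_strs.2 rfl, hz.2⟩⟩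
  refine (card_le_card h7).trans (card_biUnion_le.trans ?_)
  have h8 : ∀ m ∈ range (b + 1), ((strs m).filter fun z => A z ≠ dft A z).card ≤
      2 ^ N + (b + 1) ^ 2 * (q.eval b + 1) := by
    intro m hm
    rw [mem_range] at hm
    by_cases hmN : N ≤ m
    · have e1 := hN m hmN
      simp only [hs, Set.mem_union, not_or, Set.mem_ofPred_eq, not_le, not_not] at e1
      have e2 : ((strs m).filter fun z => A z ≠ dft A z) =
          (strs m).filter fun z => A z ≠ lik (p m) := by
        refine filter_congr fun z hz => ?_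
        unfold dft
        rw [mem_strs.1 hz, e1.2]
      rw [e2]
      refine e1.1.le.trans (le_trans ?_ (Nat.le_add_left _ _))
      simp only [hc]
      exact Nat.mul_le_mul (Nat.pow_le_pow_left (by omega) 2)
        (Nat.add_le_add_right (eval_mono q (by omega)) 1)
    · refine (card_filter_le _ _).trans ?_
      rw [card_strs]
      exact (Nat.pow_le_pow_right two_pos (by omega)).trans (Nat.le_add_right _ _)
  refine (sum_le_sum h8).trans ?_
  rw [sum_const, card_range, smul_eq_mul]

theorem easy_ps : ∃ O : Oracle, ∀ p : ℕ → unitInterval,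
    (∃ q : Polynomial ℕ, ∀ n, 2 ^ n * min (p n : ℝ) (1 - p n) ≤ q.eval n) →
    ∀ᵐ A ∂(rnd fun x => p x.length), ∀ L : Set (List Bool),
      IsPSPACE (join O A) L → IsPP (join O A) L := by
  obtain ⟨O, hO⟩ := sparse_pp
  refine ⟨O, fun p hp => ?_⟩
  filter_upwards [ae_sparse hp] with A hA
  exact hO A hA

end Pool.Agent.H20RD
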