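import Pool.Agent.H20RD.Adv

/-!
# Random oracles of every density: the hard side
-/

set_option autoImplicit false

namespace Pool.Agent.H20RD

open Pool.Agent.NPC Pool.Agent.H622R2 Pool.Agent.H620R2.Gauge Pool.Agent.H9x.Q MeasureTheory

theorem split_summable {p : ℕ → unitInterval}
    (h : ¬ Summable fun n => 2 ^ n * min (p n : ℝ) (1 - p n)) :
    ∃ β, ¬ Summable fun n => if w β (p n) ≤ 1 / 2 then 2 ^ n * w β (p n) else 0 := by
  by_contra hc
  push Not at hc
  apply h
  refine Summable.of_nonneg_of_le (fun n => ?_) (fun n => ?_) ((hc true).add (hc false))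
  · have h1 := w_nonneg true (p n)
    have h2 := w_nonneg false (p n)
    simp only [w, if_true, Bool.false_eq_true, if_false] at h1 h2
    exact mul_nonneg (by positivity) (le_min h1 h2)
  · have h1 := w_nonneg true (p n)
    have h2 := w_nonneg false (p n)
    have h3 : (0 : ℝ) < 2 ^ n := by positivity
    simp only [w, if_true, Bool.false_eq_true, if_false] at h1 h2 ⊢
    rcases le_total (p n : ℝ) (1 / 2) with h4 | h4
    · rw [if_pos h4, min_eq_left (by linarith)]
      have : 0 ≤ (if 1 - (p n : ℝ) ≤ 1 / 2 then 2 ^ n * (1 - (p n : ℝ)) else 0) := by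
        split_ifs <;> positivity
      linarith
    · rw [if_pos (show 1 - (p n : ℝ) ≤ 1 / 2 by linarith), min_eq_right (by linarith)]
      have : 0 ≤ (if (p n : ℝ) ≤ 1 / 2 then 2 ^ n * (p n : ℝ) else 0) := by
        split_ifs <;> positivity
      linarith

theorem hard (O : Oracle) (p : ℕ → unitInterval)
    (h : ¬ Summable fun n => 2 ^ n * min (p n : ℝ) (1 - p n)) :
    ∀ᵐ A ∂(rnd fun x => p x.length), ∃ L : Set (List Bool), IsNP (join O A) L ∧
      ¬ IsBQP (join O A) L ∧ ¬ IsBQSub (join O A) L ∧ ¬ IsQMA (join O A) Lᶜ ∧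
      ¬ IsNP (join O A) Lᶜ := by
  obtain ⟨β, hβ⟩ := split_summable h
  have : Countable QFamily := QFamily.countable
  have : Countable (Polynomial ℕ) := CC.poly_countable
  have : Countable Alg := Alg.countable
  filter_upwards [ae_fail kind_bqp O β p hβ, ae_fail kind_qma O β p hβ,
    ae_fail kind_np O β p hβ, ae_adv O β p hβ] with A h1 h2 h3 h4
  refine ⟨LangQ β A, isNP_langQ β O A, ?_, h4, ?_, ?_⟩
  · rintro ⟨F, hF⟩
    exact h1 F hF
  · rintro ⟨F, k, hF⟩
    refine h2 (F, k) fun x => ⟨fun hx => (hF x).1 hx, fun hx => (hF x).2 fun h => h hx⟩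
  · rintro ⟨V, q, ⟨M, hM⟩, hV⟩
    refine h3 (M, q) fun x => ?_
    have h4 := hV x
    rw [Set.mem_compl_iff] at h4
    rw [h4]
    simp only [hM, Option.some.injEq]

end Pool.Agent.H20RD
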