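import Pool.Agent.H620R2.Gauge.Defs
import Mathlib.Data.Set.Card

/-!
# `PP`, and nondeterministic time `2 ^ O(t n)`, relative to an oracle
-/

set_option autoImplicit false

namespace Pool.Agent.H20RD

open Pool.Agent.NPC Pool.Agent.H620R2.Gauge

/-- The language `L` is in `PP` relative to `A`: there are a predicate in `P` relative to `A` and a
polynomial `p` such that `x` is in `L` if and only if more than half of the strings `w` of length
`p |x|` have the property that the predicate is true for `⟨w, x⟩`. -/
def IsPP (A : Oracle) (L : Set (List Bool)) : Prop :=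
  ∃ (V : List Bool → List Bool) (p : Polynomial ℕ), IsFP A V ∧ ∀ x : List Bool, x ∈ L ↔
    2 ^ p.eval x.length <
      2 * {w : List Bool | w.length = p.eval x.length ∧ V (pairBits w x) = [true]}.ncard

/-- The input `x` padded with `2 ^ t |x|` ones. -/
def padT (t : ℕ → ℕ) (x : List Bool) : List Bool :=
  pairBits x (List.replicate (2 ^ t x.length) true)

/-- The language `L` is decided in nondeterministic time `2 ^ O(t n)` relative to `A`:
nondeterministic polynomial time suffices for the padded inputs. -/
def IsNTime (t : ℕ → ℕ) (A : Oracle) (L : Set (List Bool)) : Prop :=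
  ∃ (V : List Bool → List Bool) (p : Polynomial ℕ), IsFP A V ∧ ∀ x : List Bool,
    x ∈ L ↔ ∃ w : List Bool, w.length ≤ p.eval (padT t x).length ∧
      V (pairBits w (padT t x)) = [true]

end Pool.Agent.H20RD
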