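import Pool.Agent.H20RD.Easy
import Pool.Agent.H20RD.PDefs
import Pool.Agent.H620R2.Gauge.A1

/-!
# Sparse random oracles and `PP`
-/

set_option autoImplicit false

namespace Pool.Agent.H20RD

open Pool.Agent.NPC Pool.Agent.H622R2 Pool.Agent.H620R2.Gauge MeasureTheory

/-- more than half of the strings are accepted -/
def PPacc (M : Alg) (p : Polynomial ℕ) (A : Oracle) (x : List Bool) : Prop :=
  2 ^ p.eval x.length < 2 * {w : List Bool | w.length = p.eval x.length ∧
    M.out A (pairBits w x) = some [true]}.ncard

theorem ppacc_local (M : Alg) (p : Polynomial ℕ) : ∃ b : Polynomial ℕ, ∀ (A A' : Oracle)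
    (x : List Bool), (∀ y : List Bool, y.length ≤ b.eval x.length → A y = A' y) →
      (PPacc M p A x ↔ PPacc M p A' x) := by
  obtain ⟨qb, hqb⟩ := M.out_local
  refine ⟨qb.comp (Polynomial.C 2 * p + Polynomial.C 1 + Polynomial.X), fun A A' x h => ?_⟩
  have key : ∀ v : List Bool, v.length = p.eval x.length →
      M.out A' (pairBits v x) = M.out A (pairBits v x) := by
    intro v hv
    obtain ⟨Q, _, h2, h3⟩ := hqb A (pairBits v x)
    refine h3 A' fun y hy => (h y ?_).symm
    refine (h2 y hy).trans ?_
    rw [Polynomial.eval_comp]
    apply eval_mono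
    rw [length_pairBits]
    simp only [Polynomial.eval_add, Polynomial.eval_mul, Polynomial.eval_C, Polynomial.eval_X]
    omega
  unfold PPacc
  have hs : {w : List Bool | w.length = p.eval x.length ∧ M.out A (pairBits w x) = some [true]} =
      {w : List Bool | w.length = p.eval x.length ∧ M.out A' (pairBits w x) = some [true]} := by
    ext w
    simp only [Set.mem_ofPred_eq]
    constructor
    · rintro ⟨h1, h2⟩
      exact ⟨h1, by rw [key w h1]; exact h2⟩
    · rintro ⟨h1, h2⟩
      exact ⟨h1, by rw [← key w h1]; exact h2⟩
  rw [hs]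

theorem isPP_iff {A : Oracle} {L : Set (List Bool)} :
    IsPP A L ↔ ∃ (V : List Bool → List Bool) (M : Alg) (p : Polynomial ℕ),
      (∀ x, M.out A x = some (V x)) ∧ ∀ x, x ∈ L ↔ PPacc M p A x := by
  constructor
  · rintro ⟨V, p, ⟨M, hM⟩, h⟩
    refine ⟨V, M, p, hM, fun x => ?_⟩
    rw [h x, PPacc]
    simp only [hM, Option.some.injEq]
  · rintro ⟨V, M, p, hM, h⟩
    refine ⟨V, p, ⟨M, hM⟩, fun x => ?_⟩
    rw [h x, PPacc]
    simp only [hM, Option.some.injEq]

theorem IsFP.of_map {g : List Bool → List Bool} (hg : Poly g) {A : Oracle}
    {V : List Bool → List Bool} (h : IsFP (fun y => A (g y)) V) : IsFP A V := by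
  obtain ⟨M, hM⟩ := h
  refine ⟨TH678.PN.mapAlg hg M, fun x => ?_⟩
  unfold Alg.out
  rw [TH678.PN.mapAlg_run]
  exact hM x

theorem IsPP.of_map {g : List Bool → List Bool} (hg : Poly g) {A : Oracle}
    {L : Set (List Bool)} (h : IsPP (fun y => A (g y)) L) : IsPP A L := by
  obtain ⟨V, p, hV, h⟩ := h
  exact ⟨V, p, IsFP.of_map hg hV, h⟩

theorem collapse_pp {O A D : Oracle} (hO : O [] = true) (h : {x | A x ≠ D x}.Finite)
    (hD : ∀ L, IsPP (join O D) L → IsP (join O D) L) (L : Set (List Bool))
    (hL : IsPP (join O A) L) : IsP (join O A) L := by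
  obtain ⟨g, hg, hg2⟩ := exists_map (join_finite (O := O) h) (u := []) (v := [false]) rfl hO
  have h' : {x | D x ≠ A x}.Finite := by
    simpa only [ne_comm] using h
  obtain ⟨g', hg', hg2'⟩ := exists_map (join_finite (O := O) h') (u := []) (v := [false]) rfl hO
  rw [hg2] at hL
  have h1 := hD L (IsPP.of_map hg hL)
  rw [hg2'] at h1
  exact TH678.PN.IsP.of_map hg' h1

/-- There is an oracle which makes `PP` equal to `P` relative to its join with any oracle that
depends on the length only. -/
theorem exists_oracle_pp : ∃ O : Oracle, O [] = true ∧ ∀ d : ℕ → Bool, ∀ L,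
    IsPP (join O fun z => d z.length) L → IsP (join O fun z => d z.length) L := by
  have hne : Nonempty Alg := ⟨⟨_, CC.const_polyTime [], 0⟩⟩
  have hc := CC.poly_countable
  obtain ⟨g, hg⟩ := exists_surjective_nat (Alg × Polynomial ℕ)
  choose bd hbd using ppacc_local
  set R : ℕ → Polynomial ℕ := fun e => bd (g e).1 (g e).2 with hR
  let V : ℕ → Oracle → List Bool → Prop := fun e A y =>
    PPacc (g e).1 (g e).2 (CC.cut ((bd (g e).1 (g e).2).eval (unpair y).2.length)
      (join A (tab (unpair y).1))) (unpair y).2
  have hV : ∀ e A A' y, (∀ z : List Bool, z.length < (code R e y).length → A z = A' z) →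
      (V e A y ↔ V e A' y) := by
    intro e A A' y h
    have hcut : CC.cut ((bd (g e).1 (g e).2).eval (unpair y).2.length)
        (join A (tab (unpair y).1)) = CC.cut ((bd (g e).1 (g e).2).eval (unpair y).2.length)
        (join A' (tab (unpair y).1)) := by
      funext z
      unfold CC.cut
      split_ifs with hz
      · rcases z with _ | ⟨c, z⟩
        · rfl
        · cases c with
          | true => rfl
          | false =>
            change A z = A' z
            apply h
            have h1 := CC.lt_length_code R e y
            have h2 := eval_mono (bd (g e).1 (g e).2) (length_unpair_snd y)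
            rw [List.length_cons] at hz
            change (bd (g e).1 (g e).2).eval y.length < _ at h1
            omega
      · rfl
    change PPacc _ _ _ _ ↔ PPacc _ _ _ _
    rw [hcut]
  refine ⟨CC.Phi R V fun _ => true, ?_, fun d L hL => ?_⟩
  · rw [CC.Phi_not]
    intro e x h
    have h1 := CC.lt_length_code R e x
    rw [← h] at h1
    simp at h1
  · set O := CC.Phi R V fun _ => true with hO
    set D : Oracle := fun z => d z.length with hD
    obtain ⟨V', M, p, _, hM⟩ := isPP_iff.1 hL
    obtain ⟨e, he⟩ := hg (M, p)
    set b := bd M p with hb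
    let h : List Bool → List Bool := fun x => (List.range (b.eval x.length + 1)).map d
    have hF1 : IsFP (join O D) h := by
      have h1 := IsFP.tt (A := join O D)
        (Q := fun x => (List.range (b.eval x.length + 1)).map fun i =>
          true :: List.replicate (min i (b.eval x.length)) false)
        (H := fun y => y.2) ?_ (Poly.snd Poly.id)
      · convert h1 using 2 with x
        simp only [h, List.map_map]
        refine List.map_congr_left fun i hi => ?_
        rw [List.mem_range] at hi
        simp only [Function.comp_apply, join, hD, List.length_replicate]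
        rw [min_eq_left (by omega)]
      · have hx : UPoly (fun x : List Bool => b.eval x.length) :=
          (UPoly.length Poly.id).eval b
        refine NPC.Poly.map (UPoly.add hx (UPoly.const 1)).range
          (F := fun x i => true :: List.replicate (min i (b.eval x.length)) false) ?_
        have hx' : UPoly (fun p : List Bool × ℕ => b.eval p.1.length) :=
          (UPoly.length (Poly.fst Poly.id)).eval b
        exact Poly.cons (NPC.Poly.const true) (poly_rep false (UPoly.of_le
          (Poly.min (Poly.snd Poly.id) hx'.toPoly) hx' fun p => min_le_right _ _))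
    have hF2 : IsFP (join O D) (fun y => [join O D (false :: code R e y)]) :=
      IsFP.tt (A := join O D) (Q := fun y => [false :: code R e y]) (H := fun y => y.2)
        (Poly.cons (Poly.cons (NPC.Poly.const false) (CC.poly_code R e)) (NPC.Poly.const []))
        (Poly.snd Poly.id)
    refine ⟨_, IsFP.seq (φ := fun p => pairBits p.2 p.1) (ψ := fun p => p.2.2) hF1 hF2
      (poly_pairBits (Poly.snd Poly.id) (Poly.fst Poly.id)) (Poly.snd (Poly.snd Poly.id)),
      fun x => ?_⟩
    change x ∈ L ↔ [O (code R e (pairBits (h x) x))] = [true]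
    rw [List.cons.injEq, and_iff_left rfl, hO, CC.Phi_code R V _ hV e, hM x]
    change _ ↔ PPacc (g e).1 (g e).2 (CC.cut ((bd (g e).1 (g e).2).eval
      (unpair (pairBits (h x) x)).2.length) (join O (tab (unpair (pairBits (h x) x)).1)))
      (unpair (pairBits (h x) x)).2
    rw [unpair_pairBits, he]
    refine hbd M p _ _ x fun z hz => ?_
    unfold CC.cut
    rw [if_pos hz]
    rcases z with _ | ⟨c, z⟩
    · rfl
    · cases c with
      | false => rfl
      | true =>
        change d z.length = (h x).getD z.length false
        have hz' : z.length + 1 ≤ b.eval x.length := by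
          rw [List.length_cons] at hz
          exact hz
        simp only [h]
        rw [List.getD_eq_getElem _ _ (by simp; omega)]
        simp

theorem easy_pp : ∃ O : Oracle, ∀ p : ℕ → unitInterval,
    Summable (fun n => 2 ^ n * min (p n : ℝ) (1 - p n)) →
    ∀ᵐ A ∂(rnd fun x => p x.length), ∀ L : Set (List Bool),
      IsPP (join O A) L → IsP (join O A) L := by
  obtain ⟨O, hO, h⟩ := exists_oracle_pp
  refine ⟨O, fun p hp => ?_⟩
  filter_upwards [ae_finite hp] with A hA L hL
  exact collapse_pp hO hA (h fun n => lik (p n)) L hL

end Pool.Agent.H20RD
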