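import Pool.Agent.H20RD.Dec
import Pool.Agent.H620R2.Gauge.Upper

/-!
# A language in `PP` containing a language in `NP` and its complement
-/

set_option autoImplicit false

namespace Pool.Agent.H20RD

open Pool.Agent.NPC Pool.Agent.H622R2 Pool.Agent.H620R2.Gauge

/-- `L` and its complement together -/
def tagL (L : Set (List Bool)) : Set (List Bool) :=
  {y | (∃ x, y = false :: x ∧ x ∈ L) ∨ ∃ x, y = true :: x ∧ x ∉ L}

/-- the decision, as a function of the string `⟨w, y⟩` and of the answer -/
def decide1 (p : Polynomial ℕ) (z v : List Bool) : Bool :=
  if (unpair z).2 = [] then (unpair z).1.getD 1 false else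
  if (unpair z).1.getD 0 false then (unpair z).1.getD 1 false ||
    ((unpair z).2.getD 0 false &&
      decide ((unpair z).1.tail.tail = List.replicate (2 * p.eval (unpair z).2.length) false)) else
  if (unpair z).2.getD 0 false then
    !(decide ((dec (p.eval (unpair z).2.length) 0 (unpair z).1.tail.tail).length ≤
      p.eval (unpair z).2.tail.length) && decide (v = [true])) && (unpair z).1.getD 1 false else
  (decide ((dec (p.eval (unpair z).2.length) 0 (unpair z).1.tail.tail).length ≤
      p.eval (unpair z).2.tail.length) && decide (v = [true])) || (unpair z).1.getD 1 false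

section
variable {α : Type} [TEnc α]

theorem poly_and {f g : α → Bool} (hf : Poly f) (hg : Poly g) : Poly fun a => f a && g a :=
  (Poly.cond hf hg (NPC.Poly.const false)).congr fun a => by cases f a <;> rfl

theorem poly_or {f g : α → Bool} (hf : Poly f) (hg : Poly g) : Poly fun a => f a || g a :=
  (Poly.cond hf (NPC.Poly.const true) hg).congr fun a => by cases f a <;> rfl

theorem poly_if {c f g : α → Bool} (hc : Poly c) (hf : Poly f) (hg : Poly g) :
    Poly fun a => if c a then f a else g a :=
  (Poly.cond hc hf hg).congr fun a => by cases c a <;> rfl

end

theorem poly_decide1 (p : Polynomial ℕ) :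
    Poly fun q : List Bool × List Bool => decide1 p q.1 q.2 := by
  have hz : Poly fun q : List Bool × List Bool => unpair q.1 := poly_unpair.comp (Poly.fst Poly.id)
  have hv : Poly fun q : List Bool × List Bool => q.2 := Poly.snd Poly.id
  have h1 := Poly.fst hz
  have h2 := Poly.snd hz
  have g0 : ∀ n : ℕ, Poly fun q : List Bool × List Bool => (unpair q.1).1.getD n false := fun n =>
    Poly.getD (d := fun _ => false) h1 (NPC.Poly.const n) (NPC.Poly.const false)
  have k0 : Poly fun q : List Bool × List Bool => (unpair q.1).2.getD 0 false :=
    Poly.getD (d := fun _ => false) h2 (NPC.Poly.const 0) (NPC.Poly.const false)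
  have hb : UPoly fun q : List Bool × List Bool => p.eval (unpair q.1).2.length :=
    (UPoly.length h2).eval p
  have ht : Poly fun q : List Bool × List Bool => (unpair q.1).1.tail.tail :=
    Poly.tail (Poly.tail h1)
  have hd : Poly fun q : List Bool × List Bool =>
      dec (p.eval (unpair q.1).2.length) 0 (unpair q.1).1.tail.tail :=
    poly_dec hb (UPoly.const 0) ht
  have hw : Poly fun q : List Bool × List Bool =>
      decide ((dec (p.eval (unpair q.1).2.length) 0 (unpair q.1).1.tail.tail).length ≤
        p.eval (unpair q.1).2.tail.length) && decide (q.2 = [true]) :=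
    poly_and (Poly.decide_le (UPoly.length hd).toPoly
      ((UPoly.length (Poly.tail h2)).eval p).toPoly) (Poly.decide_eq hv (NPC.Poly.const _))
  have hr : Poly fun q : List Bool × List Bool =>
      List.replicate (2 * p.eval (unpair q.1).2.length) false :=
    poly_rep false (UPoly.mul (UPoly.const 2) hb)
  refine Poly.ite (Poly.decide_eq h2 (NPC.Poly.const [])) (g0 1) ?_
  refine poly_if (g0 0) (poly_or (g0 1) (poly_and k0 (Poly.decide_eq ht hr))) ?_
  exact poly_if k0 (poly_and (Poly.not hw) (g0 1)) (poly_or hw (g0 1))

theorem isPP_tag {A : Oracle} {L : Set (List Bool)} (h : IsNP A L) : IsPP A (tagL L) := by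
  classical
  obtain ⟨V, p, hV, hx⟩ := h
  set g : List Bool → List Bool := fun z =>
    pairBits (dec (p.eval (unpair z).2.length) 0 (unpair z).1.tail.tail) (unpair z).2.tail with hg
  have hgp : Poly g := by
    have h1 : Poly fun z => (unpair z).1 := Poly.fst poly_unpair
    have h2 : Poly fun z => (unpair z).2 := Poly.snd poly_unpair
    exact poly_pairBits (poly_dec ((UPoly.length h2).eval p) (UPoly.const 0)
      (Poly.tail (Poly.tail h1))) (Poly.tail h2)
  have hfp : IsFP A fun z => [decide1 p z (V (g z))] :=
    IsFP.seq (φ := fun p => p.1) (ψ := fun q => [decide1 p q.1 q.2.1]) (hV.precomp hgp)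
      (IsFP.of_poly Poly.id) (Poly.fst Poly.id)
      (Poly.cons ((poly_decide1 p).comp (Poly.pair (Poly.fst Poly.id)
        (Poly.fst (Poly.snd Poly.id)))) (NPC.Poly.const []))
  refine ⟨_, Polynomial.C 2 * p + Polynomial.C 2, hfp, fun y => ?_⟩
  set m := 2 * p.eval y.length with hm
  have hq : (Polynomial.C 2 * p + Polynomial.C 2 : Polynomial ℕ).eval y.length = m + 1 + 1 := by
    simp [hm]
  rw [hq, ncard_eq, card_filter_succ, card_filter_succ, card_filter_succ]
  have hs : (strs m).card = 2 ^ m := card_strs m
  rcases y with _ | ⟨c, x⟩
  · -- the empty input
    have e0 : ([] : List Bool) ∉ tagL L := by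
      rintro (⟨x, h, _⟩ | ⟨x, h, _⟩) <;> simp at h
    have e1 : ∀ c w, [decide1 p (pairBits (c :: false :: w) []) (V (g (pairBits (c :: false :: w)
        [])))] = [true] ↔ False := fun c w => by simp [decide1, unpair_pairBits]
    have e2 : ∀ c w, [decide1 p (pairBits (c :: true :: w) []) (V (g (pairBits (c :: true :: w)
        [])))] = [true] ↔ True := fun c w => by simp [decide1, unpair_pairBits]
    simp only [e0, e1, e2, Finset.filter_false, Finset.filter_true, Finset.card_empty, hs,
      false_iff]
    rw [pow_succ, pow_succ]
    omega
  · -- good witnesses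
    set G : List Bool → Prop := fun w => (dec (p.eval (c :: x).length) 0 w).length ≤ p.eval x.length ∧
      V (pairBits (dec (p.eval (c :: x).length) 0 w) x) = [true] with hG
    have hgood : ((strs m).filter G).Nonempty ↔ x ∈ L := by
      rw [hx x]
      constructor
      · rintro ⟨w, hw⟩
        exact ⟨_, (Finset.mem_filter.1 hw).2⟩
      · rintro ⟨u, hu, hu2⟩
        have h3 : u.length ≤ p.eval (c :: x).length := hu.trans (eval_mono p (by simp))
        obtain ⟨w, hw, hw2⟩ := exists_dec h3
        exact ⟨w, Finset.mem_filter.2 ⟨mem_strs.2 hw, by rw [hG]; simp only [hw2]; exact ⟨hu, hu2⟩⟩⟩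
    have hgw : ∀ a b w, g (pairBits (a :: b :: w) (c :: x)) =
        pairBits (dec (p.eval (c :: x).length) 0 w) x := fun a b w => by
      simp [hg, unpair_pairBits]
    have hGd : ∀ w, (decide ((dec (p.eval (c :: x).length) 0 w).length ≤ p.eval x.length) &&
        decide (V (pairBits (dec (p.eval (c :: x).length) 0 w) x) = [true])) = decide (G w) :=
      fun w => (Bool.decide_and _ _).symm
    have hsum := Finset.card_filter_add_card_filter_not (s := strs m) G
    rw [hs] at hsum
    cases c with
    | false =>
      have e0 : false :: x ∈ tagL L ↔ x ∈ L := by
        constructor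
        · rintro (⟨x', h, h2⟩ | ⟨x', h, h2⟩)
          · rw [List.cons.injEq] at h
            rw [h.2]
            exact h2
          · simp at h
        · exact fun h => Or.inl ⟨x, rfl, h⟩
      have e1 : ∀ w, [decide1 p (pairBits (false :: false :: w) (false :: x))
          (V (g (pairBits (false :: false :: w) (false :: x))))] = [true] ↔ G w := fun w => by
        rw [hgw]
        simp only [decide1, unpair_pairBits, List.cons_ne_nil, if_false, List.getD_cons_zero,
          Bool.false_eq_true, List.tail_cons, List.getD_cons_succ, hGd]
        simp
      have e2 : ∀ w, [decide1 p (pairBits (false :: true :: w) (false :: x))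
          (V (g (pairBits (false :: true :: w) (false :: x))))] = [true] ↔ True := fun w => by
        rw [hgw]
        simp only [decide1, unpair_pairBits, List.cons_ne_nil, if_false, List.getD_cons_zero,
          Bool.false_eq_true, List.tail_cons, List.getD_cons_succ, hGd]
        simp
      have e3 : ∀ w, [decide1 p (pairBits (true :: false :: w) (false :: x))
          (V (g (pairBits (true :: false :: w) (false :: x))))] = [true] ↔ False := fun w => by
        rw [hgw]
        simp only [decide1, unpair_pairBits, List.cons_ne_nil, if_false, List.getD_cons_zero,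
          List.tail_cons, List.getD_cons_succ, hGd]
        simp
      have e4 : ∀ w, [decide1 p (pairBits (true :: true :: w) (false :: x))
          (V (g (pairBits (true :: true :: w) (false :: x))))] = [true] ↔ True := fun w => by
        rw [hgw]
        simp only [decide1, unpair_pairBits, List.cons_ne_nil, if_false, List.getD_cons_zero,
          List.tail_cons, List.getD_cons_succ, hGd]
        simp
      simp only [e0, e1, e2, e3, e4, Finset.filter_false, Finset.filter_true, Finset.card_empty, hs]
      have hfe : ((strs m).filter fun x => G x).card = ((strs m).filter G).card := by congr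
      rw [← hgood, ← Finset.card_pos, pow_succ, pow_succ]
      omega
    | true =>
      have e0 : true :: x ∈ tagL L ↔ x ∉ L := by
        constructor
        · rintro (⟨x', h, h2⟩ | ⟨x', h, h2⟩)
          · simp at h
          · rw [List.cons.injEq] at h
            rw [h.2]
            exact h2
        · exact fun h => Or.inr ⟨x, rfl, h⟩
      have e1 : ∀ w, [decide1 p (pairBits (false :: false :: w) (true :: x))
          (V (g (pairBits (false :: false :: w) (true :: x))))] = [true] ↔ False := fun w => by
        rw [hgw]
        simp only [decide1, unpair_pairBits, List.cons_ne_nil, if_false, List.getD_cons_zero,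
          Bool.false_eq_true, List.tail_cons, List.getD_cons_succ, hGd]
        simp
      have e2 : ∀ w, [decide1 p (pairBits (false :: true :: w) (true :: x))
          (V (g (pairBits (false :: true :: w) (true :: x))))] = [true] ↔ ¬ G w := fun w => by
        rw [hgw]
        simp only [decide1, unpair_pairBits, List.cons_ne_nil, if_false, List.getD_cons_zero,
          Bool.false_eq_true, List.tail_cons, List.getD_cons_succ, hGd]
        simp
      have e3 : ∀ w, [decide1 p (pairBits (true :: false :: w) (true :: x))
          (V (g (pairBits (true :: false :: w) (true :: x))))] = [true] ↔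
          w = List.replicate m false := fun w => by
        rw [hgw]
        simp only [decide1, unpair_pairBits, List.cons_ne_nil, if_false, List.getD_cons_zero,
          List.tail_cons, List.getD_cons_succ, hGd]
        simp [hm]
      have e4 : ∀ w, [decide1 p (pairBits (true :: true :: w) (true :: x))
          (V (g (pairBits (true :: true :: w) (true :: x))))] = [true] ↔ True := fun w => by
        rw [hgw]
        simp only [decide1, unpair_pairBits, List.cons_ne_nil, if_false, List.getD_cons_zero,
          List.tail_cons, List.getD_cons_succ, hGd]
        simp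
      have e5 : ((strs m).filter fun w => w = List.replicate m false).card = 1 := by
        rw [Finset.card_eq_one]
        refine ⟨List.replicate m false, ?_⟩
        ext w
        simp only [Finset.mem_filter, mem_strs, Finset.mem_singleton]
        constructor
        · exact fun h => h.2
        · rintro rfl
          simp
      simp only [e0, e1, e2, e3, e4, Finset.filter_false, Finset.filter_true, Finset.card_empty, hs,
        e5]
      rw [← hgood, ← Finset.card_pos, pow_succ, pow_succ]
      omega

end Pool.Agent.H20RD
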