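import Pool.Agent.H20RD.Adv
import Pool.Agent.H20RD.Tag

/-!
# Kinds of machines with large running times
-/

set_option autoImplicit false

namespace Pool.Agent.H20RD

open Pool.Agent.NPC Pool.Agent.H622R2 Pool.Agent.H620R2.Gauge Pool.Agent.H9x.Q MeasureTheory Filter
  Asymptotics

/-- small bounds -/
def Slow (r : ℕ → ℕ) : Prop :=
  ∀ c, ∀ᶠ n in atTop, ∀ m, n ≤ m → m ≤ 3 * n + c → 128 * (1 + n * r m) ≤ 2 ^ (n / 4)

/-- A kind of machines, with bounds that need not be polynomial. -/
structure KindG (ι : Type) (Ok : ι → Oracle → List Bool → Prop → Prop) : Prop where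
  loc : ∀ i, ∃ B : ℕ → ℕ, ∀ x A A', (∀ y : List Bool, y.length ≤ B x.length →
    A y = A' y) → ∀ b, Ok i A x b → Ok i A' x b
  few : ∀ i, ∃ r : ℕ → ℕ, Slow r ∧ ∀ x A, Ok i A x False → ∀ (P : Finset (List Bool))
    (F : List Bool → Oracle), (∀ t ∈ P, ∀ t' ∈ P, ∀ y, F t y ≠ A y → F t' y ≠ A y → t = t') →
    (∀ t ∈ P, Ok i (F t) x True) → P.card ≤ r x.length

/-- the machines are started on other inputs -/
theorem Kind.comap {ι : Type} {Ok : ι → Oracle → List Bool → Prop → Prop} (hK : Kind ι Ok)
    (g : List Bool → List Bool) (G : ℕ → ℕ) (hg : ∀ x, (g x).length = G x.length)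
    (hG : ∀ r : Polynomial ℕ, Slow fun m => r.eval (G m)) :
    KindG ι fun i A x b => Ok i A (g x) b := by
  constructor
  · intro i
    obtain ⟨B, hB⟩ := hK.loc i
    refine ⟨fun m => B.eval (G m), fun x A A' h b hb => ?_⟩
    refine hB (g x) A A' (fun y hy => h y ?_) b hb
    rwa [hg] at hy
  · intro i
    obtain ⟨r, hr⟩ := hK.few i
    refine ⟨fun m => r.eval (G m), hG r, fun x A hA P F h1 h2 => ?_⟩
    have := hr (g x) A hA P F h1 h2
    rwa [hg] at this

/-- **Random oracles of every density are hard for all kinds of machines.** -/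
theorem ae_failG {ι : Type} [Countable ι] {Ok : ι → Oracle → List Bool → Prop → Prop}
    (hK : KindG ι Ok) (O : Oracle) (β : Bool) (p : ℕ → unitInterval)
    (hs : ¬ Summable fun n => if w β (p n) ≤ 1 / 2 then 2 ^ n * w β (p n) else 0) :
    ∀ᵐ A ∂(rnd fun x => p x.length), ∀ i, ¬ ∀ x, Ok i (join O A) x (x ∈ LangQ β A) := by
  classical
  rw [ae_all_iff]
  intro e
  obtain ⟨j, k, hjk, hbl⟩ := blocks β p hs
  obtain ⟨B, hB⟩ := hK.loc e
  obtain ⟨r, hr0, hr⟩ := hK.few e
  set m : ℕ → ℕ := fun n => n - j n - k n with hm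
  set X : ℕ → ℕ → List Bool := fun n l => inq l (j n) (k n) (m n) with hX
  have hmn : ∀ n, m n ≤ n := fun n => by simp only [hm]; omega
  set Ln : ℕ → ℕ := fun n => 2 * (j n + k n) + 3 * m n + 4 with hLn
  have hXl : ∀ n, ∀ l < m n, (X n l).length = Ln n := fun n l hl => length_inq hl.le
  have hL1 : ∀ n, Ln n ≤ 3 * n + 4 := fun n => by
    have := hjk n
    simp only [hLn, hm]
    omega
  have hL2 : ∀ n, n ≤ Ln n := fun n => by
    have := hjk n
    simp only [hLn, hm]
    omega
  have hnull := hbl (fun n => {A | ∀ l < m n, Ok e (join O A) (X n l) (X n l ∈ LangQ β A)})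
    (fun n => max (B (Ln n)) n) (fun n => 1 + n * r (Ln n)) ?_ ?_ ?_
  · refine measure_mono_null (fun A hA => ?_) hnull
    simp only [Set.mem_compl_iff, Set.mem_ofPred_eq, not_not] at hA
    exact fun n l _ => hA (X n l)
  · intro n
    have key : ∀ A A' : Oracle, (∀ x ∈ short (max (B (Ln n)) n), A x = A' x) →
        ∀ l < m n, Ok e (join O A) (X n l) (X n l ∈ LangQ β A) →
        Ok e (join O A') (X n l) (X n l ∈ LangQ β A') := by
      intro A A' h l hl hA
      have e1 : (X n l ∈ LangQ β A) = (X n l ∈ LangQ β A') :=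
        propext (depOn_langQ (n := n) (by have := hjk n; simp only [hm]; omega) fun x hx =>
          h x (short_mono (le_max_right _ _) hx))
      rw [e1] at hA
      refine hB (X n l) (join O A) (join O A') (fun y hy => ?_) _ hA
      refine join_congr h y ?_
      rw [hXl n l hl] at hy
      have h2 := le_max_left (B (Ln n)) n
      omega
    intro A A' h
    exact ⟨fun hA l hl => key A A' h l hl (hA l hl),
      fun hA l hl => key A' A (fun x hx => (h x hx).symm) l hl (hA l hl)⟩
  · intro n A hA hno P hP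
    choose! A' hA1 hA2 hA3 using fun z hz => (hP z hz).2
    have hlang : ∀ z ∈ P, ∀ l, (X n l ∈ LangQ β (A' z) ↔ z.getD l false = true) := fun z hz l =>
      langQ_one (hP z hz).1 hno (hA1 z hz) (hA2 z hz)
    -- every cell but one is found at some bit
    have hcov : P ⊆ {List.replicate (m n) false} ∪
        (Finset.range (m n)).biUnion fun l => P.filter fun z => z.getD l false = true := by
      intro z hz
      rw [Finset.mem_union, Finset.mem_singleton, Finset.mem_biUnion]
      by_cases h : ∃ l < m n, z.getD l false = true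
      · right
        obtain ⟨l, hl, hl2⟩ := h
        exact ⟨l, Finset.mem_range.2 hl, Finset.mem_filter.2 ⟨hz, hl2⟩⟩
      · left
        push Not at h
        have hzl := (hP z hz).1
        refine List.ext_getElem (by rw [hzl, List.length_replicate]) fun l h1 h2 => ?_
        have h3 := h l (by rw [hzl] at h1; exact h1)
        rw [List.getD_eq_getElem _ _ h1] at h3
        rw [List.getElem_replicate]
        simpa using h3
    have hone : ∀ l ∈ Finset.range (m n), (P.filter fun z => z.getD l false = true).card ≤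
        r (Ln n) := by
      intro l hl
      rw [Finset.mem_range] at hl
      have hf : (X n l ∈ LangQ β A) = False := by
        rw [eq_iff_iff, iff_false]
        intro h
        obtain ⟨z, hz, _, h2⟩ := mem_langQ.1 h
        exact hno z hz h2
      have hA0 := hA l hl
      rw [hf] at hA0
      rw [← hXl n l hl]
      refine hr (X n l) (join O A) hA0 (P.filter fun z => z.getD l false = true)
        (fun z => join O (A' z)) ?_ ?_
      · exact join_cells (fun t ht => (hP t (Finset.mem_filter.1 ht).1).1)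
          fun t ht => hA1 t (Finset.mem_filter.1 ht).1
      · intro t ht
        rw [Finset.mem_filter] at ht
        have h3 := hA3 t ht.1 l hl
        have ht' : (X n l ∈ LangQ β (A' t)) = True := by
          rw [eq_iff_iff, iff_true]
          exact (hlang t ht.1 l).2 ht.2
        rwa [ht'] at h3
    refine (Finset.card_le_card hcov).trans ((Finset.card_union_le _ _).trans ?_)
    rw [Finset.card_singleton]
    refine Nat.add_le_add_left (Finset.card_biUnion_le.trans
      ((Finset.sum_le_sum hone).trans ?_)) 1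
    rw [Finset.sum_const, Finset.card_range, smul_eq_mul]
    exact Nat.mul_le_mul_right _ (hmn n)
  · filter_upwards [hr0 4] with n hn
    exact hn (Ln n) (hL2 n) (hL1 n)

/-! ### Padding -/

theorem length_padT (t : ℕ → ℕ) (x : List Bool) :
    (padT t x).length = 2 * x.length + 2 ^ t x.length + 1 := by
  unfold padT
  rw [A2.length_pairBits, List.length_replicate]

theorem slow_pad {t : ℕ → ℕ} (ht : (fun n => (t n : ℝ)) =o[atTop] fun n => (n : ℝ))
    (r : Polynomial ℕ) : Slow fun m => r.eval (2 * (m + 1) + 2 ^ t (m + 1) + 1) := by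
  intro c0
  obtain ⟨C, hC⟩ := poly_exp r
  set c : ℕ := 4 * (2 * C + 4) with hc
  have hcpos : 0 < c := by omega
  have h1 := ht.bound (c := 1 / (8 * c)) (by positivity)
  obtain ⟨N, hN⟩ := eventually_atTop.1 h1
  have hN2 : ∀ n ≥ N, 8 * c * t n ≤ n := by
    intro n hn
    have h2 := hN n hn
    simp only [Real.norm_natCast] at h2
    have h3 : (0 : ℝ) < 8 * c := by positivity
    rw [div_mul_eq_mul_div, one_mul, le_div_iff₀ h3] at h2
    have h4 : ((8 * c * t n : ℕ) : ℝ) ≤ (n : ℕ) := by
      push_cast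
      linarith
    exact_mod_cast h4
  refine eventually_atTop.2 ⟨max (max N (c0 + 1)) (c * ((3 * c + 50) * (C + 1) * 20)),
    fun n hn m hm1 hm2 => ?_⟩
  have hn1 : N ≤ n := (le_max_left _ _).trans ((le_max_left _ _).trans hn)
  have hn2 : c0 + 1 ≤ n := (le_max_right _ _).trans ((le_max_left _ _).trans hn)
  have hn3 : c * ((3 * c + 50) * (C + 1) * 20) ≤ n := (le_max_right _ _).trans hn
  set s := n / c with hs
  have h2 : n < c * (s + 1) := Nat.lt_mul_div_succ n hcpos
  have h3 : s + 1 ≤ 2 ^ s := Nat.lt_two_pow_self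
  have h4 : t (m + 1) ≤ s := by
    have h5 := hN2 (m + 1) (by omega)
    rw [hs, Nat.le_div_iff_mul_le hcpos]
    nlinarith
  have h5 : 8 * c + 11 < 2 ^ (8 * c + 11) := Nat.lt_two_pow_self
  have h6 : 2 ^ t (m + 1) ≤ 2 ^ s := Nat.pow_le_pow_right two_pos h4
  have h7 : 2 * (m + 1) + 2 ^ t (m + 1) + 1 ≤ 2 ^ (s + (8 * c + 11)) := by
    rw [pow_add]
    have h8 : 2 * (m + 1) + 2 ^ t (m + 1) + 1 ≤ 8 * n + 3 + 2 ^ s := by omega
    have h9 : 8 * n + 3 + 2 ^ s ≤ (8 * c + 11) * 2 ^ s := by nlinarith
    refine h8.trans (h9.trans ?_)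
    rw [mul_comm]
    exact Nat.mul_le_mul_left _ h5.le
  have h8 := hC _ _ h7
  refine le_trans ?_ (num hc hs (2 ^ (C * (s + (8 * c + 11) + 1))) le_rfl ?_)
  · refine Nat.mul_le_mul_left _ ?_
    have h9 : 1 ≤ 2 ^ (C * (s + (8 * c + 11) + 1)) := Nat.one_le_two_pow
    have h10 : n * r.eval (2 * (m + 1) + 2 ^ t (m + 1) + 1) ≤
        n * (576 * (2 ^ (C * (s + (8 * c + 11) + 1))) ^ 2) := by
      refine Nat.mul_le_mul_left _ ?_
      nlinarith
    have h11 : 1 ≤ 2 ^ (s + 1) * (s + 1) := Nat.mul_pos (Nat.two_pow_pos _) (Nat.succ_pos _)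
    calc 1 + n * r.eval (2 * (m + 1) + 2 ^ t (m + 1) + 1)
        ≤ 1 * (1 + n * (576 * (2 ^ (C * (s + (8 * c + 11) + 1))) ^ 2)) := by omega
      _ ≤ (2 ^ (s + 1) * (s + 1)) * (1 + n * (576 * (2 ^ (C * (s + (8 * c + 11) + 1))) ^ 2)) :=
          Nat.mul_le_mul_right _ h11
      _ = _ := by ring
  · rw [hs, Nat.le_div_iff_mul_le hcpos, mul_comm]
    exact hn3

end Pool.Agent.H20RD
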