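import Pool.Agent.H20RD.Cond
import Pool.Agent.H20RD.OddL
import Pool.Agent.H20RD.EasyPP
import Pool.Agent.H20RD.Hard
import Pool.Agent.H20RD.KindG

/-!
# `PP` and the parity of the oracle
-/

set_option autoImplicit false

namespace Pool.Agent.H20RD

open Pool.Agent.NPC Pool.Agent.H622R2 Pool.Agent.H620R2.Gauge MeasureTheory Finset Abfr

/-- acceptance has low degree -/
theorem deg_run (M : Alg) (B : Finset (List Bool) → Oracle)
    (hB : ∀ y, Deg 1 fun X => if B X y = true then (1 : ℝ) else 0) (x z : List Bool) :
    ∀ (n : ℕ) (a : List Bool), Deg n fun X => if M.run (B X) x n a = some z then (1 : ℝ) else 0 := by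
  intro n
  induction n with
  | zero =>
    intro a
    simpa [Alg.run] using Deg.const (α := List Bool) (d := 0) 0
  | succ n ih =>
    intro a
    rcases hq : M.D (pairBits x a) with _ | ⟨c, q⟩
    · have h : (fun X => if M.run (B X) x (n + 1) a = some z then (1 : ℝ) else 0) =
          fun _ => if some [] = some z then 1 else 0 := by
        funext X
        simp only [Alg.run, hq]
      rw [h]
      exact Deg.const _
    · cases c with
      | true =>
        have h : (fun X => if M.run (B X) x (n + 1) a = some z then (1 : ℝ) else 0) =
            fun _ => if some q = some z then 1 else 0 := by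
          funext X
          simp only [Alg.run, hq]
        rw [h]
        exact Deg.const _
      | false =>
        have h : (fun X => if M.run (B X) x (n + 1) a = some z then (1 : ℝ) else 0) =
            fun X => (if B X q = true then (1 : ℝ) else 0) *
              (if M.run (B X) x n (a ++ [true]) = some z then (1 : ℝ) else 0) +
              (1 - (if B X q = true then (1 : ℝ) else 0)) *
              (if M.run (B X) x n (a ++ [false]) = some z then (1 : ℝ) else 0) := by
          funext X
          simp only [Alg.run, hq]
          cases B X q <;> simp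
        rw [h, add_comm n 1]
        exact ((hB q).mul (ih _)).add (((Deg.const 1).sub (hB q)).mul (ih _))

/-- the queries have degree one -/
theorem deg_flp (O C : Oracle) (U : Finset (List Bool)) (l : Bool) (y : List Bool) :
    Deg 1 fun X => if join O (mix U (flp l X) C) y = true then (1 : ℝ) else 0 := by
  rcases y with _ | ⟨c, y⟩
  · exact Deg.const (α := List Bool) _
  · cases c with
    | false =>
      change Deg 1 fun _ : Finset (List Bool) => if O y = true then (1 : ℝ) else 0
      exact Deg.const _
    | true =>
      change Deg 1 fun X => if mix U (flp l X) C y = true then (1 : ℝ) else 0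
      unfold mix
      by_cases hy : y ∈ U
      · simp only [if_pos hy]
        have h1 : Deg (α := List Bool) 1 (mono {y}) := Deg.mono (by simp)
        cases l with
        | true =>
          have h : (fun X => if flp true X y = true then (1 : ℝ) else 0) =
              fun X => 1 - mono {y} X := by
            funext X
            unfold flp mono
            simp only [singleton_subset_iff]
            split_ifs <;> simp_all
          rw [h]
          exact (Deg.const 1).sub h1
        | false =>
          have h : (fun X => if flp false X y = true then (1 : ℝ) else 0) = mono {y} := by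
            funext X
            unfold flp mono
            simp only [singleton_subset_iff]
            split_ifs <;> simp_all
          rw [h]
          exact h1
      · simp only [if_neg hy]
        exact Deg.const (α := List Bool) _

/-- the sign which decides acceptance -/
theorem ppacc_sign (M : Alg) (r : Polynomial ℕ) (O C : Oracle) (U : Finset (List Bool)) (l : Bool)
    (x : List Bool) : ∃ q : Finset (List Bool) → ℝ,
      Deg (M.p.eval (2 * r.eval x.length + 1 + x.length)) q ∧
      ∀ X, PPacc M r (join O (mix U (flp l X) C)) x ↔ 0 < q X := by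
  classical
  refine ⟨fun X => 2 * (∑ w ∈ strs (r.eval x.length),
    if M.out (join O (mix U (flp l X) C)) (pairBits w x) = some [true] then (1 : ℝ) else 0) -
      2 ^ r.eval x.length, ?_, fun X => ?_⟩
  · refine ((Deg.sum fun w hw => ?_).smul 2).sub (Deg.const _)
    have h := deg_run M (fun X => join O (mix U (flp l X) C)) (deg_flp O C U l) (pairBits w x)
      [true] (M.p.eval (pairBits w x).length) []
    have e : (pairBits w x).length = 2 * r.eval x.length + 1 + x.length := by
      rw [A2.length_pairBits, mem_strs.1 hw]
      ring
    rw [e] at h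
    unfold Alg.out
    rw [e]
    exact h
  · unfold PPacc
    change _ ↔ 0 < 2 * (∑ w ∈ strs (r.eval x.length), if M.out (join O (mix U (flp l X) C))
      (pairBits w x) = some [true] then (1 : ℝ) else 0) - 2 ^ r.eval x.length
    rw [ncard_eq, sum_boole, sub_pos]
    constructor
    · intro h
      have : ((2 ^ r.eval x.length : ℕ) : ℝ) < ((2 * ((strs (r.eval x.length)).filter fun w =>
          M.out (join O (mix U (flp l X) C)) (pairBits w x) = some [true]).card : ℕ) : ℝ) := by
        exact_mod_cast h
      push_cast at this
      simpa using this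
    · intro h
      have : ((2 ^ r.eval x.length : ℕ) : ℝ) < ((2 * ((strs (r.eval x.length)).filter fun w =>
          M.out (join O (mix U (flp l X) C)) (pairBits w x) = some [true]).card : ℕ) : ℝ) := by
        push_cast
        simpa using h
      exact_mod_cast this

/-- the parity -/
theorem odd_flp {n : ℕ} (hn : 1 ≤ n) (l : Bool) (C : Oracle) {X : Finset (List Bool)}
    (hX : X ⊆ strs n) {x : List Bool} (hx : x.length = n) :
    x ∈ oddL (mix (strs n) (flp l X) C) ↔ Odd X.card := by
  unfold oddL
  rw [Set.mem_ofPred_eq, hx]
  have h1 : ((strs n).filter fun y => mix (strs n) (flp l X) C y = true) =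
      (strs n).filter fun y => flp l X y = true := by
    refine filter_congr fun y hy => ?_
    unfold mix
    rw [if_pos hy]
  rw [h1]
  cases l with
  | false =>
    have h2 : ((strs n).filter fun y => flp false X y = true) = X := by
      ext y
      rw [mem_filter]
      unfold flp
      constructor
      · rintro ⟨_, h⟩
        by_contra hc
        simp [hc] at h
      · intro h
        exact ⟨hX h, by simp [h]⟩
    rw [h2]
  | true =>
    have h2 : ((strs n).filter fun y => flp true X y = true) = strs n \ X := by
      ext y
      rw [mem_filter, Finset.mem_sdiff]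
      unfold flp
      refine and_congr_right fun _ => ?_
      by_cases h : y ∈ X <;> simp [h]
    rw [h2, card_sdiff_of_subset hX, card_strs]
    have h3 : X.card ≤ 2 ^ n := by
      rw [← card_strs]
      exact card_le_card hX
    have h4 : Even (2 ^ n) := (Nat.even_pow.2 ⟨even_two, by omega⟩)
    rw [Nat.odd_sub h3]
    constructor
    · intro h
      rw [← Nat.not_even_iff_odd]
      intro h5
      have := (h.2 h5)
      exact (Nat.not_odd_iff_even.2 h4) this
    · intro h
      constructor
      · intro h5
        exact absurd h4 (Nat.not_even_iff_odd.2 h5)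
      · intro h5
        exact absurd h5 (Nat.not_even_iff_odd.2 h)

/-- the right answer depends on short strings only -/
theorem depOn_right {M : Alg} {r b : Polynomial ℕ} {O : Oracle} (hb : ∀ (A A' : Oracle)
    (x : List Bool), (∀ y : List Bool, y.length ≤ b.eval x.length → A y = A' y) →
      (PPacc M r A x ↔ PPacc M r A' x)) (x y : List Bool) :
    DepOn (short (max (b.eval y.length) x.length))
      {A | x ∈ oddL A ↔ PPacc M r (join O A) y} := by
  intro A A' hA
  have e1 : x ∈ oddL A ↔ x ∈ oddL A' := by
    unfold oddL
    rw [Set.mem_ofPred_eq, Set.mem_ofPred_eq]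
    have : ((strs x.length).filter fun y => A y = true) =
        (strs x.length).filter fun y => A' y = true := by
      refine filter_congr fun y hy => ?_
      rw [mem_strs] at hy
      rw [hA y (mem_short.2 (hy.le.trans (le_max_right _ _)))]
    rw [this]
  have e2 : PPacc M r (join O A) y ↔ PPacc M r (join O A') y := by
    refine hb _ _ _ fun z hz => ?_
    exact join_congr hA z (hz.trans ((le_max_left _ _).trans (Nat.le_succ _)))
  change (_ ↔ _) ↔ (_ ↔ _)
  rw [e1, e2]

theorem ae_gen (O : Oracle) (p : ℕ → unitInterval) (g : List Bool → List Bool) (G : ℕ → ℕ)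
    (hg : ∀ x, (g x).length = G x.length)
    (h : ¬ ∃ q : Polynomial ℕ, ∀ n, 2 ^ n * min (p n : ℝ) (1 - p n) ≤ q.eval (G n)) :
    ∀ᵐ A ∂(rnd fun x => p x.length), ∀ (M : Alg) (r : Polynomial ℕ),
      ¬ ∀ x, x ∈ oddL A ↔ PPacc M r (join O A) (g x) := by
  classical
  have : Countable (Polynomial ℕ) := CC.poly_countable
  have : Countable Alg := Alg.countable
  have hall : ∀ Mr : Alg × Polynomial ℕ, ∀ᵐ A ∂(rnd fun x => p x.length),
      ¬ ∀ x, x ∈ oddL A ↔ PPacc Mr.1 Mr.2 (join O A) (g x) := by
    rintro ⟨M, r⟩
    obtain ⟨b, hb⟩ := ppacc_local M r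
    set X : ℕ → List Bool := fun n => List.replicate n true with hX
    have hXl : ∀ n, (X n).length = n := fun n => by simp [hX]
    have hnull := null_of_levels (fun x => p x.length)
      (fun n => {A | X n ∈ oddL A ↔ PPacc M r (join O A) (g (X n))})
      (fun n => max (b.eval (g (X n)).length) (X n).length)
      (fun n => depOn_right hb (X n) (g (X n))) (δ := 7 / 8) (by norm_num) ?_
    · refine measure_mono_null (fun A hA => ?_) hnull
      simp only [Set.mem_compl_iff, Set.mem_ofPred_eq, not_not] at hA
      exact fun n => hA (X n)
    · intro N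
      -- a level with many exceptional strings
      set T : Polynomial ℕ := M.p.comp (Polynomial.C 2 * r + Polynomial.C 1 + Polynomial.X) with hT
      have hTe : ∀ n, T.eval n = M.p.eval (2 * r.eval n + 1 + n) := by
        intro n
        rw [hT, Polynomial.eval_comp]
        simp
      obtain ⟨n, hn, hn2⟩ : ∃ n ≥ N + 1, 8 * (((T.eval (G n) : ℕ) : ℝ) + 2) ^ 2 ≤
          2 ^ n * min (p n : ℝ) (1 - p n) := by
        by_contra hc
        push Not at hc
        apply h
        refine ⟨Polynomial.C 8 * (T + Polynomial.C 2) ^ 2 + Polynomial.C (2 ^ (N + 1)),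
          fun n => ?_⟩
        simp only [Polynomial.eval_add, Polynomial.eval_mul, Polynomial.eval_C,
          Polynomial.eval_pow]
        push_cast
        by_cases hnN : N + 1 ≤ n
        · have h1 := hc n hnN
          have h2 : (0 : ℝ) ≤ 2 ^ (N + 1) := by positivity
          linarith
        · have h1 : (2 : ℝ) ^ n ≤ 2 ^ (N + 1) := pow_le_pow_right₀ (by norm_num) (by omega)
          have h2 : min (p n : ℝ) (1 - p n) ≤ 1 := (min_le_left _ _).trans (p n).2.2
          have h3 : (0 : ℝ) ≤ 8 * (((T.eval (G n) : ℕ) : ℝ) + 2) ^ 2 := by positivity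
          have h4 : (2 : ℝ) ^ n * min (p n : ℝ) (1 - p n) ≤ 2 ^ n * 1 :=
            mul_le_mul_of_nonneg_left h2 (by positivity)
          linarith
      refine ⟨n, by omega, fun C => ?_⟩
      set l := lik (p n) with hl
      obtain ⟨q, hq1, hq2⟩ := ppacc_sign M r O C (strs n) l (g (X n))
      rw [hg, hXl, ← hTe] at hq1
      have hw : w (!l) (p n) = min (p n : ℝ) (1 - p n) := w_lik (p n)
      have hcard : ((strs n).card : ℝ) = 2 ^ n := by
        rw [card_strs]
        push_cast
        ring
      have hwrong := wrong_weight (e := w (!l) (p n)) (w_nonneg _ _) (by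
        rw [hw]
        have h1 := min_le_left (p n : ℝ) (1 - p n)
        have h2 := min_le_right (p n : ℝ) (1 - p n)
        linarith) (U := strs n) hq1 (by rw [hcard, hw]; exact hn2)
      have hlev := level p n l C {A | X n ∈ oddL A ↔ PPacc M r (join O A) (g (X n))}
        ((strs n).powerset.filter fun X => ¬ (Odd X.card ↔ 0 < q X)) (filter_subset _ _) ?_
        (depOn_right hb (X n) (g (X n)))
      · linarith
      · intro Y hY
        rw [mem_filter, mem_powerset] at hY
        intro hc
        apply hY.2
        rw [← hq2 Y, ← odd_flp (by omega) l C hY.1 (hXl n)]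
        exact hc
  have h2 := ae_all_iff.2 hall
  filter_upwards [h2] with A hA M r
  exact hA (M, r)

theorem hard_ps (O : Oracle) (p : ℕ → unitInterval) (t : ℕ → ℕ)
    (h : ¬ ∃ q : Polynomial ℕ, ∀ n, 2 ^ n * min (p n : ℝ) (1 - p n) ≤ q.eval (n + 2 ^ t n)) :
    ∀ᵐ A ∂(rnd fun x => p x.length), ∃ L : Set (List Bool), IsPSPACE (join O A) L ∧
      IsParityP (join O A) L ∧ ¬ IsPP (join O A) L ∧ ¬ IsPPTime t (join O A) L := by
  have h1 := ae_gen O p id (fun n => n) (fun x => rfl) (by
    rintro ⟨q, hq⟩
    refine h ⟨q, fun n => (hq n).trans ?_⟩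
    exact_mod_cast eval_mono q (Nat.le_add_right _ _))
  have h2 := ae_gen O p (padT t) (fun n => 2 * n + 2 ^ t n + 1) (length_padT t) (by
    rintro ⟨q, hq⟩
    refine h ⟨q.comp (Polynomial.C 2 * Polynomial.X + Polynomial.C 1), fun n => (hq n).trans ?_⟩
    rw [Polynomial.eval_comp]
    simp only [Polynomial.eval_add, Polynomial.eval_mul, Polynomial.eval_C, Polynomial.eval_X]
    have h3 : q.eval (2 * n + 2 ^ t n + 1) ≤ q.eval (2 * (n + 2 ^ t n) + 1) :=
      eval_mono q (by have := Nat.two_pow_pos (t n); omega)
    exact_mod_cast h3)
  filter_upwards [h1, h2] with A hA1 hA2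
  refine ⟨oddL A, oddL_pspace O A, oddL_parity O A, ?_, ?_⟩
  · intro hpp
    obtain ⟨_, M, r, _, hM⟩ := isPP_iff.1 hpp
    exact hA1 M r hM
  · rintro ⟨V, r, ⟨M, hM⟩, hV⟩
    refine hA2 M r fun x => ?_
    rw [hV x, PPacc]
    simp only [hM, Option.some.injEq]

end Pool.Agent.H20RD
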