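import Pool.Agent.H9x.Q.Defs
import Mathlib.Analysis.Asymptotics.Defs

/-!
# `QMA`, and quantum time `2 ^ o(n)` with `o(n)` bits of advice, relative to an oracle
-/

set_option autoImplicit false

namespace Pool.Agent.H20RD

open Pool.Agent.NPC Pool.Agent.H620R2.Gauge Pool.Agent.H9x.Q Filter Asymptotics

/-- `φ` is a state of `m` qubits in which the first qubits contain the string `x`, the next `k`
qubits are in an arbitrary state (the quantum witness) and the remaining qubits are `0`. -/
def Witness {m : ℕ} (x : List Bool) (k : ℕ) (φ : Basis m → ℂ) : Prop :=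
  ∑ z, ‖φ z‖ ^ 2 = 1 ∧ ∀ z, φ z ≠ 0 → ∀ i : Fin m, (i < x.length ∨ x.length + k ≤ i) →
    z i = x.getD i false

/-- The probability that the first qubit is measured to be one, when the circuit `C` has been
started in the state `φ`. -/
noncomputable def probW (A : Oracle) (C : List Gate) {m : ℕ} (φ : Basis m → ℂ) : ℝ :=
  ∑ z : Basis m, if bit z 0 then ‖run A C φ z‖ ^ 2 else 0

/-- The language `L` is in `QMA` relative to `A`: a polynomial-time uniform family of quantum
circuits accepts every `x` in `L` with probability at least `2 / 3` for some quantum witness with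
`k |x|` qubits (`k` a polynomial), and every other `x` with probability at most `1 / 3` for all
quantum witnesses. (The circuit for the inputs of length `n` has `n + 1 + anc n` qubits.) -/
def IsQMA (A : Oracle) (L : Set (List Bool)) : Prop :=
  ∃ (F : QFamily) (k : Polynomial ℕ), ∀ x : List Bool,
    (x ∈ L → ∃ φ : Basis (x.length + 1 + F.anc.eval x.length) → ℂ,
      Witness x (k.eval x.length) φ ∧ 2 / 3 ≤ probW A (F.circ x.length) φ) ∧
    (x ∉ L → ∀ φ : Basis (x.length + 1 + F.anc.eval x.length) → ℂ,
      Witness x (k.eval x.length) φ → probW A (F.circ x.length) φ ≤ 1 / 3)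

/-- The language `L` is decided in quantum time `2 ^ o(n)` with `o(n)` bits of advice, relative to
`A`: a polynomial-time uniform family of quantum circuits decides with bounded error whether `x` is
in `L`, when it gets, besides `x`, the string `h |x|` of length `o(|x|)` and a string of
`2 ^ t |x|` ones, where `t |x|` is `o(|x|)`. (The functions `h` and `t` are arbitrary.) -/
def IsBQSub (A : Oracle) (L : Set (List Bool)) : Prop :=
  ∃ (F : QFamily) (h : ℕ → List Bool) (t : ℕ → ℕ),
    ((fun n => ((h n).length : ℝ)) =o[atTop] fun n => (n : ℝ)) ∧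
    ((fun n => (t n : ℝ)) =o[atTop] fun n => (n : ℝ)) ∧
    ∀ x : List Bool,
      (x ∈ L → 2 / 3 ≤ F.acc A
        (pairBits x (pairBits (h x.length) (List.replicate (2 ^ t x.length) true)))) ∧
      (x ∉ L → F.acc A
        (pairBits x (pairBits (h x.length) (List.replicate (2 ^ t x.length) true))) ≤ 1 / 3)

end Pool.Agent.H20RD
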