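import Pool.Agent.H20RD.PDefs
import Pool.Agent.H20RD.QDefs

/-!
# Quantum Merlin-Arthur games with running time `2 ^ O(t n)`, relative to an oracle
-/

set_option autoImplicit false

namespace Pool.Agent.H20RD

open Pool.Agent.NPC Pool.Agent.H620R2.Gauge Pool.Agent.H9x.Q

/-- The language `L` is decided by quantum Merlin-Arthur games in time `2 ^ O(t n)` (with quantum
witnesses that may be as long) relative to `A`: a game with polynomial running time suffices if the
verifier gets the padded inputs. -/
def IsQMATime (t : ℕ → ℕ) (A : Oracle) (L : Set (List Bool)) : Prop :=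
  ∃ (F : QFamily) (k : Polynomial ℕ), ∀ x : List Bool,
    (x ∈ L → ∃ φ : Basis ((padT t x).length + 1 + F.anc.eval (padT t x).length) → ℂ,
      Witness (padT t x) (k.eval (padT t x).length) φ ∧
        2 / 3 ≤ probW A (F.circ (padT t x).length) φ) ∧
    (x ∉ L → ∀ φ : Basis ((padT t x).length + 1 + F.anc.eval (padT t x).length) → ℂ,
      Witness (padT t x) (k.eval (padT t x).length) φ →
        probW A (F.circ (padT t x).length) φ ≤ 1 / 3)

end Pool.Agent.H20RD
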