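import Pool.Agent.H20RD.KindG
import Pool.Agent.H20RD.TDefs
import Pool.Agent.H20RD.Hard

/-!
# Random oracles of every density: `PP` against `NP` and its complement
-/

set_option autoImplicit false

namespace Pool.Agent.H20RD

open Pool.Agent.NPC Pool.Agent.H622R2 Pool.Agent.H620R2.Gauge Pool.Agent.H9x.Q MeasureTheory Filter
  Asymptotics

theorem true_mem_tagL {L : Set (List Bool)} {x : List Bool} : true :: x ∈ tagL L ↔ x ∉ L := by
  constructor
  · rintro (⟨x', h, h2⟩ | ⟨x', h, h2⟩)
    · simp at h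
    · rw [List.cons.injEq] at h
      rw [h.2]
      exact h2
  · exact fun h => Or.inr ⟨x, rfl, h⟩

theorem false_mem_tagL {L : Set (List Bool)} {x : List Bool} : false :: x ∈ tagL L ↔ x ∈ L := by
  constructor
  · rintro (⟨x', h, h2⟩ | ⟨x', h, h2⟩)
    · rw [List.cons.injEq] at h
      rw [h.2]
      exact h2
    · simp at h
  · exact fun h => Or.inl ⟨x, rfl, h⟩

theorem hard_pp (O : Oracle) (p : ℕ → unitInterval) (t : ℕ → ℕ)
    (ht : (fun n => (t n : ℝ)) =o[atTop] fun n => (n : ℝ))
    (h : ¬ Summable fun n => 2 ^ n * min (p n : ℝ) (1 - p n)) :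
    ∀ᵐ A ∂(rnd fun x => p x.length), ∃ L : Set (List Bool), IsPP (join O A) L ∧
      ¬ IsNTime t (join O A) L ∧ ¬ IsNTime t (join O A) Lᶜ ∧
      ¬ IsQMATime t (join O A) L ∧ ¬ IsQMATime t (join O A) Lᶜ := by
  obtain ⟨β, hβ⟩ := split_summable h
  have : Countable QFamily := QFamily.countable
  have : Countable (Polynomial ℕ) := CC.poly_countable
  have : Countable Alg := Alg.countable
  have hG : ∀ (c : Bool) (x : List Bool), (padT t (c :: x)).length =
      2 * (x.length + 1) + 2 ^ t (x.length + 1) + 1 := fun c x => by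
    rw [length_padT, List.length_cons]
  have k1 := fun c : Bool => ae_failG (kind_np.comap (fun x => padT t (c :: x))
    (fun m => 2 * (m + 1) + 2 ^ t (m + 1) + 1) (hG c) (slow_pad ht)) O β p hβ
  have k2 := fun c : Bool => ae_failG (kind_qma.comap (fun x => padT t (c :: x))
    (fun m => 2 * (m + 1) + 2 ^ t (m + 1) + 1) (hG c) (slow_pad ht)) O β p hβ
  filter_upwards [k1 true, k1 false, k2 true, k2 false] with A h1 h2 h3 h4
  refine ⟨tagL (LangQ β A), isPP_tag (isNP_langQ β O A), ?_, ?_, ?_, ?_⟩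
  · rintro ⟨V, q, ⟨M, hM⟩, hV⟩
    refine h1 (M, q) fun x => ?_
    have h5 := hV (true :: x)
    rw [true_mem_tagL] at h5
    rw [h5]
    simp only [hM, Option.some.injEq]
  · rintro ⟨V, q, ⟨M, hM⟩, hV⟩
    refine h2 (M, q) fun x => ?_
    have h5 := hV (false :: x)
    rw [Set.mem_compl_iff, false_mem_tagL] at h5
    rw [h5]
    simp only [hM, Option.some.injEq]
  · rintro ⟨F, k, hF⟩
    refine h3 (F, k) fun x => ?_
    have h5 := hF (true :: x)
    rw [true_mem_tagL, not_not] at h5
    exact h5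
  · rintro ⟨F, k, hF⟩
    refine h4 (F, k) fun x => ?_
    have h5 := hF (false :: x)
    rw [Set.mem_compl_iff, false_mem_tagL, not_not] at h5
    exact h5

theorem isPP_of_isP {A : Oracle} {L : Set (List Bool)} (h : IsP A L) : IsPP A L := by
  obtain ⟨V, hV, h⟩ := h
  refine ⟨fun z => V (unpair z).2, 0, hV.precomp (Poly.snd poly_unpair), fun x => ?_⟩
  have h1 : {w : List Bool | w.length = (0 : Polynomial ℕ).eval x.length ∧
      V (unpair (pairBits w x)).2 = [true]} = if V x = [true] then {[]} else ∅ := by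
    ext w
    simp only [Polynomial.eval_zero, List.length_eq_zero_iff, unpair_pairBits, Set.mem_ofPred_eq]
    split_ifs with h2 <;> simp [h2]
  rw [h1, h x]
  split_ifs with h2
  · simp [h2]
  · simp [h2]

end Pool.Agent.H20RD
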