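import Pool.Agent.H20RD.Iter
import Mathlib.Data.Fintype.Vector

/-!
# Blocks of cells for random oracles with densities depending on the length
-/

set_option autoImplicit false

namespace Pool.Agent.H20RD

open MeasureTheory ProbabilityTheory Finset Filter

/-- the `i`-th string of the cell `z` -/
def cs (j k : ℕ) (z : List Bool) (i : ℕ) : List Bool :=
  List.replicate j false ++ (z ++ (List.replicate i true ++ List.replicate (k - i) false))

theorem length_cs {j k : ℕ} {z : List Bool} {i : ℕ} (hi : i ≤ k) :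
    (cs j k z i).length = j + z.length + k := by
  simp only [cs, List.length_append, List.length_replicate]
  omega

theorem rep_inj : ∀ {i i' : ℕ} {a a' : ℕ},
    List.replicate i true ++ List.replicate a false =
      List.replicate i' true ++ List.replicate a' false → i = i' := by
  intro i
  induction i with
  | zero =>
    intro i' a a' h
    cases i' with
    | zero => rfl
    | succ i' => cases a <;> simp [List.replicate_succ] at h
  | succ i ih =>
    intro i' a a' h
    cases i' with
    | zero => cases a' <;> simp [List.replicate_succ] at h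
    | succ i' =>
      simp only [List.replicate_succ, List.cons_append, List.cons.injEq, true_and] at h
      rw [ih h]

theorem cs_inj {j k : ℕ} {z z' : List Bool} {i i' : ℕ} (hz : z.length = z'.length)
    (h : cs j k z i = cs j k z' i') : z = z' ∧ i = i' := by
  unfold cs at h
  have h1 := List.append_cancel_left h
  obtain ⟨h2, h3⟩ := List.append_inj h1 hz
  exact ⟨h2, rep_inj h3⟩

/-- the cell `z` -/
def cellC (j k : ℕ) (z : List Bool) : Finset (List Bool) := (range (k + 1)).image (cs j k z)

/-- the cell `z` is hit: all its strings have the value `β` -/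
def hitC (β : Bool) (j k : ℕ) (z : List Bool) : Set Orc := {A | ∀ i ≤ k, A (cs j k z i) = β}

theorem hitC_eq (β : Bool) (j k : ℕ) (z : List Bool) :
    hitC β j k z = {A | ∀ x ∈ cellC j k z, A x = β} := by
  ext A
  simp only [hitC, cellC, mem_image, mem_range, Set.mem_ofPred_eq]
  constructor
  · rintro h x ⟨i, hi, rfl⟩
    exact h i (by omega)
  · intro h i hi
    exact h _ ⟨i, by omega, rfl⟩

theorem depOn_hitC (β : Bool) (j k : ℕ) (z : List Bool) :
    DepOn (cellC j k z) (hitC β j k z) := by
  intro A A' h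
  rw [hitC_eq]
  constructor
  · intro hA x hx
    rw [← h x hx]
    exact hA x hx
  · intro hA x hx
    rw [h x hx]
    exact hA x hx

theorem card_cellC (j k : ℕ) (z : List Bool) : (cellC j k z).card = k + 1 := by
  rw [cellC, card_image_of_injOn, card_range]
  intro i _ i' _ h
  exact (cs_inj rfl h).2

theorem disjoint_cellC {j k : ℕ} {z z' : List Bool} (hz : z.length = z'.length) (h : z ≠ z') :
    Disjoint (cellC j k z) (cellC j k z') := by
  rw [Finset.disjoint_left]
  intro x hx hx'
  simp only [cellC, mem_image, mem_range] at hx hx'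
  obtain ⟨i, _, rfl⟩ := hx
  obtain ⟨i', _, h'⟩ := hx'
  exact h (cs_inj hz h'.symm).1

/-- the probability that a coin with probability `p` of `true` shows `β` -/
def w (β : Bool) (p : unitInterval) : ℝ := if β then p else 1 - p

theorem w_nonneg (β : Bool) (p : unitInterval) : 0 ≤ w β p := by
  unfold w
  have h0 := p.2.1
  have h1 := p.2.2
  split_ifs
  · exact h0
  · linarith

theorem coin_real (p : unitInterval) (β : Bool) : (coin p).real {β} = w β p := by
  have h0 : (0 : ℝ) ≤ p := p.2.1
  have h1 : (0 : ℝ) ≤ 1 - p := by have := p.2.2; linarith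
  unfold coin w Measure.real
  cases β
  · simp [h1]
  · simp [h0]

theorem rnd_hit (q : List Bool → unitInterval) (β : Bool) (C : Finset (List Bool)) :
    (rnd q).real {A | ∀ x ∈ C, A x = β} = ∏ x ∈ C, w β (q x) := by
  have h1 : {A : Orc | ∀ x ∈ C, A x = β} = Set.pi (C : Set (List Bool)) (fun _ => {β}) := by
    ext A
    simp [Set.mem_pi]
  rw [h1]
  unfold rnd Measure.real
  rw [Measure.infinitePi_pi _ (fun i _ => measurableSet_singleton β), ENNReal.toReal_prod]
  exact prod_congr rfl fun x _ => coin_real (q x) β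

theorem rnd_hitC (p : ℕ → unitInterval) (β : Bool) (j k : ℕ) (z : List Bool) {n : ℕ}
    (hn : j + z.length + k = n) :
    (rnd fun x => p x.length).real (hitC β j k z) = w β (p n) ^ (k + 1) := by
  rw [hitC_eq, rnd_hit, ← card_cellC j k z]
  refine prod_eq_pow_card fun x hx => ?_
  simp only [cellC, mem_image, mem_range] at hx
  obtain ⟨i, hi, rfl⟩ := hx
  rw [length_cs (by omega), hn]

/-- the strings of length `m` -/
def strs (m : ℕ) : Finset (List Bool) :=
  (univ : Finset (List.Vector Bool m)).map ⟨fun v => v.toList, List.Vector.toList_injective⟩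

theorem mem_strs {m : ℕ} {z : List Bool} : z ∈ strs m ↔ z.length = m := by
  simp only [strs, Finset.mem_map, mem_univ, true_and, Function.Embedding.coeFn_mk]
  constructor
  · rintro ⟨v, rfl⟩
    exact v.toList_length
  · intro h
    exact ⟨⟨z, h⟩, rfl⟩

theorem card_strs (m : ℕ) : (strs m).card = 2 ^ m := by
  rw [strs, card_map, card_univ, card_vector]
  simp

/-- the choice of the cells -/
theorem param {p : ℝ} (h0 : 0 ≤ p) (h1 : p ≤ 1 / 2) {n : ℕ} (hn : 16 ≤ n) :
    ∃ j k : ℕ, j + k ≤ n ∧ 2 ^ (n - j - k) * p ^ (k + 1) ≤ 1 / 8 ∧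
      min (2 ^ n * p) (1 / 16) ≤ 2 ^ (n - j - k) * p ^ (k + 1) ∧
      (2 : ℝ) ^ (n / 4) ≤ 16 * 2 ^ (n - j - k) := by
  classical
  set m := n / 4 with hm
  have hm4 : 4 ≤ m := by omega
  have hmn : 4 * m ≤ n := by omega
  have hex : ∃ k, p ^ (k + 1) ≤ (1 / 2) ^ m := by
    refine ⟨m - 1, ?_⟩
    rw [Nat.sub_add_cancel (by omega)]
    exact pow_le_pow_left₀ h0 h1 m
  have hk := Nat.find_spec hex
  set k := Nat.find hex with hkd
  have hkm : k ≤ m - 1 := Nat.find_min' hex (by
    rw [Nat.sub_add_cancel (by omega)]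
    exact pow_le_pow_left₀ h0 h1 m)
  have hk2 : 1 ≤ k → (1 / 2) ^ m < p ^ k := fun hk1 => by
    have := Nat.find_min hex (m := k - 1) (by omega)
    rw [not_le, Nat.sub_add_cancel hk1] at this
    exact this
  have hm8 : ((1 : ℝ) / 2) ^ m ≤ 1 / 8 := by
    calc ((1 : ℝ) / 2) ^ m ≤ (1 / 2) ^ 3 :=
          pow_le_pow_of_le_one (by norm_num) (by norm_num) (by omega)
      _ = 1 / 8 := by norm_num
  have hex2 : ∃ j, 2 ^ (n - j - k) * p ^ (k + 1) ≤ 1 / 8 := by
    refine ⟨n - k, ?_⟩
    have : n - (n - k) - k = 0 := by omega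
    rw [this, pow_zero, one_mul]
    exact hk.trans hm8
  have hj := Nat.find_spec hex2
  set j := Nat.find hex2 with hjd
  have hjn : j ≤ n - k := Nat.find_min' hex2 (by
    have : n - (n - k) - k = 0 := by omega
    rw [this, pow_zero, one_mul]
    exact hk.trans hm8)
  have hpk : 0 ≤ p ^ (k + 1) := pow_nonneg h0 _
  refine ⟨j, k, by omega, hj, ?_, ?_⟩
  · rcases Nat.eq_zero_or_pos j with hj0 | hj0
    · rcases Nat.eq_zero_or_pos k with hk0 | hk0
      · rw [hj0, hk0]
        simp
      · exfalso
        have h2 := hk2 hk0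
        have h3 : (1 / 2 : ℝ) ^ m < p := by
          refine lt_of_lt_of_le h2 ?_
          calc p ^ k ≤ p ^ 1 := pow_le_pow_of_le_one h0 (by linarith) hk0
            _ = p := pow_one p
        have h4 : (1 / 2 : ℝ) ^ (2 * m) ≤ p ^ (k + 1) := by
          rw [two_mul, pow_add, pow_succ]
          exact mul_le_mul h2.le h3.le (by positivity) (pow_nonneg h0 _)
        rw [hj0] at hj
        have h5 : (2 : ℝ) ^ (2 * m) ≤ 2 ^ (n - 0 - k) :=
          pow_le_pow_right₀ (by norm_num) (by omega)
        have h6 : (2 : ℝ) ^ (2 * m) * (1 / 2) ^ (2 * m) = 1 := by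
          rw [← mul_pow]
          norm_num
        have h7 : (1 : ℝ) ≤ 2 ^ (n - 0 - k) * p ^ (k + 1) := by
          rw [← h6]
          exact mul_le_mul h5 h4 (by positivity) (by positivity)
        linarith
    · have h2 := Nat.find_min hex2 (m := j - 1) (by omega)
      rw [not_le] at h2
      have h3 : n - (j - 1) - k = (n - j - k) + 1 := by omega
      rw [h3, pow_succ] at h2
      refine (min_le_right _ _).trans ?_
      linarith
  · rcases Nat.eq_zero_or_pos j with hj0 | hj0
    · rw [hj0]
      have h5 : (2 : ℝ) ^ m ≤ 2 ^ (n - 0 - k) := pow_le_pow_right₀ (by norm_num) (by omega)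
      have h6 : (0 : ℝ) < 2 ^ (n - 0 - k) := by positivity
      linarith
    · have h2 := Nat.find_min hex2 (m := j - 1) (by omega)
      rw [not_le] at h2
      have h3 : n - (j - 1) - k = (n - j - k) + 1 := by omega
      rw [h3, pow_succ] at h2
      have h4 : (2 : ℝ) ^ (n - j - k) * p ^ (k + 1) ≤ 2 ^ (n - j - k) * (1 / 2) ^ m :=
        mul_le_mul_of_nonneg_left hk (by positivity)
      have h5 : (1 : ℝ) / 16 < 2 ^ (n - j - k) * (1 / 2) ^ m := by linarith
      have h6 : (2 : ℝ) ^ m * (1 / 2) ^ m = 1 := by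
        rw [← mul_pow]
        norm_num
      have h7 : (0 : ℝ) < (1 / 2) ^ m := by positivity
      have h8 : (2 : ℝ) ^ m * (1 / 2) ^ m < 16 * 2 ^ (n - j - k) * (1 / 2) ^ m := by
        rw [h6]
        linarith
      exact (lt_of_mul_lt_mul_right h8 h7.le).le

theorem summable_of_min {a : ℕ → ℝ} {c : ℝ} (hc : 0 < c)
    (h : Summable fun n => min (a n) c) : Summable a := by
  have h1 := h.tendsto_atTop_zero
  have h2 : ∀ᶠ n in atTop, min (a n) c < c := h1.eventually (gt_mem_nhds hc)
  obtain ⟨N, hN⟩ := eventually_atTop.1 h2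
  rw [← summable_nat_add_iff N] at h ⊢
  refine h.congr fun n => ?_
  have := hN (n + N) (by omega)
  rcases min_lt_iff.1 this with h3 | h3
  · exact min_eq_left h3.le
  · exact absurd h3 (lt_irrefl _)

/-- **Machines fail at some block.** -/
theorem blocks (β : Bool) (p : ℕ → unitInterval)
    (hs : ¬ Summable fun n => if w β (p n) ≤ 1 / 2 then 2 ^ n * w β (p n) else 0) :
    ∃ j k : ℕ → ℕ, (∀ n, j n + k n ≤ n) ∧ ∀ (R : ℕ → Set Orc) (ρ r : ℕ → ℕ),
      (∀ n, DepOn (short (ρ n)) (R n)) →
      (∀ n, ∀ A ∈ R n, (∀ z : List Bool, z.length = n - j n - k n → A ∉ hitC β (j n) (k n) z) →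
        ∀ P : Finset (List Bool), (∀ z ∈ P, z.length = n - j n - k n ∧
          Keeps (cellC (j n) (k n) z) (hitC β (j n) (k n) z) (R n) A) → P.card ≤ r n) →
      (∀ᶠ n in atTop, 128 * r n ≤ 2 ^ (n / 4)) →
      rnd (fun x => p x.length) {A | ∀ n, A ∈ R n} = 0 := by
  classical
  have hpar : ∀ n : ℕ, ∃ jk : ℕ × ℕ, jk.1 + jk.2 ≤ n ∧ (16 ≤ n → w β (p n) ≤ 1 / 2 →
      2 ^ (n - jk.1 - jk.2) * w β (p n) ^ (jk.2 + 1) ≤ 1 / 8 ∧
      min (2 ^ n * w β (p n)) (1 / 16) ≤ 2 ^ (n - jk.1 - jk.2) * w β (p n) ^ (jk.2 + 1) ∧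
      (2 : ℝ) ^ (n / 4) ≤ 16 * 2 ^ (n - jk.1 - jk.2)) := by
    intro n
    by_cases h : 16 ≤ n ∧ w β (p n) ≤ 1 / 2
    · obtain ⟨j, k, h1, h2⟩ := param (w_nonneg β (p n)) h.2 h.1
      exact ⟨(j, k), h1, fun _ _ => h2⟩
    · exact ⟨(0, 0), by simp, fun h1 h2 => absurd ⟨h1, h2⟩ h⟩
  choose jk hjk1 hjk2 using hpar
  set j : ℕ → ℕ := fun n => (jk n).1 with hj
  set k : ℕ → ℕ := fun n => (jk n).2 with hk
  refine ⟨j, k, hjk1, fun R ρ r hR hb hr => ?_⟩
  obtain ⟨n₁, hn₁⟩ := eventually_atTop.1 hr
  set n₀ := max n₁ 16 with hn₀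
  set cells : ℕ → Finset (List Bool) := fun n =>
    if w β (p n) ≤ 1 / 2 then strs (n - j n - k n) else ∅ with hcells
  have hcm : ∀ n, ∀ y ∈ cells n, y.length = n - j n - k n := by
    intro n y hy
    rw [hcells] at hy
    simp only at hy
    split_ifs at hy
    · exact mem_strs.1 hy
    · simp at hy
  have hη : ∀ n, ∀ y ∈ cells n, (rnd fun x => p x.length).real (hitC β (j n) (k n) y) =
      w β (p n) ^ (k n + 1) := by
    intro n y hy
    have h1 := hcm n y hy
    have h2 : j n + k n ≤ n := hjk1 n
    exact rnd_hitC p β _ _ y (by change j n + y.length + k n = n; omega)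
  have hlam : ∀ n, ∑ y ∈ cells n, (rnd fun x => p x.length).real (hitC β (j n) (k n) y) =
      if w β (p n) ≤ 1 / 2 then 2 ^ (n - j n - k n) * w β (p n) ^ (k n + 1) else 0 := by
    intro n
    rw [sum_congr rfl (hη n), sum_const, nsmul_eq_mul, hcells]
    simp only
    split_ifs with h
    · rw [card_strs]
      push_cast
      ring
    · simp
  have hmain := null_of_blocks (fun x => p x.length) cells
    (fun n => cellC (j n) (k n)) (fun n => hitC β (j n) (k n)) R ρ
    (fun n y _ => depOn_hitC β (j n) (k n) y)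
    (fun n y hy x hx => by
      simp only [cellC, mem_image, mem_range] at hx
      obtain ⟨i, hi, rfl⟩ := hx
      have h1 := hcm n y hy
      have h2 : j n + k n ≤ n := hjk1 n
      rw [length_cs (by omega)]
      change j n + y.length + k n = n
      omega)
    (fun n y hy y' hy' h => disjoint_cellC ((hcm n y hy).trans (hcm n y' hy').symm) h)
    hR n₀
    (fun n hn A hA hno P hP hk' => by
      by_cases hw : w β (p n) ≤ 1 / 2
      · have e1 : ∑ y ∈ P, (rnd fun x => p x.length).real (hitC β (j n) (k n) y) =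
            P.card * w β (p n) ^ (k n + 1) := by
          rw [sum_congr rfl fun y hy => hη n y (hP hy), sum_const, nsmul_eq_mul]
        rw [e1, hlam n, if_pos hw]
        have hno' : ∀ z : List Bool, z.length = n - j n - k n → A ∉ hitC β (j n) (k n) z := by
          intro z hz
          apply hno
          rw [hcells]
          simp only [if_pos hw]
          exact mem_strs.2 hz
        have e2 := hb n A hA hno' P fun z hz => ⟨hcm n z (hP hz), hk' z hz⟩
        have e3 : 128 * r n ≤ 2 ^ (n / 4) := hn₁ n ((le_max_left _ _).trans hn)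
        have e4 := (hjk2 n ((le_max_right _ _).trans hn) hw).2.2
        change (2 : ℝ) ^ (n / 4) ≤ 16 * 2 ^ (n - j n - k n) at e4
        have e5 : (128 : ℝ) * r n ≤ 2 ^ (n / 4) := by exact_mod_cast e3
        have e6 : (P.card : ℝ) ≤ r n := by exact_mod_cast e2
        have e7 : (P.card : ℝ) ≤ (1 / 8) * 2 ^ (n - j n - k n) := by linarith
        rw [← mul_assoc]
        exact mul_le_mul_of_nonneg_right e7 (pow_nonneg (w_nonneg _ _) _)
      · have e1 : P = ∅ := by
          rw [hcells] at hP
          simp only [if_neg hw] at hP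
          exact subset_empty.1 hP
        rw [e1, sum_empty]
        exact mul_nonneg (by norm_num) (sum_nonneg fun _ _ => measureReal_nonneg))
    (fun n hn => by
      rw [hlam n]
      split_ifs with hw
      · exact (hjk2 n ((le_max_right _ _).trans hn) hw).1
      · norm_num)
    (by
      intro hsum
      apply hs
      have h1 : Summable fun n => min (if w β (p n) ≤ 1 / 2 then 2 ^ n * w β (p n) else 0)
          (1 / 16 : ℝ) := by
        rw [← summable_nat_add_iff 16] at hsum ⊢
        refine Summable.of_nonneg_of_le (fun n => ?_) (fun n => ?_) hsum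
        · refine le_min ?_ (by norm_num)
          split_ifs
          · exact mul_nonneg (by positivity) (w_nonneg _ _)
          · exact le_rfl
        · rw [hlam]
          split_ifs with hw
          · exact (hjk2 (n + 16) (by omega) hw).2.1
          · exact min_le_left _ _
      exact summable_of_min (by norm_num) h1)
  refine measure_mono_null (fun A hA => ?_) hmain
  intro n _
  exact hA n

end Pool.Agent.H20RD
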