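import Mathlib.Data.Nat.Choose.Central
import Mathlib.Data.Nat.Choose.Sum
import Mathlib.LinearAlgebra.FiniteDimensional.Basic
import Mathlib.LinearAlgebra.Dimension.Finrank
import Mathlib.LinearAlgebra.Dimension.Constructions
import Mathlib.LinearAlgebra.Dimension.FreeAndStrongRankCondition
import Mathlib.Tactic

/-!
# Signs of polynomials of low degree differ from the parity at many places
(Aspnes, Beigel, Furst and Rudich)
-/

set_option autoImplicit false

namespace Pool.Agent.H20RD.Abfr

open Finset

variable {α : Type} [DecidableEq α]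

/-- the monomials, as functions of sets -/
def mono (D X : Finset α) : ℝ := if D ⊆ X then 1 else 0

/-- functions of degree at most `d` -/
def Deg (d : ℕ) (f : Finset α → ℝ) : Prop :=
  f ∈ Submodule.span ℝ {g : Finset α → ℝ | ∃ D : Finset α, D.card ≤ d ∧ g = mono D}

theorem Deg.le {d d' : ℕ} {f : Finset α → ℝ} (h : Deg d f) (hd : d ≤ d') : Deg d' f := by
  refine Submodule.span_mono ?_ h
  rintro g ⟨D, h1, h2⟩
  exact ⟨D, h1.trans hd, h2⟩

theorem Deg.mono {d : ℕ} {D : Finset α} (h : D.card ≤ d) : Deg d (mono D) :=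
  Submodule.subset_span ⟨D, h, rfl⟩

theorem Deg.smul {d : ℕ} {f : Finset α → ℝ} (h : Deg d f) (c : ℝ) : Deg d fun X => c * f X :=
  Submodule.smul_mem _ c h

theorem Deg.add {d : ℕ} {f g : Finset α → ℝ} (h : Deg d f) (h' : Deg d g) :
    Deg d fun X => f X + g X := Submodule.add_mem _ h h'

theorem Deg.sub {d : ℕ} {f g : Finset α → ℝ} (h : Deg d f) (h' : Deg d g) :
    Deg d fun X => f X - g X := Submodule.sub_mem _ h h'

theorem Deg.const {d : ℕ} (c : ℝ) : Deg d fun _ : Finset α => c := by
  have h := (Deg.mono (α := α) (d := d) (D := ∅) (by simp)).smul c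
  have h2 : (fun X : Finset α => c * Abfr.mono ∅ X) = fun _ => c := by
    funext X
    simp [Abfr.mono]
  rwa [h2] at h

theorem Deg.sum {d : ℕ} {ι : Type} {I : Finset ι} {f : ι → Finset α → ℝ}
    (h : ∀ i ∈ I, Deg d (f i)) : Deg d fun X => ∑ i ∈ I, f i X := by
  have h1 := Submodule.sum_mem _ h
  have h2 : (fun X => ∑ i ∈ I, f i X) = ∑ i ∈ I, f i := by
    funext X
    rw [Finset.sum_apply]
  rw [h2]
  exact h1

theorem mono_mul (D D' X : Finset α) : mono D X * mono D' X = mono (D ∪ D') X := by
  unfold mono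
  simp only [union_subset_iff]
  by_cases h : D ⊆ X <;> by_cases h' : D' ⊆ X <;> simp [h, h']

theorem Deg.mul {a b : ℕ} {f g : Finset α → ℝ} (hf : Deg a f) (hg : Deg b g) :
    Deg (a + b) fun X => f X * g X := by
  have key : ∀ D : Finset α, D.card ≤ a → Deg (a + b) fun X => Abfr.mono D X * g X := by
    intro D hD
    refine Submodule.span_induction (p := fun g _ => Deg (a + b) fun X => Abfr.mono D X * g X)
      ?_ ?_ ?_ ?_ hg
    · rintro g ⟨D', h1, rfl⟩
      have h2 : (fun X => Abfr.mono D X * Abfr.mono D' X) = Abfr.mono (D ∪ D') := by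
        funext X
        exact mono_mul D D' X
      rw [h2]
      exact Deg.mono ((card_union_le _ _).trans (by omega))
    · simpa using Deg.const (α := α) (d := a + b) 0
    · intro g g' _ _ h h'
      have := h.add h'
      simpa only [Pi.add_apply, mul_add] using this
    · intro c g _ h
      have := h.smul c
      refine cast (congrArg _ (funext fun X => ?_)) this
      simp only [Pi.smul_apply, smul_eq_mul]
      ring
  refine Submodule.span_induction (p := fun f _ => Deg (a + b) fun X => f X * g X)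
    ?_ ?_ ?_ ?_ hf
  · rintro f ⟨D, h1, rfl⟩
    exact key D h1
  · simpa using Deg.const (α := α) (d := a + b) 0
  · intro f f' _ _ h h'
    have := h.add h'
    simpa only [Pi.add_apply, add_mul] using this
  · intro c f _ h
    have := h.smul c
    refine cast (congrArg _ (funext fun X => ?_)) this
    simp only [Pi.smul_apply, smul_eq_mul]
    ring

/-- the parity is orthogonal to functions of low degree -/
theorem orth {d : ℕ} {f : Finset α → ℝ} (hf : Deg d f) {S : Finset α} (hd : d < S.card) :
    ∑ X ∈ S.powerset, (-1) ^ X.card * f X = 0 := by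
  refine Submodule.span_induction
    (p := fun f _ => ∑ X ∈ S.powerset, (-1) ^ X.card * f X = 0) ?_ ?_ ?_ ?_ hf
  · rintro f ⟨D, h1, rfl⟩
    obtain ⟨a, ha, ha'⟩ : ∃ a ∈ S, a ∉ D := by
      by_contra hc
      push Not at hc
      have := card_le_card (show S ⊆ D from hc)
      omega
    refine sum_involution (fun X _ => if a ∈ X then X.erase a else insert a X) ?_ ?_ ?_ ?_
    · intro X hX
      by_cases h : a ∈ X
      · simp only [h, if_true]
        have e1 : D ⊆ X.erase a ↔ D ⊆ X := by
          rw [subset_erase]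
          exact and_iff_left ha'
        have e2 : X.card = (X.erase a).card + 1 := (card_erase_add_one h).symm
        unfold mono
        rw [e2, pow_succ]
        simp only [e1]
        ring
      · simp only [h, if_false]
        have e1 : D ⊆ insert a X ↔ D ⊆ X := subset_insert_iff_of_notMem ha'
        unfold mono
        rw [card_insert_of_notMem h, pow_succ]
        simp only [e1]
        ring
    · intro X hX _ he
      by_cases h : a ∈ X
      · simp only [h, if_true] at he
        rw [← he] at h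
        simp at h
      · simp only [h, if_false] at he
        rw [← he] at h
        simp at h
    · intro X hX
      rw [mem_powerset] at hX ⊢
      split_ifs
      · exact (erase_subset _ _).trans hX
      · exact insert_subset ha hX
    · intro X hX
      by_cases h : a ∈ X
      · simp [h]
      · simp [h]
  · simp
  · intro f g _ _ h h'
    simp only [Pi.add_apply, mul_add, sum_add_distrib, h, h', add_zero]
  · intro c f _ h
    simp only [Pi.smul_apply, smul_eq_mul]
    have : ∀ X : Finset α, (-1 : ℝ) ^ X.card * (c * f X) = c * ((-1) ^ X.card * f X) :=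
      fun X => by ring
    simp only [this, ← mul_sum, h, mul_zero]

theorem card_low (S : Finset α) (t : ℕ) :
    (S.powerset.filter fun D => D.card ≤ t).card = ∑ i ∈ range (t + 1), S.card.choose i := by
  have h : (S.powerset.filter fun D => D.card ≤ t) =
      (range (t + 1)).biUnion fun i => S.powersetCard i := by
    ext D
    simp only [mem_filter, mem_powerset, mem_biUnion, mem_range, mem_powersetCard]
    constructor
    · rintro ⟨h1, h2⟩
      exact ⟨D.card, by omega, h1, rfl⟩
    · rintro ⟨i, h1, h2, h3⟩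
      exact ⟨h2, by omega⟩
  rw [h, card_biUnion]
  · simp
  · intro i _ j _ hij
    exact pairwise_disjoint_powersetCard S hij

/-- functions of low degree vanishing at few places -/
theorem exists_vanish {S : Finset α} {t : ℕ} {W : Finset (Finset α)}
    (hW : W.card < ∑ i ∈ range (t + 1), S.card.choose i) :
    ∃ g : Finset α → ℝ, Deg t g ∧ (∀ X ∈ W, g X = 0) ∧ ∃ X ∈ S.powerset, g X ≠ 0 := by
  classical
  set M := S.powerset.filter fun D => D.card ≤ t with hM
  rw [← card_low, ← hM] at hW
  let Φ : (M → ℝ) →ₗ[ℝ] (W → ℝ) :=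
    { toFun := fun c X => ∑ D : M, c D * mono D.1 X.1
      map_add' := by
        intro c c'
        funext X
        simp only [Pi.add_apply, add_mul, sum_add_distrib]
      map_smul' := by
        intro r c
        funext X
        simp only [Pi.smul_apply, smul_eq_mul, RingHom.id_apply, mul_sum, mul_assoc] }
  have hker : LinearMap.ker Φ ≠ ⊥ := by
    apply LinearMap.ker_ne_bot_of_finrank_lt
    simpa using hW
  obtain ⟨c, hc, hc0⟩ := (Submodule.ne_bot_iff _).1 hker
  rw [LinearMap.mem_ker] at hc
  refine ⟨fun X => ∑ D : M, c D * mono D.1 X, ?_, ?_, ?_⟩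
  · refine Deg.sum fun D _ => (Deg.mono ?_).smul _
    exact (mem_filter.1 D.2).2
  · intro X hX
    exact congrFun hc ⟨X, hX⟩
  · have hne : (univ.filter fun D : M => c D ≠ 0).Nonempty := by
      by_contra he
      rw [not_nonempty_iff_eq_empty, filter_eq_empty_iff] at he
      apply hc0
      funext D
      simpa using he (mem_univ D)
    obtain ⟨D₀, h1, h2⟩ := exists_min_image _ (fun D : M => D.1.card) hne
    refine ⟨D₀.1, (mem_filter.1 D₀.2).1, ?_⟩
    change ∑ D : M, c D * mono D.1 D₀.1 ≠ 0
    rw [sum_eq_single D₀]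
    · simpa [mono] using (mem_filter.1 h1).2
    · intro D _ hD
      by_cases h3 : D.1 ⊆ D₀.1
      · have h4 : D.1.card < D₀.1.card := by
          refine card_lt_card (Finset.ssubset_iff_subset_ne.2 ⟨h3, fun h => hD (Subtype.ext h)⟩)
        have h5 : c D = 0 := by
          by_contra h6
          have := h2 D (mem_filter.2 ⟨mem_univ _, h6⟩)
          omega
        rw [h5, zero_mul]
      · simp [mono, h3]
    · intro h
      exact absurd (mem_univ _) h

/-- **The sign of a function of low degree differs from the parity at many places.** -/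
theorem abfr {S : Finset α} {d t : ℕ} {q : Finset α → ℝ} (hq : Deg d q)
    (ht : 2 * t + d < S.card) (W : Finset (Finset α))
    (hW : ∀ X ∈ S.powerset, X ∉ W → (Odd X.card ↔ 0 < q X)) :
    ∑ i ∈ range (t + 1), S.card.choose i ≤ W.card := by
  by_contra hc
  rw [not_le] at hc
  obtain ⟨g, h1, h2, X₀, h3, h4⟩ := exists_vanish hc
  have h5 : Deg (t + t + d) fun X => g X * g X * q X := (h1.mul h1).mul hq
  have h6 := orth h5 (S := S) (by omega)
  have h7 : ∀ X ∈ S.powerset, (-1) ^ X.card * (g X * g X * q X) ≤ 0 := by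
    intro X hX
    by_cases hXW : X ∈ W
    · rw [h2 X hXW]
      simp
    · have h8 := hW X hX hXW
      rcases Nat.even_or_odd X.card with h9 | h9
      · rw [h9.neg_one_pow, one_mul]
        have h10 : q X ≤ 0 := by
          rw [← not_lt, ← h8, Nat.not_odd_iff_even]
          exact h9
        exact mul_nonpos_of_nonneg_of_nonpos (mul_self_nonneg _) h10
      · rw [h9.neg_one_pow]
        have h10 := h8.1 h9
        have := mul_nonneg (mul_self_nonneg (g X)) h10.le
        linarith
  have h8 := (sum_eq_zero_iff_of_nonpos h7).1 h6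
  have h9 : ∀ X ∈ S.powerset, Odd X.card → g X = 0 := by
    intro X hX hodd
    by_cases hXW : X ∈ W
    · exact h2 X hXW
    · have h10 := (hW X hX hXW).1 hodd
      have h11 := h8 X hX
      have h12 : (-1 : ℝ) ^ X.card ≠ 0 := pow_ne_zero _ (by norm_num)
      rcases mul_eq_zero.1 h11 with h | h
      · exact absurd h h12
      · rcases mul_eq_zero.1 h with h | h
        · exact mul_self_eq_zero.1 h
        · exact absurd h h10.ne'
  have h10 := orth (h1.mul h1) (S := S) (by omega)
  have h11 : ∀ X ∈ S.powerset, 0 ≤ (-1) ^ X.card * (g X * g X) := by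
    intro X hX
    rcases Nat.even_or_odd X.card with h | h
    · rw [h.neg_one_pow, one_mul]
      exact mul_self_nonneg _
    · rw [h9 X hX h]
      simp
  have h12 := (sum_eq_zero_iff_of_nonneg h11).1 h10 X₀ h3
  have h13 : (-1 : ℝ) ^ X₀.card ≠ 0 := pow_ne_zero _ (by norm_num)
  rcases mul_eq_zero.1 h12 with h | h
  · exact h13 h
  · exact h4 (mul_self_eq_zero.1 h)

/-! ### Binomial coefficients -/

theorem central (k : ℕ) : (3 * k + 1) * k.centralBinom ^ 2 ≤ 16 ^ k := by
  induction k with
  | zero => simp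
  | succ k ih =>
    have h := Nat.succ_mul_centralBinom_succ k
    have h1 : (k + 1) ^ 2 * (k + 1).centralBinom ^ 2 = 4 * (2 * k + 1) ^ 2 * k.centralBinom ^ 2 := by
      rw [← mul_pow, h]
      ring
    have h2 : (2 * k + 1) ^ 2 * (3 * (k + 1) + 1) ≤ 4 * (k + 1) ^ 2 * (3 * k + 1) := by
      nlinarith
    have h3 : (k + 1) ^ 2 * ((3 * (k + 1) + 1) * (k + 1).centralBinom ^ 2) ≤
        (k + 1) ^ 2 * 16 ^ (k + 1) := by
      calc (k + 1) ^ 2 * ((3 * (k + 1) + 1) * (k + 1).centralBinom ^ 2)
          = (3 * (k + 1) + 1) * ((k + 1) ^ 2 * (k + 1).centralBinom ^ 2) := by ring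
        _ = 4 * ((2 * k + 1) ^ 2 * (3 * (k + 1) + 1)) * k.centralBinom ^ 2 := by rw [h1]; ring
        _ ≤ 4 * (4 * (k + 1) ^ 2 * (3 * k + 1)) * k.centralBinom ^ 2 := by gcongr
        _ = 16 * (k + 1) ^ 2 * ((3 * k + 1) * k.centralBinom ^ 2) := by ring
        _ ≤ 16 * (k + 1) ^ 2 * 16 ^ k := by gcongr
        _ = (k + 1) ^ 2 * 16 ^ (k + 1) := by ring
    exact Nat.le_of_mul_le_mul_left h3 (by positivity)

theorem middle (m : ℕ) : m * m.choose (m / 2) ^ 2 ≤ 4 ^ m := by
  rcases Nat.even_or_odd' m with ⟨k, rfl | rfl⟩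
  · have h := central k
    rw [Nat.mul_div_cancel_left _ two_pos]
    rw [Nat.centralBinom] at h
    calc 2 * k * (2 * k).choose k ^ 2 ≤ (3 * k + 1) * (2 * k).choose k ^ 2 :=
          Nat.mul_le_mul_right _ (by omega)
      _ ≤ 16 ^ k := h
      _ = 4 ^ (2 * k) := by rw [pow_mul]; norm_num
  · have h := central (k + 1)
    have e1 : (2 * k + 1) / 2 = k := by omega
    rw [e1]
    have e2 : (k + 1).centralBinom = 2 * (2 * k + 1).choose k := by
      rw [Nat.centralBinom, show 2 * (k + 1) = (2 * k + 1) + 1 by ring, Nat.choose_succ_succ,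
        Nat.choose_symm_half]
      ring
    rw [e2] at h
    have h2 : 4 * ((2 * k + 1) * (2 * k + 1).choose k ^ 2) ≤ 4 * 4 ^ (2 * k + 1) := by
      calc 4 * ((2 * k + 1) * (2 * k + 1).choose k ^ 2)
          ≤ (3 * (k + 1) + 1) * (2 * (2 * k + 1).choose k) ^ 2 := by
            have : (2 * k + 1) * (2 * k + 1).choose k ^ 2 ≤
              (3 * (k + 1) + 1) * (2 * k + 1).choose k ^ 2 := Nat.mul_le_mul_right _ (by omega)
            nlinarith
        _ ≤ 16 ^ (k + 1) := h
        _ = 4 * 4 ^ (2 * k + 1) := by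
            rw [show (16 : ℕ) = 4 ^ 2 by norm_num, ← pow_mul, ← pow_succ']
            congr 1
    omega

theorem half (m : ℕ) : 2 ^ m ≤ 2 * ∑ i ∈ range (m / 2 + 1), m.choose i := by
  have h1 : ∑ i ∈ range (m + 1), m.choose i = 2 ^ m := Nat.sum_range_choose m
  have h2 : ∑ i ∈ range (m + 1), m.choose i = ∑ i ∈ range (m / 2 + 1), m.choose i +
      ∑ i ∈ Ico (m / 2 + 1) (m + 1), m.choose i := by
    rw [range_eq_Ico, range_eq_Ico, sum_Ico_consecutive _ (by omega) (by omega)]
  have h3 : ∑ i ∈ Ico (m / 2 + 1) (m + 1), m.choose i ≤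
      ∑ i ∈ range (m / 2 + 1), m.choose i := by
    have e : ∑ i ∈ Ico (m / 2 + 1) (m + 1), m.choose i =
        ∑ i ∈ (Ico (m / 2 + 1) (m + 1)).image (fun i => m - i), m.choose i := by
      rw [sum_image]
      · refine sum_congr rfl fun i hi => ?_
        rw [mem_Ico] at hi
        exact (Nat.choose_symm (by omega)).symm
      · intro i hi j hj h
        rw [mem_coe, mem_Ico] at hi hj
        simp only at h
        omega
    rw [e]
    refine sum_le_sum_of_subset ?_
    intro j hj
    rw [mem_image] at hj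
    obtain ⟨i, hi, rfl⟩ := hj
    rw [mem_Ico] at hi
    rw [mem_range]
    omega
  omega

theorem low_sum {m d : ℕ} (h : 4 * (d + 2) ^ 2 ≤ m) :
    2 ^ m ≤ 4 * ∑ i ∈ range ((m - d - 1) / 2 + 1), m.choose i := by
  set t := (m - d - 1) / 2 with ht
  have hdm : d + 2 ≤ m := by nlinarith
  have h1 := half m
  have h2 : ∑ i ∈ range (m / 2 + 1), m.choose i = ∑ i ∈ range (t + 1), m.choose i +
      ∑ i ∈ Ico (t + 1) (m / 2 + 1), m.choose i := by
    rw [range_eq_Ico, range_eq_Ico, sum_Ico_consecutive _ (by omega) (by omega)]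
  have h3 : ∑ i ∈ Ico (t + 1) (m / 2 + 1), m.choose i ≤ (m / 2 - t) * m.choose (m / 2) := by
    refine (sum_le_sum fun i _ => Nat.choose_le_middle i m).trans ?_
    rw [sum_const, Nat.card_Ico, smul_eq_mul]
    exact Nat.mul_le_mul_right _ (by omega)
  have h4 : 2 * (m / 2 - t) ≤ d + 2 := by omega
  have h5 : 2 * (d + 2) * m.choose (m / 2) ≤ 2 ^ m := by
    have h6 := middle m
    have h7 : (2 * (d + 2) * m.choose (m / 2)) ^ 2 ≤ (2 ^ m) ^ 2 := by
      calc (2 * (d + 2) * m.choose (m / 2)) ^ 2
          = 4 * (d + 2) ^ 2 * m.choose (m / 2) ^ 2 := by ring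
        _ ≤ m * m.choose (m / 2) ^ 2 := Nat.mul_le_mul_right _ h
        _ ≤ 4 ^ m := h6
        _ = (2 ^ m) ^ 2 := by
            rw [← pow_mul, mul_comm m 2, pow_mul]
            norm_num
    exact (Nat.pow_le_pow_iff_left (by norm_num)).1 h7
  have h8 : 2 * ((m / 2 - t) * m.choose (m / 2)) ≤ (d + 2) * m.choose (m / 2) := by
    rw [← mul_assoc]
    exact Nat.mul_le_mul_right _ h4
  have h9 : 2 * (d + 2) * m.choose (m / 2) = 2 * ((d + 2) * m.choose (m / 2)) := by ring
  omega

/-- a quarter of the places -/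
theorem quarter {S : Finset α} {d : ℕ} {q : Finset α → ℝ} (hq : Deg d q)
    (h : 4 * (d + 2) ^ 2 ≤ S.card) (W : Finset (Finset α))
    (hW : ∀ X ∈ S.powerset, X ∉ W → (Odd X.card ↔ 0 < q X)) : 2 ^ S.card ≤ 4 * W.card := by
  have hdm : d + 2 ≤ S.card := by nlinarith
  have h1 := abfr (t := (S.card - d - 1) / 2) hq (by omega) W hW
  have h2 := low_sum h
  omega

end Pool.Agent.H20RD.Abfr
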