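import Pool.Agent.H20RD.Kinds

/-!
# Subexponential quantum time with advice
-/

set_option autoImplicit false

namespace Pool.Agent.H20RD

open Pool.Agent.NPC Pool.Agent.H622R2 Pool.Agent.H620R2.Gauge Pool.Agent.H9x.Q MeasureTheory Filter
  Asymptotics

theorem poly_exp (q : Polynomial ℕ) : ∃ C, ∀ X j, X ≤ 2 ^ j → q.eval X ≤ 2 ^ (C * (j + 1)) := by
  induction q using Polynomial.induction_on' with
  | add p q hp hq =>
    obtain ⟨a, ha⟩ := hp
    obtain ⟨b, hb⟩ := hq
    refine ⟨a + b + 1, fun X j h => ?_⟩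
    have h1 := (ha X j h).trans (Nat.pow_le_pow_right two_pos
      (show _ ≤ (a + b) * (j + 1) by nlinarith))
    have h2 := (hb X j h).trans (Nat.pow_le_pow_right two_pos
      (show _ ≤ (a + b) * (j + 1) by nlinarith))
    have h3 := Nat.pow_le_pow_right two_pos
      (show (a + b) * (j + 1) + 1 ≤ (a + b + 1) * (j + 1) by nlinarith)
    rw [Polynomial.eval_add]
    omega
  | monomial n a =>
    refine ⟨a + n, fun X j h => ?_⟩
    rw [Polynomial.eval_monomial]
    refine (Nat.mul_le_mul Nat.lt_two_pow_self.le (Nat.pow_le_pow_left h n)).trans ?_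
    rw [← pow_mul, ← pow_add]
    exact Nat.pow_le_pow_right two_pos (by nlinarith)

theorem card_short (s : ℕ) : (short s).card ≤ 2 ^ (s + 1) := by
  classical
  have h1 : short s ⊆ (Finset.range (s + 1)).biUnion strs := by
    intro x hx
    rw [mem_short] at hx
    exact Finset.mem_biUnion.2 ⟨x.length, Finset.mem_range.2 (by omega), mem_strs.2 rfl⟩
  refine (Finset.card_le_card h1).trans (Finset.card_biUnion_le.trans ?_)
  simp only [card_strs]
  have h2 : ∀ s, ∑ i ∈ Finset.range (s + 1), 2 ^ i + 1 = 2 ^ (s + 1) := by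
    intro s
    induction s with
    | zero => simp
    | succ s ih => rw [Finset.sum_range_succ, pow_succ 2 (s + 1), ← ih]; ring
  have := h2 s
  omega

/-- the input with advice and padding -/
def pad (x a : List Bool) (t : ℕ) : List Bool :=
  pairBits x (pairBits a (List.replicate (2 ^ t) true))

theorem length_pad (x a : List Bool) (t : ℕ) :
    (pad x a t).length = 2 * x.length + 2 * a.length + 2 ^ t + 2 := by
  unfold pad
  rw [A2.length_pairBits, A2.length_pairBits, List.length_replicate]
  omega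

/-- the answer is right -/
def Right (F : QFamily) (A : Oracle) (u : List Bool) (b : Prop) : Prop :=
  (b → 2 / 3 ≤ F.acc A u) ∧ (¬ b → F.acc A u ≤ 1 / 3)

/-- few cells can be found -/
theorem few_found (F : QFamily) {T : ℕ} {β : Bool} {j k m : ℕ} {O A : Oracle}
    (u : ℕ → List Bool) (hT : ∀ l < m, (F.circ (u l).length).length ≤ T)
    (hno : ∀ z : List Bool, z.length = m → A ∉ hitC β j k z) (P : Finset (List Bool))
    (A' : List Bool → Oracle) (hP : ∀ z ∈ P, z.length = m)
    (h1 : ∀ z ∈ P, ∀ x, x ∉ cellC j k z → A' z x = A x)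
    (h2 : ∀ z ∈ P, A' z ∈ hitC β j k z)
    (h3 : ∀ z ∈ P, ∀ l < m, Right F (join O (A' z)) (u l) (inq l j k m ∈ LangQ β (A' z))) :
    P.card ≤ 1 + m * (576 * T ^ 2) := by
  classical
  set y : List Bool := (List.range m).map fun l => decide (1 / 2 ≤ F.acc (join O A) (u l)) with hy
  set N : ℕ → Finset (List Bool) := fun l =>
    P.filter fun z => 1 / 6 ≤ |F.acc (join O (A' z)) (u l) - F.acc (join O A) (u l)| with hN
  have hcov : P ⊆ {y} ∪ (Finset.range m).biUnion N := by
    intro z hz
    rw [Finset.mem_union, Finset.mem_singleton, Finset.mem_biUnion]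
    by_contra hc
    push Not at hc
    obtain ⟨hc1, hc2⟩ := hc
    apply hc1
    have hzl := hP z hz
    refine List.ext_getElem (by rw [hzl, hy]; simp) fun l k1 k2 => ?_
    have hl : l < m := by rw [hzl] at k1; exact k1
    have e1 : ¬ (1 / 6 ≤ |F.acc (join O (A' z)) (u l) - F.acc (join O A) (u l)|) := fun h =>
      hc2 l (Finset.mem_range.2 hl) (Finset.mem_filter.2 ⟨hz, h⟩)
    rw [not_le, abs_lt] at e1
    have e2 := h3 z hz l hl
    have e3 := langQ_one (i := l) hzl hno (h1 z hz) (h2 z hz)
    have e4 : z.getD l false = z[l] := List.getD_eq_getElem _ _ k1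
    rw [e4] at e3
    simp only [hy, List.getElem_map, List.getElem_range]
    by_cases hb : z[l] = true
    · have e5 := e2.1 (e3.2 hb)
      rw [hb, eq_comm, decide_eq_true_eq]
      linarith
    · have e5 := e2.2 fun h => hb (e3.1 h)
      rw [Bool.not_eq_true] at hb
      rw [hb, eq_comm, decide_eq_false_iff_not, not_le]
      linarith
  have hone : ∀ l ∈ Finset.range m, (N l).card ≤ 576 * T ^ 2 := by
    intro l hl
    rw [Finset.mem_range] at hl
    refine (card_noticed (join O A) (F.circ (u l).length)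
      (ket (inp ((u l).length + 1 + F.anc.eval (u l).length) (u l)))
      (ket_norm _) (N l) (fun z => join O (A' z)) ?_ fun z hz => (Finset.mem_filter.1 hz).2).trans ?_
    · exact join_cells (fun t ht => hP t (Finset.mem_filter.1 ht).1)
        fun t ht => h1 t (Finset.mem_filter.1 ht).1
    · exact Nat.mul_le_mul_left _ (Nat.pow_le_pow_left (hT l hl) 2)
  refine (Finset.card_le_card hcov).trans ((Finset.card_union_le _ _).trans ?_)
  rw [Finset.card_singleton]
  refine Nat.add_le_add_left (Finset.card_biUnion_le.trans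
    ((Finset.sum_le_sum hone).trans ?_)) 1
  rw [Finset.sum_const, Finset.card_range, smul_eq_mul]

/-- the numbers -/
theorem num {C c n s : ℕ} (hc : c = 4 * (2 * C + 4)) (hs : s = n / c) (T : ℕ)
    (hT : T ≤ 2 ^ (C * (s + (8 * c + 11) + 1)))
    (hn : (3 * c + 50) * (C + 1) * 20 ≤ s) :
    128 * (2 ^ (s + 1) * ((s + 1) * (1 + n * (576 * T ^ 2)))) ≤ 2 ^ (n / 4) := by
  have hcpos : 0 < c := by omega
  have h1 : c * s ≤ n := by rw [hs]; exact Nat.mul_div_le n c
  have h2 : n < c * (s + 1) := by rw [hs]; exact Nat.lt_mul_div_succ n hcpos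
  have h3 : s + 1 ≤ 2 ^ s := Nat.lt_two_pow_self
  have h4 : c ≤ 2 ^ c := Nat.lt_two_pow_self.le
  have h5 : n ≤ 2 ^ (c + s) := by
    rw [pow_add]
    exact h2.le.trans (Nat.mul_le_mul h4 h3)
  have h6 : T ^ 2 ≤ 2 ^ (2 * (C * (s + (8 * c + 11) + 1))) := by
    rw [mul_comm 2, pow_mul]
    exact Nat.pow_le_pow_left hT 2
  have h7 : 1 + n * (576 * T ^ 2) ≤ 2 ^ (c + s + 11 + 2 * (C * (s + (8 * c + 11) + 1))) := by
    have h8 : n * (576 * T ^ 2) ≤ 2 ^ (c + s) * (576 * 2 ^ (2 * (C * (s + (8 * c + 11) + 1)))) :=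
      Nat.mul_le_mul h5 (Nat.mul_le_mul_left _ h6)
    have h9 : 1 ≤ 2 ^ (c + s) * 2 ^ (2 * (C * (s + (8 * c + 11) + 1))) :=
      Nat.one_le_iff_ne_zero.2 (by positivity)
    rw [pow_add, pow_add (a := 2) (m := c + s) (n := 11)]
    nlinarith
  have h10 : 128 * (2 ^ (s + 1) * ((s + 1) * (1 + n * (576 * T ^ 2)))) ≤
      2 ^ 7 * (2 ^ (s + 1) * (2 ^ s * 2 ^ (c + s + 11 + 2 * (C * (s + (8 * c + 11) + 1))))) := by
    refine Nat.mul_le_mul (by norm_num) (Nat.mul_le_mul_left _ (Nat.mul_le_mul h3 h7))
  refine h10.trans ?_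
  rw [← pow_add, ← pow_add, ← pow_add]
  refine Nat.pow_le_pow_right two_pos ?_
  rw [Nat.le_div_iff_mul_le (by norm_num)]
  have h11 : (2 * C + 4) * s * 4 ≤ n := by rw [hc] at h1; linarith
  refine le_trans ?_ h11
  refine Nat.mul_le_mul_right _ ?_
  nlinarith

theorem ae_adv (O : Oracle) (β : Bool) (p : ℕ → unitInterval)
    (hs : ¬ Summable fun n => if w β (p n) ≤ 1 / 2 then 2 ^ n * w β (p n) else 0) :
    ∀ᵐ A ∂(rnd fun x => p x.length), ¬ IsBQSub (join O A) (LangQ β A) := by
  classical
  obtain ⟨j, k, hjk, hbl⟩ := blocks β p hs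
  set m : ℕ → ℕ := fun n => n - j n - k n with hm
  set X : ℕ → ℕ → List Bool := fun n l => inq l (j n) (k n) (m n) with hX
  have hmn : ∀ n, m n ≤ n := fun n => by simp only [hm]; omega
  set Ln : ℕ → ℕ := fun n => 2 * (j n + k n) + 3 * m n + 4 with hLn
  have hXl : ∀ n, ∀ l < m n, (X n l).length = Ln n := fun n l hl => length_inq hl.le
  have hL1 : ∀ n, Ln n ≤ 3 * n + 4 := fun n => by
    have := hjk n
    simp only [hLn, hm]
    omega
  have hL2 : ∀ n, n ≤ Ln n := fun n => by
    have := hjk n
    simp only [hLn, hm]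
    omega
  have hall : ∀ F : QFamily, ∀ᵐ A ∂(rnd fun x => p x.length), ¬ ∃ (h : ℕ → List Bool) (t : ℕ → ℕ),
      ((fun n => ((h n).length : ℝ)) =o[atTop] fun n => (n : ℝ)) ∧
      ((fun n => (t n : ℝ)) =o[atTop] fun n => (n : ℝ)) ∧
      ∀ x : List Bool, Right F (join O A) (pad x (h x.length) (t x.length)) (x ∈ LangQ β A) := by
    intro F
    obtain ⟨P, hP⟩ := F.size
    obtain ⟨C, hC⟩ := poly_exp P
    set c : ℕ := 4 * (2 * C + 4) with hc
    have hcpos : 0 < c := by omega
    set s : ℕ → ℕ := fun n => n / c with hs'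
    -- the length of the inputs
    have hU : ∀ n a τ l, l < m n → a ∈ short (s n) → τ ≤ s n →
        (pad (X n l) a τ).length ≤ 2 ^ (s n + (8 * c + 11)) := by
      intro n a τ l hl ha hτ
      rw [mem_short] at ha
      rw [length_pad, hXl n l hl]
      have h1 := hL1 n
      have h2 : n < c * (s n + 1) := Nat.lt_mul_div_succ n hcpos
      have h3 : s n + 1 ≤ 2 ^ s n := Nat.lt_two_pow_self
      have h4 : 2 ^ τ ≤ 2 ^ s n := Nat.pow_le_pow_right two_pos hτ
      have h5 : 8 * c + 11 < 2 ^ (8 * c + 11) := Nat.lt_two_pow_self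
      have h6 : s n ≤ n := Nat.div_le_self n c
      have h7 : 2 * Ln n + 2 * a.length + 2 ^ τ + 2 ≤ 8 * n + 10 + 2 ^ s n := by omega
      refine h7.trans ?_
      rw [pow_add]
      have h8 : 8 * n + 10 + 2 ^ s n ≤ (8 * c + 11) * 2 ^ s n := by nlinarith
      refine h8.trans ?_
      rw [mul_comm]
      exact Nat.mul_le_mul_left _ h5.le
    set Tn : ℕ → ℕ := fun n => 2 ^ (C * (s n + (8 * c + 11) + 1)) with hTn
    have hsize : ∀ n a τ l, l < m n → a ∈ short (s n) → τ ≤ s n →
        P.eval (pad (X n l) a τ).length ≤ Tn n := fun n a τ l hl ha hτ => hC _ _ (hU n a τ l hl ha hτ)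
    have hnull : ∀ N : ℕ, rnd (fun x => p x.length) {A | ∀ n ≥ N, ∃ a ∈ short (s n), ∃ τ ≤ s n,
        ∀ l < m n, Right F (join O A) (pad (X n l) a τ) (X n l ∈ LangQ β A)} = 0 := by
      intro N
      have hmain := hbl (fun n => {A | N ≤ n → ∃ a ∈ short (s n), ∃ τ ≤ s n,
        ∀ l < m n, Right F (join O A) (pad (X n l) a τ) (X n l ∈ LangQ β A)})
        (fun n => max (Tn n) n)
        (fun n => if N ≤ n then 2 ^ (s n + 1) * ((s n + 1) * (1 + n * (576 * Tn n ^ 2)))
          else 2 ^ n) ?_ ?_ ?_
      · refine measure_mono_null (fun A hA => ?_) hmain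
        exact fun n hn => hA n hn
      · intro n
        have key : ∀ A A' : Oracle, (∀ x ∈ short (max (Tn n) n), A x = A' x) →
            (N ≤ n → ∃ a ∈ short (s n), ∃ τ ≤ s n,
              ∀ l < m n, Right F (join O A) (pad (X n l) a τ) (X n l ∈ LangQ β A)) →
            (N ≤ n → ∃ a ∈ short (s n), ∃ τ ≤ s n,
              ∀ l < m n, Right F (join O A') (pad (X n l) a τ) (X n l ∈ LangQ β A')) := by
          intro A A' h hA hn
          obtain ⟨a, ha, τ, hτ, h1⟩ := hA hn
          refine ⟨a, ha, τ, hτ, fun l hl => ?_⟩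
          have e1 : (X n l ∈ LangQ β A) = (X n l ∈ LangQ β A') :=
            propext (depOn_langQ (n := n) (by have := hjk n; simp only [hm]; omega) fun x hx =>
              h x (short_mono (le_max_right _ _) hx))
          have e2 : F.acc (join O A) (pad (X n l) a τ) = F.acc (join O A') (pad (X n l) a τ) := by
            refine prob_congr (fun y hy => ?_) _ (hP _).2 _ _
            refine join_congr h y ?_
            have h2 := hsize n a τ l hl ha hτ
            have h3 := le_max_left (Tn n) n
            omega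
          have h2 := h1 l hl
          unfold Right at h2 ⊢
          rw [e1, e2] at h2
          exact h2
        intro A A' h
        exact ⟨key A A' h, key A' A fun x hx => (h x hx).symm⟩
      · intro n A hA hno Q hQ
        by_cases hn : N ≤ n
        · rw [if_pos hn]
          choose! A' hA1 hA2 hA3 using fun z hz => (hQ z hz).2
          have hcov : Q ⊆ (short (s n)).biUnion fun a => (Finset.range (s n + 1)).biUnion fun τ =>
              Q.filter fun z => ∀ l < m n, Right F (join O (A' z)) (pad (X n l) a τ)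
                (X n l ∈ LangQ β (A' z)) := by
            intro z hz
            obtain ⟨a, ha, τ, hτ, h1⟩ := hA3 z hz hn
            exact Finset.mem_biUnion.2 ⟨a, ha, Finset.mem_biUnion.2
              ⟨τ, Finset.mem_range.2 (by omega), Finset.mem_filter.2 ⟨hz, h1⟩⟩⟩
          have hone : ∀ a ∈ short (s n), ∀ τ ∈ Finset.range (s n + 1),
              (Q.filter fun z => ∀ l < m n, Right F (join O (A' z)) (pad (X n l) a τ)
                (X n l ∈ LangQ β (A' z))).card ≤ 1 + n * (576 * Tn n ^ 2) := by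
            intro a ha τ hτ
            rw [Finset.mem_range] at hτ
            refine (few_found F (O := O) (A := A) (β := β) (j := j n) (k := k n) (m := m n)
              (T := Tn n) (fun l => pad (X n l) a τ)
              (fun l hl => (hP _).1.trans (hsize n a τ l hl ha (by omega))) hno _ A'
              (fun z hz => (hQ z (Finset.mem_filter.1 hz).1).1)
              (fun z hz => hA1 z (Finset.mem_filter.1 hz).1)
              (fun z hz => hA2 z (Finset.mem_filter.1 hz).1)
              (fun z hz => (Finset.mem_filter.1 hz).2)).trans ?_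
            exact Nat.add_le_add_left (Nat.mul_le_mul_right _ (hmn n)) _
          refine (Finset.card_le_card hcov).trans (Finset.card_biUnion_le.trans
            ((Finset.sum_le_sum fun a ha => Finset.card_biUnion_le.trans
              (Finset.sum_le_sum fun τ hτ => hone a ha τ hτ)).trans ?_))
          rw [Finset.sum_const, Finset.sum_const, Finset.card_range, smul_eq_mul, smul_eq_mul]
          exact Nat.mul_le_mul_right _ (card_short _)
        · rw [if_neg hn]
          have h1 : Q ⊆ strs (m n) := fun z hz => mem_strs.2 (hQ z hz).1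
          refine (Finset.card_le_card h1).trans ?_
          rw [card_strs]
          exact Nat.pow_le_pow_right two_pos (hmn n)
      · refine eventually_atTop.2 ⟨max N (c * ((3 * c + 50) * (C + 1) * 20)), fun n hn => ?_⟩
        rw [if_pos ((le_max_left _ _).trans hn)]
        refine num hc rfl (Tn n) le_rfl ?_
        rw [Nat.le_div_iff_mul_le hcpos, mul_comm]
        exact (le_max_right _ _).trans hn
    have hae : ∀ᵐ A ∂(rnd fun x => p x.length), ∀ N : ℕ, ¬ ∀ n ≥ N, ∃ a ∈ short (s n), ∃ τ ≤ s n,
        ∀ l < m n, Right F (join O A) (pad (X n l) a τ) (X n l ∈ LangQ β A) := by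
      rw [ae_all_iff]
      intro N
      refine measure_mono_null (fun A hA => ?_) (hnull N)
      simpa using hA
    filter_upwards [hae] with A hA
    rintro ⟨h, t, ho, hto, hx⟩
    -- eventually small
    have small : ∀ f : ℕ → ℕ, ((fun n => (f n : ℝ)) =o[atTop] fun n => (n : ℝ)) →
        ∃ N, ∀ n ≥ N, 8 * c * f n ≤ n := by
      intro f hf
      have h1 := hf.bound (c := 1 / (8 * c)) (by positivity)
      obtain ⟨N, hN⟩ := eventually_atTop.1 h1
      refine ⟨N, fun n hn => ?_⟩
      have h2 := hN n hn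
      simp only [Real.norm_natCast] at h2
      have h3 : (0 : ℝ) < 8 * c := by positivity
      rw [div_mul_eq_mul_div, one_mul, le_div_iff₀ h3] at h2
      have h4 : ((8 * c * f n : ℕ) : ℝ) ≤ (n : ℕ) := by
        push_cast
        linarith
      exact_mod_cast h4
    obtain ⟨N1, hN1⟩ := small (fun n => (h n).length) ho
    obtain ⟨N2, hN2⟩ := small t hto
    refine hA (max (max N1 N2) 1) fun n hn => ?_
    have hn1 : N1 ≤ n := (le_max_left _ _).trans ((le_max_left _ _).trans hn)
    have hn2 : N2 ≤ n := (le_max_right _ _).trans ((le_max_left _ _).trans hn)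
    have hn3 : 1 ≤ n := (le_max_right _ _).trans hn
    have h1 := hN1 (Ln n) (hn1.trans (hL2 n))
    have h2 := hN2 (Ln n) (hn2.trans (hL2 n))
    have h3 := hL1 n
    refine ⟨h (Ln n), mem_short.2 ?_, t (Ln n), ?_, fun l hl => ?_⟩
    · rw [Nat.le_div_iff_mul_le hcpos]
      nlinarith
    · rw [Nat.le_div_iff_mul_le hcpos]
      nlinarith
    · have h4 := hx (X n l)
      rw [hXl n l hl] at h4
      exact h4
  have h2 := ae_all_iff.2 hall
  filter_upwards [h2] with A hA
  rintro ⟨F, h, t, ho, hto, hx⟩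
  exact hA F ⟨h, t, ho, hto, hx⟩

end Pool.Agent.H20RD
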