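import Pool.Agent.H20RD.Abfr
import Mathlib.Analysis.SpecialFunctions.Exp
import Mathlib.Analysis.Complex.Exponential

/-!
# Sparse random sets as uniform random subsets of random sets
-/

set_option autoImplicit false

namespace Pool.Agent.H20RD.Abfr

open Finset

variable {α : Type} [DecidableEq α]

theorem weight_eq (e : ℝ) {U X : Finset α} (hX : X ⊆ U) :
    e ^ X.card * (1 - e) ^ (U.card - X.card) =
      ∑ S ∈ U.powerset.filter (fun S => X ⊆ S), e ^ S.card * (1 - 2 * e) ^ (U.card - S.card) := by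
  have h1 : U.card - X.card = (U \ X).card := (card_sdiff_of_subset hX).symm
  have h2 : (1 - e) = e + (1 - 2 * e) := by ring
  rw [h1, h2, ← sum_pow_mul_eq_add_pow, mul_sum]
  symm
  refine sum_nbij' (fun S => S \ X) (fun Y => X ∪ Y) ?_ ?_ ?_ ?_ ?_
  · intro S hS
    rw [mem_filter, mem_powerset] at hS
    rw [mem_powerset]
    exact sdiff_subset_sdiff hS.1 le_rfl
  · intro Y hY
    rw [mem_powerset] at hY
    rw [mem_filter, mem_powerset]
    exact ⟨union_subset hX (hY.trans sdiff_subset), subset_union_left⟩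
  · intro S hS
    rw [mem_filter] at hS
    exact union_sdiff_of_subset hS.2
  · intro Y hY
    rw [mem_powerset] at hY
    have : Disjoint Y X := (Finset.sdiff_disjoint (s := X) (t := U)).mono_left hY
    ext a
    simp only [mem_sdiff, mem_union]
    constructor
    · rintro ⟨h | h, h3⟩
      · exact absurd h h3
      · exact h
    · intro h
      exact ⟨Or.inr h, fun h3 => Finset.disjoint_left.1 this h h3⟩
  · intro S hS
    rw [mem_filter, mem_powerset] at hS
    have e1 : S.card = X.card + (S \ X).card := by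
      rw [card_sdiff_of_subset hS.2]
      have := card_le_card hS.2
      omega
    have e2 : U.card - S.card = (U \ X).card - (S \ X).card := by
      rw [← h1]
      omega
    rw [e2, e1, pow_add, mul_assoc]

theorem weight_sum (e : ℝ) (U : Finset α) (W : Finset (Finset α)) (hW : W ⊆ U.powerset) :
    ∑ X ∈ W, e ^ X.card * (1 - e) ^ (U.card - X.card) =
      ∑ S ∈ U.powerset, e ^ S.card * (1 - 2 * e) ^ (U.card - S.card) *
        (W.filter fun X => X ⊆ S).card := by
  have h1 : ∀ X ∈ W, e ^ X.card * (1 - e) ^ (U.card - X.card) =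
      ∑ S ∈ U.powerset, if X ⊆ S then e ^ S.card * (1 - 2 * e) ^ (U.card - S.card) else 0 := by
    intro X hX
    rw [weight_eq e (mem_powerset.1 (hW hX)), sum_filter]
  rw [sum_congr rfl h1, sum_comm]
  refine sum_congr rfl fun S _ => ?_
  rw [← sum_filter, sum_const, nsmul_eq_mul, mul_comm]

/-- many sets are in the family, with respect to the product measure, if this is true for the
uniform distribution on the subsets of all large sets -/
theorem weight_large {e : ℝ} (h0 : 0 ≤ e) (h1 : e ≤ 1 / 2) {U : Finset α}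
    {W : Finset (Finset α)} (hW : W ⊆ U.powerset) {K : ℕ}
    (hK : ∀ S ⊆ U, K ≤ S.card → 2 ^ S.card ≤ 4 * (W.filter fun X => X ⊆ S).card) :
    1 - 2 ^ K * (1 - e) ^ U.card ≤ 4 * ∑ X ∈ W, e ^ X.card * (1 - e) ^ (U.card - X.card) := by
  rw [weight_sum e U W hW, mul_sum]
  have e1 : ∑ S ∈ U.powerset, (2 * e) ^ S.card * (1 - 2 * e) ^ (U.card - S.card) = 1 := by
    rw [sum_pow_mul_eq_add_pow]
    norm_num
  have e2 : ∑ S ∈ U.powerset, e ^ S.card * (1 - 2 * e) ^ (U.card - S.card) =
      (1 - e) ^ U.card := by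
    rw [sum_pow_mul_eq_add_pow]
    congr 1
    ring
  have e3 : 1 - 2 ^ K * (1 - e) ^ U.card =
      ∑ S ∈ U.powerset, ((2 * e) ^ S.card * (1 - 2 * e) ^ (U.card - S.card) -
        2 ^ K * (e ^ S.card * (1 - 2 * e) ^ (U.card - S.card))) := by
    rw [sum_sub_distrib, ← mul_sum, e1, e2]
  rw [e3]
  refine sum_le_sum fun S hS => ?_
  have h2 : 0 ≤ e ^ S.card * (1 - 2 * e) ^ (U.card - S.card) :=
    mul_nonneg (pow_nonneg h0 _) (pow_nonneg (by linarith) _)
  have h3 : (2 * e) ^ S.card * (1 - 2 * e) ^ (U.card - S.card) =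
      2 ^ S.card * (e ^ S.card * (1 - 2 * e) ^ (U.card - S.card)) := by
    rw [mul_pow]
    ring
  rw [h3]
  have h5 : (0 : ℝ) ≤ ((W.filter fun X => X ⊆ S).card : ℝ) := Nat.cast_nonneg _
  by_cases h4 : K ≤ S.card
  · have h6 := hK S (mem_powerset.1 hS) h4
    have h7 : (2 : ℝ) ^ S.card ≤ 4 * ((W.filter fun X => X ⊆ S).card : ℝ) := by exact_mod_cast h6
    have h8 := mul_le_mul_of_nonneg_right h7 h2
    have h9 : 0 ≤ (2 : ℝ) ^ K * (e ^ S.card * (1 - 2 * e) ^ (U.card - S.card)) :=
      mul_nonneg (by positivity) h2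
    linarith
  · have h6 : (2 : ℝ) ^ S.card ≤ 2 ^ K := pow_le_pow_right₀ (by norm_num) (by omega)
    have h7 := mul_le_mul_of_nonneg_right h6 h2
    have h8 : 0 ≤ 4 * (e ^ S.card * (1 - 2 * e) ^ (U.card - S.card) *
        ((W.filter fun X => X ⊆ S).card : ℝ)) :=
      mul_nonneg (by norm_num) (mul_nonneg h2 h5)
    linarith

theorem tail_le {e : ℝ} (h1 : e ≤ 1) {N K : ℕ} (hK : 1 ≤ K) (h : 2 * (K : ℝ) ≤ N * e) :
    2 ^ K * (1 - e) ^ N ≤ 1 / 2 := by
  have h2 : (1 - e) ^ N ≤ Real.exp (-(2 * K)) := by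
    calc (1 - e) ^ N ≤ Real.exp (-e) ^ N :=
          pow_le_pow_left₀ (by linarith) (Real.one_sub_le_exp_neg e) N
      _ = Real.exp (-(N * e)) := by rw [← Real.exp_nat_mul]; congr 1; ring
      _ ≤ Real.exp (-(2 * K)) := Real.exp_le_exp.2 (by linarith)
  have h3 : (4 : ℝ) ^ K * Real.exp (-(2 * K)) ≤ 1 := by
    have h4 : (2 : ℝ) ≤ Real.exp 1 := by
      have := Real.add_one_le_exp (1 : ℝ)
      linarith
    have h5 : (4 : ℝ) ^ K ≤ Real.exp (2 * K) := by
      have h6 : Real.exp (2 * K) = (Real.exp 1) ^ (2 * K) := by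
        rw [← Real.exp_nat_mul]
        congr 1
        push_cast
        ring
      rw [h6, pow_mul]
      refine pow_le_pow_left₀ (by norm_num) ?_ K
      nlinarith
    rw [Real.exp_neg]
    rw [← div_eq_mul_inv, div_le_one (Real.exp_pos _)]
    exact h5
  have h4 : (2 : ℝ) ≤ 2 ^ K := by
    calc (2 : ℝ) = 2 ^ 1 := by norm_num
      _ ≤ 2 ^ K := pow_le_pow_right₀ (by norm_num) hK
  have h5 : (4 : ℝ) ^ K = 2 ^ K * 2 ^ K := by
    rw [← mul_pow]
    norm_num
  have h6 : 0 < Real.exp (-(2 * (K : ℝ))) := Real.exp_pos _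
  have h7 : (2 : ℝ) ^ K * (1 - e) ^ N ≤ 2 ^ K * Real.exp (-(2 * K)) :=
    mul_le_mul_of_nonneg_left h2 (by positivity)
  rw [h5] at h3
  nlinarith [mul_pos (show (0 : ℝ) < 2 ^ K by positivity) h6]

/-- **The product measure of the places where a sign of a function of low degree differs from the
parity.** -/
theorem wrong_weight {e : ℝ} (h0 : 0 ≤ e) (h1 : e ≤ 1 / 2) {U : Finset α}
    {q : Finset α → ℝ} {d : ℕ} (hq : Deg d q) (he : 8 * ((d : ℝ) + 2) ^ 2 ≤ U.card * e) :
    1 / 8 ≤ ∑ X ∈ U.powerset.filter (fun X => ¬ (Odd X.card ↔ 0 < q X)),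
      e ^ X.card * (1 - e) ^ (U.card - X.card) := by
  have h2 := weight_large h0 h1 (U := U)
    (W := U.powerset.filter (fun X => ¬ (Odd X.card ↔ 0 < q X))) (filter_subset _ _)
    (K := 4 * (d + 2) ^ 2) ?_
  · have h3 := tail_le (e := e) (by linarith) (N := U.card) (K := 4 * (d + 2) ^ 2)
      (Nat.mul_pos (by norm_num) (by positivity)) (by push_cast; linarith)
    linarith
  · intro S hS hK
    refine quarter hq hK _ fun X hX hXW => ?_
    rw [mem_filter, mem_filter, mem_powerset] at hXW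
    rw [mem_powerset] at hX
    by_contra hc
    exact hXW ⟨⟨hX.trans hS, hc⟩, hX⟩

end Pool.Agent.H20RD.Abfr
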