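import Pool.Agent.H20RD.Blocks
import Pool.Agent.H20RD.Couple

/-!
# Conditional probabilities, level by level
-/

set_option autoImplicit false

namespace Pool.Agent.H20RD

open MeasureTheory ProbabilityTheory Finset Filter

/-- the oracle `A` on `U`, the oracle `C` elsewhere -/
def mix (U : Finset (List Bool)) (A C : Orc) : Orc := fun x => if x ∈ U then A x else C x

theorem depOn_mix {U T : Finset (List Bool)} {R : Set Orc} (hR : DepOn T R) (C : Orc) :
    DepOn U {A | mix U A C ∈ R} := by
  intro A A' h
  refine hR _ _ fun x _ => ?_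
  unfold mix
  split_ifs with hx
  · exact h x hx
  · rfl

theorem cond_le (q : List Bool → unitInterval) {T U : Finset (List Bool)} (hTU : Disjoint T U)
    {G R : Set Orc} (hG : DepOn T G) (hR : DepOn (T ∪ U) R) {δ : ℝ}
    (h : ∀ C : Orc, (rnd q).real {A | mix U A C ∈ R} ≤ δ) :
    (rnd q).real (G ∩ R) ≤ δ * (rnd q).real G := by
  classical
  set cc : Finset (List Bool) → Orc := fun c x => decide (x ∈ c) with hcc
  set K := T.powerset.filter fun c => cc c ∈ G with hK
  set E : Finset (List Bool) → Set Orc := fun c => {A | ∀ x ∈ T, A x = cc c x} with hE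
  have hEd : ∀ c, DepOn T (E c) := by
    intro c A A' hA
    constructor
    · intro h1 x hx
      rw [← hA x hx]
      exact h1 x hx
    · intro h1 x hx
      rw [hA x hx]
      exact h1 x hx
  have h1 : G ∩ R ⊆ ⋃ c ∈ K, E c ∩ {A | mix U A (cc c) ∈ R} := by
    rintro A ⟨hA1, hA2⟩
    have e1 : ∀ x ∈ T, A x = cc (T.filter fun x => A x = true) x := by
      intro x hx
      simp only [hcc, mem_filter, hx, true_and]
      cases A x <;> rfl
    simp only [Set.mem_iUnion]
    refine ⟨T.filter fun x => A x = true, mem_filter.2 ⟨mem_powerset.2 (filter_subset _ _), ?_⟩,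
      e1, ?_⟩
    · exact (hG _ _ e1).1 hA1
    · refine (hR _ _ fun x hx => ?_).1 hA2
      unfold mix
      split_ifs with hxU
      · rfl
      · rw [mem_union] at hx
        exact e1 x (hx.resolve_right hxU)
  have h2 : (rnd q).real (G ∩ R) ≤ ∑ c ∈ K, (rnd q).real (E c ∩ {A | mix U A (cc c) ∈ R}) :=
    (measureReal_mono h1 (measure_ne_top _ _)).trans (measureReal_biUnion_finset_le _ _)
  have h3 : ∀ c ∈ K, (rnd q).real (E c ∩ {A | mix U A (cc c) ∈ R}) ≤ δ * (rnd q).real (E c) := by
    intro c _
    rw [rnd_inter q (hEd c) (depOn_mix hR (cc c)) hTU, mul_comm]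
    exact mul_le_mul_of_nonneg_right (h _) measureReal_nonneg
  have h4 : ∑ c ∈ K, (rnd q).real (E c) ≤ (rnd q).real G := by
    rw [← measureReal_biUnion_finset]
    · refine measureReal_mono ?_
      intro A hA
      simp only [Set.mem_iUnion] at hA
      obtain ⟨c, hc, hA⟩ := hA
      exact (hG _ _ hA).2 (mem_filter.1 hc).2
    · intro c hc c' hc' hne
      rw [Function.onFun, Set.disjoint_left]
      intro A hA hA'
      apply hne
      rw [mem_coe, hK, mem_filter, mem_powerset] at hc hc'
      ext x
      constructor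
      · intro hx
        have h5 := hA x (hc.1 hx)
        rw [hA' x (hc.1 hx)] at h5
        simpa [hcc, hx] using h5
      · intro hx
        have h5 := hA x (hc'.1 hx)
        rw [hA' x (hc'.1 hx)] at h5
        simpa [hcc, hx] using h5.symm
    · intro c _
      exact (hEd c).measurable
  have hδ : 0 ≤ δ := measureReal_nonneg.trans (h fun _ => false)
  calc (rnd q).real (G ∩ R) ≤ ∑ c ∈ K, δ * (rnd q).real (E c) := h2.trans (sum_le_sum h3)
    _ = δ * ∑ c ∈ K, (rnd q).real (E c) := by rw [mul_sum]
    _ ≤ δ * (rnd q).real G := mul_le_mul_of_nonneg_left h4 hδ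

theorem disjoint_short_strs {N n : ℕ} (h : N < n) : Disjoint (short N) (strs n) := by
  rw [Finset.disjoint_left]
  intro x hx hx'
  rw [mem_short] at hx
  rw [mem_strs] at hx'
  omega

/-- **Infinitely many levels with a chance to fail.** -/
theorem null_of_levels (q : List Bool → unitInterval) (R : ℕ → Set Orc) (ρ : ℕ → ℕ)
    (hR : ∀ n, DepOn (short (ρ n)) (R n)) {δ : ℝ} (hδ : δ < 1)
    (h : ∀ N, ∃ n ≥ N, ∀ C : Orc, (rnd q).real {A | mix (strs n) A C ∈ R n} ≤ δ) :
    rnd q {A | ∀ n, A ∈ R n} = 0 := by
  classical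
  have hδ0 : 0 ≤ δ := by
    obtain ⟨n, _, hn⟩ := h 0
    exact measureReal_nonneg.trans (hn fun _ => false)
  have key : ∀ k : ℕ, ∃ (G : Set Orc) (N : ℕ), DepOn (short N) G ∧ {A | ∀ n, A ∈ R n} ⊆ G ∧
      (rnd q).real G ≤ δ ^ k := by
    intro k
    induction k with
    | zero =>
      refine ⟨Set.univ, 0, fun A A' _ => by simp, Set.subset_univ _, ?_⟩
      simp
    | succ k ih =>
      obtain ⟨G, N, h1, h2, h3⟩ := ih
      obtain ⟨n, hn, h4⟩ := h (N + 1)
      have h5 := cond_le q (T := short N ∪ (short (ρ n) \ strs n)) (U := strs n)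
        (G := G) (R := R n) ?_ (h1.mono subset_union_left) ((hR n).mono ?_) h4
      · refine ⟨G ∩ R n, max N (ρ n), (h1.mono (short_mono (le_max_left _ _))).inter
          ((hR n).mono (short_mono (le_max_right _ _))), fun A hA => ⟨h2 hA, hA n⟩, ?_⟩
        rw [pow_succ, mul_comm]
        exact h5.trans (mul_le_mul_of_nonneg_left h3 hδ0)
      · rw [disjoint_union_left]
        exact ⟨disjoint_short_strs (by omega), sdiff_disjoint⟩
      · intro x hx
        rw [mem_union, mem_union]
        by_cases h6 : x ∈ strs n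
        · exact Or.inr h6
        · exact Or.inl (Or.inr (Finset.mem_sdiff.2 ⟨hx, h6⟩))
  have h1 : (rnd q).real {A | ∀ n, A ∈ R n} = 0 := by
    refine le_antisymm ?_ measureReal_nonneg
    refine ge_of_tendsto' (tendsto_pow_atTop_nhds_zero_of_lt_one hδ0 hδ) fun k => ?_
    obtain ⟨G, N, _, h2, h3⟩ := key k
    exact (measureReal_mono h2).trans h3
  rwa [measureReal_eq_zero_iff] at h1

/-! ### One level -/

theorem rnd_pi (q : List Bool → unitInterval) (β : List Bool → Bool) (C : Finset (List Bool)) :
    (rnd q).real {A | ∀ x ∈ C, A x = β x} = ∏ x ∈ C, w (β x) (q x) := by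
  have h1 : {A : Orc | ∀ x ∈ C, A x = β x} =
      Set.pi (C : Set (List Bool)) (fun x => {β x}) := by
    ext A
    simp [Set.mem_pi]
  rw [h1]
  unfold rnd Measure.real
  rw [Measure.infinitePi_pi _ (fun i _ => measurableSet_singleton (β i)), ENNReal.toReal_prod]
  exact prod_congr rfl fun x _ => coin_real (q x) (β x)

/-- the value `l` is changed on the set `X` -/
def flp (l : Bool) (X : Finset (List Bool)) (x : List Bool) : Bool := if x ∈ X then !l else l

theorem w_not (l : Bool) (p : unitInterval) : w l p = 1 - w (!l) p := by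
  cases l <;> simp [w]

theorem level (p : ℕ → unitInterval) (n : ℕ) (l : Bool) (C : Orc) (R : Set Orc)
    (W : Finset (Finset (List Bool))) (hW : W ⊆ (strs n).powerset)
    (hWR : ∀ X ∈ W, mix (strs n) (flp l X) C ∉ R) {T : Finset (List Bool)} (hR : DepOn T R) :
    (rnd fun x => p x.length).real {A | mix (strs n) A C ∈ R} ≤
      1 - ∑ X ∈ W, w (!l) (p n) ^ X.card * (1 - w (!l) (p n)) ^ ((strs n).card - X.card) := by
  classical
  set q : List Bool → unitInterval := fun x => p x.length with hq
  set E : Finset (List Bool) → Set Orc := fun X => {A | ∀ x ∈ strs n, A x = flp l X x} with hE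
  have hEm : ∀ X, MeasurableSet (E X) := by
    intro X
    refine DepOn.measurable (T := strs n) ?_
    intro A A' hA
    constructor
    · intro h1 x hx
      rw [← hA x hx]
      exact h1 x hx
    · intro h1 x hx
      rw [hA x hx]
      exact h1 x hx
  have h1 : ∀ X ∈ W, (rnd q).real (E X) =
      w (!l) (p n) ^ X.card * (1 - w (!l) (p n)) ^ ((strs n).card - X.card) := by
    intro X hX
    have hXU := mem_powerset.1 (hW hX)
    rw [hE]
    simp only
    rw [rnd_pi]
    have e1 : ∀ x ∈ strs n, w (flp l X x) (q x) =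
        if x ∈ X then w (!l) (p n) else 1 - w (!l) (p n) := by
      intro x hx
      rw [hq]
      simp only [mem_strs.1 hx]
      unfold flp
      split_ifs
      · rfl
      · exact w_not l _
    rw [prod_congr rfl e1, prod_ite, prod_const, prod_const]
    congr 2
    · rw [filter_mem_eq_inter, inter_eq_right.2 hXU]
    · rw [← card_sdiff_of_subset hXU]
      congr 1
      ext x
      simp
  have h2 : ∑ X ∈ W, (rnd q).real (E X) = (rnd q).real (⋃ X ∈ W, E X) := by
    rw [measureReal_biUnion_finset]
    · intro X hX X' hX' hne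
      rw [Function.onFun, Set.disjoint_left]
      intro A hA hA'
      apply hne
      have hXU := mem_powerset.1 (hW hX)
      have hXU' := mem_powerset.1 (hW hX')
      ext x
      constructor
      · intro hx
        have h5 := hA x (hXU hx)
        rw [hA' x (hXU hx)] at h5
        by_contra hc
        simp [flp, hx, hc] at h5
      · intro hx
        have h5 := hA x (hXU' hx)
        rw [hA' x (hXU' hx)] at h5
        by_contra hc
        simp [flp, hx, hc] at h5
    · intro X _
      exact hEm X
  have h3 : (⋃ X ∈ W, E X) ⊆ {A | mix (strs n) A C ∈ R}ᶜ := by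
    intro A hA
    simp only [Set.mem_iUnion] at hA
    obtain ⟨X, hX, hA⟩ := hA
    intro h4
    apply hWR X hX
    have e1 : mix (strs n) (flp l X) C = mix (strs n) A C := by
      funext x
      unfold mix
      split_ifs with hx
      · exact (hA x hx).symm
      · rfl
    rw [e1]
    exact h4
  have h4 := measureReal_mono (μ := rnd q) h3
  have h5 := probReal_compl_eq_one_sub (μ := rnd q) (depOn_mix (U := strs n) hR C).measurable
  rw [← sum_congr rfl h1, h2]
  rw [h5] at h4
  linarith

end Pool.Agent.H20RD
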