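import Pool.Agent.H620R2.Gauge2.Defs
import Mathlib.Probability.ProductMeasure

/-!
# Random oracles with independent bits; the disjoint union of two oracles
-/

set_option autoImplicit false

namespace Pool.Agent.H20RD

open MeasureTheory

/-- The oracles: sets of bit strings, given by their characteristic functions. -/
abbrev Orc : Type := List Bool → Bool

/-- A coin with probability `p` of `true`. -/
noncomputable def coin (p : unitInterval) : Measure Bool :=
  ENNReal.ofReal (p : ℝ) • Measure.dirac true + ENNReal.ofReal (1 - (p : ℝ)) • Measure.dirac false

/-- The distribution of a random oracle: for every string `x`, membership of `x` in the oracle is
decided by an independent toss of a coin with probability `q x`. -/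
noncomputable def rnd (q : List Bool → unitInterval) : Measure Orc :=
  Measure.infinitePi (fun x : List Bool => coin (q x))

/-- The disjoint union of the oracles `O` and `A`: a question starts with the bit `false` if it is
for `O`, and with the bit `true` if it is for `A`. -/
def join (O A : Orc) : Orc
  | [] => false
  | false :: z => O z
  | true :: z => A z

end Pool.Agent.H20RD
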