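import Pool.Agent.H20RD.Dec

/-!
# Lists of strings coded by strings, and the number of codes
-/

set_option autoImplicit false

namespace Pool.Agent.H20RD

open Pool.Agent.NPC Pool.Agent.H622R2 Pool.Agent.H620R2.Gauge Finset

/-- the numbers of the blocks which are used -/
def idxs (b K : ℕ) (u : List Bool) : List ℕ :=
  (List.range K).filter fun i => u.getD (2 * b * K + i) false

/-- the strings in the blocks which are used -/
def ent (b K : ℕ) (u : List Bool) : List (List Bool) :=
  (idxs b K u).map fun i => dec b (i * b) u

theorem length_ent_le {b K : ℕ} {u z : List Bool} (h : z ∈ ent b K u) : z.length ≤ b := by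
  unfold ent at h
  rw [List.mem_map] at h
  obtain ⟨i, _, rfl⟩ := h
  exact length_dec_le _ _ _

theorem exists_ent {b K : ℕ} {l : List (List Bool)} (h1 : l.length ≤ K)
    (h2 : ∀ z ∈ l, z.length ≤ b) : ∃ u : List Bool, u.length = 2 * b * K + K ∧ ent b K u = l := by
  set f : ℕ → Bool := fun i => if i < 2 * b * K then
    (if i % 2 = 0 then decide (i % (2 * b) / 2 < (l.getD (i / (2 * b)) []).length) else
      (l.getD (i / (2 * b)) []).getD (i % (2 * b) / 2) false) else
    decide (i - 2 * b * K < l.length) with hf
  have hget : ∀ i < 2 * b * K + K, ((List.range (2 * b * K + K)).map f).getD i false = f i := by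
    intro i hi
    rw [List.getD_eq_getElem _ _ (by simpa using hi)]
    simp
  refine ⟨(List.range (2 * b * K + K)).map f, by simp, ?_⟩
  have e1 : idxs b K ((List.range (2 * b * K + K)).map f) = List.range l.length := by
    unfold idxs
    rw [← filter_range_lt K l.length h1]
    refine List.filter_congr fun i hi => ?_
    rw [List.mem_range] at hi
    rw [hget _ (by omega), hf]
    simp
  unfold ent
  rw [e1]
  refine List.ext_getElem (by simp) fun i k1 k2 => ?_
  rw [List.getElem_map, List.getElem_range]
  have hl : l.getD i [] = l[i] := List.getD_eq_getElem _ _ k2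
  have hlen := h2 l[i] (List.getElem_mem k2)
  refine dec_eq hlen (fun j hj => ?_) fun j hj => ?_
  · have e2 : 2 * (i * b + j) = 2 * b * i + 2 * j := by ring
    have e3 : 2 * b * i + 2 * j < 2 * b * K := by
      have : 2 * b * (i + 1) ≤ 2 * b * K := Nat.mul_le_mul_left _ (by omega)
      rw [Nat.mul_succ] at this
      omega
    have e4 : (2 * b * i + 2 * j) / (2 * b) = i := by
      rw [Nat.mul_add_div (by omega), Nat.div_eq_of_lt (by omega), add_zero]
    have e5 : (2 * b * i + 2 * j) % (2 * b) = 2 * j := by
      rw [Nat.mul_add_mod, Nat.mod_eq_of_lt (by omega)]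
    have e6 : (2 * b * i + 2 * j) % 2 = 0 := by
      rw [mul_assoc]
      omega
    rw [e2, hget _ (by omega), hf]
    simp only
    rw [if_pos e3, if_pos e6, e4, e5, hl, Nat.mul_div_cancel_left _ two_pos]
  · have hjb : j < b := by omega
    have e2 : 2 * (i * b + j) + 1 = 2 * b * i + (2 * j + 1) := by ring
    have e3 : 2 * b * i + (2 * j + 1) < 2 * b * K := by
      have : 2 * b * (i + 1) ≤ 2 * b * K := Nat.mul_le_mul_left _ (by omega)
      rw [Nat.mul_succ] at this
      omega
    have e4 : (2 * b * i + (2 * j + 1)) / (2 * b) = i := by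
      rw [Nat.mul_add_div (by omega), Nat.div_eq_of_lt (by omega), add_zero]
    have e5 : (2 * b * i + (2 * j + 1)) % (2 * b) = 2 * j + 1 := by
      rw [Nat.mul_add_mod, Nat.mod_eq_of_lt (by omega)]
    have e6 : ¬ (2 * b * i + (2 * j + 1)) % 2 = 0 := by
      rw [mul_assoc]
      omega
    rw [e2, hget _ (by omega), hf]
    simp only
    rw [if_pos e3, if_neg e6, e4, e5, hl]
    congr 1
    omega

/-- the end of the string is zero -/
def Zer (t : ℕ) (w : List Bool) : Prop := ∀ c ∈ w.drop t, c = false

theorem zer_eq {t : ℕ} {w : List Bool} (h : Zer t w) :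
    w = w.take t ++ List.replicate (w.length - t) false := by
  have h1 : w.drop t = List.replicate (w.length - t) false := by
    rw [List.eq_replicate_iff]
    exact ⟨List.length_drop, h⟩
  rw [← h1, List.take_append_drop]

/-- **Most codes are codes of the whole set.** -/
theorem count_codes {a K s m : ℕ} (hs : a < s) (hm : m ≤ K) {len : List Bool → ℕ}
    {ok full : List Bool → Prop} (h1 : ∀ u, ok u → full u → len u = m)
    (h2 : ∀ u, ok u → ¬ full u → len u < m) (h3 : ∃ u : List Bool, u.length = a ∧ ok u ∧ full u)
    {X Y : Finset (List Bool)}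
    (hX : ∀ w ∈ X, w.length = a + K * s ∧ ok (w.take a) ∧ ¬ full (w.take a) ∧
      Zer (a + len (w.take a) * s) w)
    (hY : ∀ w : List Bool, w.length = a + K * s → ok (w.take a) → full (w.take a) →
      Zer (a + len (w.take a) * s) w → w ∈ Y) : X.card < Y.card := by
  obtain ⟨u₀, hu1, hu2, hu3⟩ := h3
  have hY2 : 2 ^ (m * s) ≤ Y.card := by
    rw [← card_strs]
    have hms : m * s ≤ K * s := Nat.mul_le_mul_right _ hm
    refine card_le_card_of_injOn
      (fun r => u₀ ++ (r ++ List.replicate (K * s - m * s) false)) ?_ ?_
    · intro r hr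
      rw [mem_coe, mem_strs] at hr
      have e1 : (u₀ ++ (r ++ List.replicate (K * s - m * s) false)).take a = u₀ := by
        rw [← hu1, List.take_left]
      refine hY _ ?_ ?_ ?_ ?_
      · simp only [List.length_append, List.length_replicate, hr, hu1]
        omega
      · rw [e1]; exact hu2
      · rw [e1]; exact hu3
      · rw [e1, h1 _ hu2 hu3]
        intro c hc
        rw [← List.drop_drop, ← hu1, List.drop_left, ← hr, List.drop_left] at hc
        exact (List.mem_replicate.1 hc).2
    · intro r hr r' hr' h
      simp only at h
      have h4 := List.append_cancel_left h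
      exact List.append_cancel_right h4
  rcases Nat.eq_zero_or_pos m with hm0 | hm0
  · have hXe : X = ∅ := by
      rw [eq_empty_iff_forall_notMem]
      intro w hw
      obtain ⟨_, e1, e2, _⟩ := hX w hw
      have := h2 _ e1 e2
      omega
    rw [hXe, card_empty]
    exact lt_of_lt_of_le (by positivity) hY2
  · obtain ⟨m, rfl⟩ : ∃ m', m = m' + 1 := ⟨m - 1, by omega⟩
    have hX2 : X.card ≤ 2 ^ (a + m * s) := by
      rw [← card_strs]
      refine card_le_card_of_injOn (fun w => w.take (a + m * s)) ?_ ?_
      · intro w hw
        rw [mem_coe] at hw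
        obtain ⟨e0, _, _, _⟩ := hX w hw
        rw [mem_coe, mem_strs, List.length_take, e0]
        have : m * s ≤ K * s := Nat.mul_le_mul_right _ (by omega)
        omega
      · intro w hw w' hw' h
        rw [mem_coe] at hw hw'
        simp only at h
        have key : ∀ w ∈ X, w = w.take (a + m * s) ++
            List.replicate (a + K * s - (a + m * s)) false := by
          intro w hw
          obtain ⟨e0, e1, e2, e3⟩ := hX w hw
          have e4 := h2 _ e1 e2
          have e5 : Zer (a + m * s) w := by
            intro c hc
            refine e3 c ?_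
            have e6 : len (w.take a) * s ≤ m * s := Nat.mul_le_mul_right _ (by omega)
            have e7 : a + m * s = (a + len (w.take a) * s) + (m * s - len (w.take a) * s) := by
              omega
            rw [e7, ← List.drop_drop] at hc
            exact List.mem_of_mem_drop hc
          have e6 := zer_eq e5
          rwa [e0] at e6
        rw [key w hw, key w' hw', h]
    refine hX2.trans_lt (lt_of_lt_of_le ?_ hY2)
    refine Nat.pow_lt_pow_right (by norm_num) ?_
    rw [Nat.succ_mul]
    omega

end Pool.Agent.H20RD
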