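import Pool.Agent.H20RD.Stage
import Mathlib.Data.Set.Finite.List
import Mathlib.Analysis.SpecificLimits.Basic

/-!
# Infinitely many stages
-/

set_option autoImplicit false

namespace Pool.Agent.H20RD

open MeasureTheory ProbabilityTheory Finset

/-- the strings of length at most `m` -/
noncomputable def short (m : ℕ) : Finset (List Bool) := (List.finite_length_le Bool m).toFinset

theorem mem_short {m : ℕ} {x : List Bool} : x ∈ short m ↔ x.length ≤ m := by
  simp [short]

theorem short_mono {m m' : ℕ} (h : m ≤ m') : short m ⊆ short m' := fun x hx => by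
  rw [mem_short] at hx ⊢
  omega

/-- consecutive terms of a divergent series -/
theorem exists_window {lam : ℕ → ℝ} (h0 : ∀ n, 0 ≤ lam n) {n₀ : ℕ} (h1 : ∀ n ≥ n₀, lam n ≤ 1 / 8)
    (hs : ¬ Summable lam) (a : ℕ) (ha : n₀ ≤ a) :
    ∃ b, a ≤ b ∧ 1 / 8 ≤ ∑ n ∈ Ico a b, lam n ∧ ∑ n ∈ Ico a b, lam n ≤ 1 / 4 := by
  classical
  have hex : ∃ b, a ≤ b ∧ 1 / 8 ≤ ∑ n ∈ Ico a b, lam n := by
    by_contra hc
    push Not at hc
    apply hs
    refine summable_of_sum_range_le (c := ∑ n ∈ range a, lam n + 1 / 8) h0 fun b => ?_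
    rcases le_total a b with hab | hab
    · have := hc b hab
      rw [← sum_range_add_sum_Ico _ hab]
      linarith
    · have h2 : ∑ n ∈ range b, lam n ≤ ∑ n ∈ range a, lam n :=
        sum_le_sum_of_subset_of_nonneg (range_subset_range.2 hab) fun n _ _ => h0 n
      linarith
  have hP := Nat.find_spec hex
  set b := Nat.find hex with hb
  refine ⟨b, hP.1, hP.2, ?_⟩
  rcases Nat.eq_or_lt_of_le hP.1 with h | h
  · rw [← h] at hP
    have := hP.2
    rw [Ico_self, sum_empty] at this
    norm_num at this
  · have h3 : a ≤ b - 1 := by omega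
    have h4 := Nat.find_min hex (m := b - 1) (by omega)
    rw [not_and] at h4
    have h5 := h4 h3
    rw [not_le] at h5
    have h6 : ∑ n ∈ Ico a b, lam n = ∑ n ∈ Ico a (b - 1), lam n + lam (b - 1) := by
      have : b = (b - 1) + 1 := by omega
      conv_lhs => rw [this]
      rw [sum_Ico_succ_top h3]
    have h7 := h1 (b - 1) (by omega)
    rw [h6]
    linarith

variable (q : List Bool → unitInterval)

theorem null_of_blocks {κ : Type*} (cells : ℕ → Finset κ)
    (C : ℕ → κ → Finset (List Bool)) (hit : ℕ → κ → Set Orc) (R : ℕ → Set Orc) (ρ : ℕ → ℕ)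
    (hhit : ∀ n, ∀ y ∈ cells n, DepOn (C n y) (hit n y))
    (hlen : ∀ n, ∀ y ∈ cells n, ∀ x ∈ C n y, x.length = n)
    (hdisj : ∀ n, ∀ y ∈ cells n, ∀ y' ∈ cells n, y ≠ y' → Disjoint (C n y) (C n y'))
    (hR : ∀ n, DepOn (short (ρ n)) (R n)) (n₀ : ℕ)
    (hbad : ∀ n ≥ n₀, ∀ A ∈ R n, (∀ y ∈ cells n, A ∉ hit n y) → ∀ P : Finset κ, P ⊆ cells n →
      (∀ y ∈ P, Keeps (C n y) (hit n y) (R n) A) →
      ∑ y ∈ P, (rnd q).real (hit n y) ≤ (1 / 8) * ∑ y ∈ cells n, (rnd q).real (hit n y))
    (hl : ∀ n ≥ n₀, ∑ y ∈ cells n, (rnd q).real (hit n y) ≤ 1 / 8)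
    (hs : ¬ Summable fun n => ∑ y ∈ cells n, (rnd q).real (hit n y)) :
    rnd q {A | ∀ n ≥ n₀, A ∈ R n} = 0 := by
  classical
  have key : ∀ t : ℕ, ∃ U : Finset ℕ, (∀ n ∈ U, n₀ ≤ n) ∧
      (rnd q).real {A | ∀ n ∈ U, A ∈ R n} ≤ (15 / 16) ^ t := by
    intro t
    induction t with
    | zero => exact ⟨∅, by simp, by simp⟩
    | succ t ih =>
      obtain ⟨U, hU, hUt⟩ := ih
      set M := U.sup ρ with hM
      obtain ⟨b, hb1, hb2, hb3⟩ := exists_window (fun n => sum_nonneg fun y _ => measureReal_nonneg)
        hl hs (max n₀ (M + 1)) (le_max_left _ _)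
      set a := max n₀ (M + 1) with ha
      set W := Ico a b with hW
      set N := max (max M b) (W.sup ρ) with hN
      refine ⟨U ∪ W, fun n hn => ?_, ?_⟩
      · rcases mem_union.1 hn with h | h
        · exact hU n h
        · exact (le_max_left _ _).trans (mem_Ico.1 h).1
      · have hD : DepOn (short M) {A | ∀ n ∈ U, A ∈ R n} := by
          have h1 : ∀ n ∈ U, DepOn (short M) (R n) := fun n hn =>
            (hR n).mono (short_mono (le_sup (f := ρ) hn))
          intro A A' h
          exact ⟨fun hA n hn => (h1 n hn A A' h).1 (hA n hn),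
            fun hA n hn => (h1 n hn A A' h).2 (hA n hn)⟩
        have h2 := stage q W cells C hit R {A | ∀ n ∈ U, A ∈ R n} (short N) (short M)
          (fun n _ => hhit n)
          (fun n hn y hy x hx => by
            rw [mem_short, hlen n y hy x hx]
            have := (mem_Ico.1 hn).2
            have h3 : b ≤ N := (le_max_right _ _).trans (le_max_left _ _)
            omega)
          (fun n _ y hy n' _ y' hy' hne => by
            by_cases hn : n = n'
            · subst hn
              exact hdisj n y hy y' hy' (by tauto)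
            · rw [Finset.disjoint_left]
              intro x hx hx'
              exact hn ((hlen n y hy x hx).symm.trans (hlen n' y' hy' x hx')))
          (fun n hn => (hR n).mono (short_mono ((le_sup (f := ρ) hn).trans (le_max_right _ _))))
          hD (short_mono ((le_max_left _ _).trans (le_max_left _ _)))
          (fun n hn y hy => by
            rw [Finset.disjoint_left]
            intro x hx hx'
            rw [mem_short, hlen n y hy x hx'] at hx
            have h3 := (mem_Ico.1 hn).1
            have h4 : M + 1 ≤ a := le_max_right _ _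
            omega)
          (fun n hn => hbad n ((le_max_left _ _).trans (mem_Ico.1 hn).1))
          (fun n hn => hl n ((le_max_left _ _).trans (mem_Ico.1 hn).1)) hb2 hb3
        have h3 : {A : Orc | ∀ n ∈ U ∪ W, A ∈ R n} =
            {A | ∀ n ∈ U, A ∈ R n} ∩ {A | ∀ n ∈ W, A ∈ R n} := by
          ext A
          simp only [mem_union, Set.mem_ofPred_eq, Set.mem_inter_iff]
          constructor
          · intro h
            exact ⟨fun n hn => h n (Or.inl hn), fun n hn => h n (Or.inr hn)⟩
          · rintro ⟨h, h'⟩ n (hn | hn)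
            · exact h n hn
            · exact h' n hn
        rw [h3, pow_succ]
        refine h2.trans ?_
        rw [mul_comm]
        exact mul_le_mul_of_nonneg_right hUt (by norm_num)
  have h1 : (rnd q).real {A | ∀ n ≥ n₀, A ∈ R n} = 0 := by
    apply le_antisymm _ measureReal_nonneg
    refine ge_of_tendsto' (tendsto_pow_atTop_nhds_zero_of_lt_one (r := (15 / 16 : ℝ))
      (by norm_num) (by norm_num)) fun t => ?_
    obtain ⟨U, hU, hUt⟩ := key t
    refine le_trans (measureReal_mono ?_) hUt
    intro A hA n hn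
    exact hA n (hU n hn)
  exact (measureReal_eq_zero_iff (measure_ne_top _ _)).1 h1

end Pool.Agent.H20RD
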