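import Pool.Agent.H20RD.QDefs
import Pool.Agent.H20RD.Mach
import Pool.Agent.H9x.Q.Size
import Pool.Agent.H620R2.Gauge.A1

/-!
# `BQP`, `QMA` and `NP` machines
-/

set_option autoImplicit false

namespace Pool.Agent.H20RD

open Pool.Agent.NPC Pool.Agent.H620R2.Gauge Pool.Agent.H9x.Q Finset
open Pool.Agent.R562.QH (nrm nrm_sq nrm_nonneg nrm_add_le nrm_congr)

theorem probW_diff (A A' : Oracle) (C : List Gate) {m : ℕ} (φ : Basis m → ℂ)
    (hφ : ∑ z, ‖φ z‖ ^ 2 = 1) :
    |probW A' C φ - probW A C φ| ≤ 2 * nrm (run A' C φ - run A C φ) := by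
  set u := run A' C φ with hu
  set v := run A C φ with hv
  have hk : nrm φ = 1 := by
    have h1 : nrm φ ^ 2 = 1 := by rw [nrm_sq, hφ]
    have h2 := nrm_nonneg φ
    nlinarith [sq_nonneg (nrm φ - 1)]
  have hu1 : nrm u = 1 := by rw [hu, nrm_run, hk]
  have hv1 : nrm v = 1 := by rw [hv, nrm_run, hk]
  have h1 : |probW A' C φ - probW A C φ| ≤ ∑ z, ‖u z - v z‖ * (‖u z‖ + ‖v z‖) := by
    unfold probW
    rw [← sum_sub_distrib]
    refine (abs_sum_le_sum_abs _ _).trans (sum_le_sum fun z _ => ?_)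
    have h2 : |‖u z‖ ^ 2 - ‖v z‖ ^ 2| ≤ ‖u z - v z‖ * (‖u z‖ + ‖v z‖) := by
      rw [sq_sub_sq, abs_mul, mul_comm]
      rw [abs_of_nonneg (show 0 ≤ ‖u z‖ + ‖v z‖ by positivity)]
      exact mul_le_mul_of_nonneg_right (abs_norm_sub_norm_le _ _) (by positivity)
    split_ifs
    · exact h2
    · simp
      positivity
  have h2 : ∀ w : Basis m → ℂ, nrm w = 1 → ∑ z, ‖u z - v z‖ * ‖w z‖ ≤ nrm (u - v) := by
    intro w hw
    have h3 := Finset.sum_mul_sq_le_sq_mul_sq univ (fun z => ‖u z - v z‖) (fun z => ‖w z‖)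
    rw [← nrm_sq w, hw] at h3
    have h4 : ∑ z, ‖u z - v z‖ ^ 2 = nrm (u - v) ^ 2 := by rw [nrm_sq]; rfl
    rw [h4] at h3
    have h5 : 0 ≤ ∑ z, ‖u z - v z‖ * ‖w z‖ := sum_nonneg fun z _ => by positivity
    have h6 := nrm_nonneg (u - v)
    nlinarith
  have h3 := h2 u hu1
  have h4 := h2 v hv1
  have h5 : ∑ z, ‖u z - v z‖ * (‖u z‖ + ‖v z‖) =
      ∑ z, ‖u z - v z‖ * ‖u z‖ + ∑ z, ‖u z - v z‖ * ‖v z‖ := by
    rw [← sum_add_distrib]
    exact sum_congr rfl fun z _ => by ring
  linarith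

/-- few of many disjoint changes of the oracle are noticed -/
theorem card_noticed (A : Oracle) (C : List Gate) {m : ℕ} (φ : Basis m → ℂ)
    (hφ : ∑ z, ‖φ z‖ ^ 2 = 1) (P : Finset (List Bool)) (F : List Bool → Oracle)
    (hF : ∀ t ∈ P, ∀ t' ∈ P, ∀ y, F t y ≠ A y → F t' y ≠ A y → t = t')
    (hP : ∀ t ∈ P, 1 / 6 ≤ |probW (F t) C φ - probW A C φ|) : P.card ≤ 576 * C.length ^ 2 := by
  have h1 : ∀ t, (probW (F t) C φ - probW A C φ) ^ 2 ≤
      16 * C.length * tot A (F t) C φ := by
    intro t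
    have h2 := probW_diff A (F t) C φ hφ
    have h3 := hybrid A (F t) C φ
    have h4 := nrm_nonneg (run (F t) C φ - run A C φ)
    have h5 : (probW (F t) C φ - probW A C φ) ^ 2 ≤ (2 * nrm (run (F t) C φ - run A C φ)) ^ 2 := by
      rw [← sq_abs]
      exact pow_le_pow_left₀ (abs_nonneg _) h2 2
    nlinarith
  set B : ℕ := (C.map fun g => match g with
    | .query l _ => l.length
    | _ => 0).sum with hB
  have hC : Short B C := by
    intro l r h
    have : l.length ∈ C.map (fun g => match g with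
      | .query l _ => l.length
      | _ => 0) := List.mem_map.2 ⟨_, h, rfl⟩
    exact List.le_sum_of_mem this
  have h2 := sum_tot (ι := P) A (fun i => F i.1) 1 B zero_le_one (fun y _ => by
    norm_cast
    rw [card_le_one]
    intro a ha b hb
    exact Subtype.ext (hF a.1 a.2 b.1 b.2 y (mem_filter.1 ha).2 (mem_filter.1 hb).2)) C hC φ
  rw [hφ, mul_one, mul_one] at h2
  have h3 : ∑ i : P, (1 / 36 : ℝ) ≤ ∑ i : P, 16 * C.length * tot A (F i.1) C φ := by
    refine sum_le_sum fun i _ => le_trans ?_ (h1 i.1)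
    have h4 := hP i.1 i.2
    rw [← sq_abs]
    nlinarith [abs_nonneg (probW (F i.1) C φ - probW A C φ)]
  rw [← mul_sum, sum_const, card_univ, Fintype.card_coe, nsmul_eq_mul] at h3
  have h5 : (P.card : ℝ) * (1 / 36) ≤ 16 * C.length * C.length := by
    refine h3.trans (mul_le_mul_of_nonneg_left h2 (by positivity))
  have h6 : (P.card : ℝ) ≤ 576 * (C.length : ℝ) ^ 2 := by nlinarith
  exact_mod_cast h6

theorem probW_congr {B : ℕ} {A A' : Oracle} (h : ∀ y : List Bool, y.length ≤ B → A y = A' y)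
    (C : List Gate) (hC : Short B C) {m : ℕ} (φ : Basis m → ℂ) : probW A C φ = probW A' C φ := by
  unfold probW
  rw [run_congr h C hC]

/-- bounded error quantum polynomial time -/
theorem kind_bqp : Kind QFamily fun F A x b =>
    (b → 2 / 3 ≤ F.acc A x) ∧ (¬ b → F.acc A x ≤ 1 / 3) := by
  constructor
  · intro F
    obtain ⟨P, hP⟩ := F.size
    refine ⟨P, fun x A A' h b hb => ?_⟩
    have : F.acc A x = F.acc A' x := prob_congr h _ (hP x.length).2 _ _
    rwa [this] at hb
  · intro F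
    obtain ⟨P, hP⟩ := F.size
    refine ⟨Polynomial.C 576 * P ^ 2, fun x A hA Q G hG hQ => ?_⟩
    have h1 := card_noticed A (F.circ x.length) (ket (inp (x.length + 1 + F.anc.eval x.length) x))
      (ket_norm _) Q G hG (fun t ht => by
        have e1 : F.acc A x ≤ 1 / 3 := hA.2 not_false
        have e2 : 2 / 3 ≤ F.acc (G t) x := (hQ t ht).1 trivial
        change 1 / 6 ≤ |F.acc (G t) x - F.acc A x|
        exact le_trans (by linarith) (le_abs_self _))
    refine h1.trans ?_
    simp only [Polynomial.eval_mul, Polynomial.eval_C, Polynomial.eval_pow]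
    exact Nat.mul_le_mul_left _ (Nat.pow_le_pow_left (hP x.length).1 2)

/-- quantum Merlin-Arthur games, for the complement -/
theorem kind_qma : Kind (QFamily × Polynomial ℕ) fun Fk A x b =>
    (¬ b → ∃ φ : Basis (x.length + 1 + Fk.1.anc.eval x.length) → ℂ,
      Witness x (Fk.2.eval x.length) φ ∧ 2 / 3 ≤ probW A (Fk.1.circ x.length) φ) ∧
    (b → ∀ φ : Basis (x.length + 1 + Fk.1.anc.eval x.length) → ℂ,
      Witness x (Fk.2.eval x.length) φ → probW A (Fk.1.circ x.length) φ ≤ 1 / 3) := by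
  constructor
  · rintro ⟨F, k⟩
    obtain ⟨P, hP⟩ := F.size
    refine ⟨P, fun x A A' h b hb => ?_⟩
    have : ∀ φ : Basis (x.length + 1 + F.anc.eval x.length) → ℂ,
        probW A (F.circ x.length) φ = probW A' (F.circ x.length) φ := fun φ =>
      probW_congr h _ (hP x.length).2 _
    simp only [this] at hb
    exact hb
  · rintro ⟨F, k⟩
    obtain ⟨P, hP⟩ := F.size
    refine ⟨Polynomial.C 576 * P ^ 2, fun x A hA Q G hG hQ => ?_⟩
    obtain ⟨φ, hφ, hφ2⟩ := hA.1 not_false
    have h1 := card_noticed A (F.circ x.length) φ hφ.1 Q G hG (fun t ht => by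
        have e2 := (hQ t ht).2 trivial φ hφ
        change _ ≤ 1 / 3 at e2
        change 2 / 3 ≤ _ at hφ2
        rw [abs_sub_comm]
        exact le_trans (by linarith) (le_abs_self _))
    refine h1.trans ?_
    simp only [Polynomial.eval_mul, Polynomial.eval_C, Polynomial.eval_pow]
    exact Nat.mul_le_mul_left _ (Nat.pow_le_pow_left (hP x.length).1 2)

/-- nondeterministic polynomial time, for the complement -/
theorem kind_np : Kind (Alg × Polynomial ℕ) fun Mq A x b =>
    (¬ b ↔ ∃ v : List Bool, v.length ≤ Mq.2.eval x.length ∧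
      Mq.1.out A (pairBits v x) = some [true]) := by
  constructor
  · rintro ⟨M, q⟩
    obtain ⟨qb, hqb⟩ := M.out_local
    refine ⟨qb.comp (Polynomial.C 2 * q + Polynomial.C 1 + Polynomial.X), fun x A A' h b hb => ?_⟩
    have key : ∀ v : List Bool, v.length ≤ q.eval x.length →
        M.out A' (pairBits v x) = M.out A (pairBits v x) := by
      intro v hv
      obtain ⟨Q, _, h2, h3⟩ := hqb A (pairBits v x)
      refine h3 A' fun y hy => (h y ?_).symm
      refine (h2 y hy).trans ?_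
      rw [Polynomial.eval_comp]
      apply eval_mono
      rw [length_pairBits]
      simp only [Polynomial.eval_add, Polynomial.eval_mul, Polynomial.eval_C, Polynomial.eval_X]
      omega
    rw [hb]
    constructor
    · rintro ⟨v, hv, hv2⟩
      exact ⟨v, hv, by rw [key v hv]; exact hv2⟩
    · rintro ⟨v, hv, hv2⟩
      exact ⟨v, hv, by rw [← key v hv]; exact hv2⟩
  · rintro ⟨M, q⟩
    obtain ⟨qb, hqb⟩ := M.out_local
    refine ⟨M.p.comp (Polynomial.C 2 * q + Polynomial.C 1 + Polynomial.X),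
      fun x A hA P G hG hP => ?_⟩
    obtain ⟨v, hv, hv2⟩ := hA.1 not_false
    obtain ⟨Q, h1, _, h3⟩ := hqb A (pairBits v x)
    have h4 : ∀ t ∈ P, ∃ y ∈ Q, G t y ≠ A y := by
      intro t ht
      by_contra hc
      push Not at hc
      have h5 := h3 (G t) hc
      exact (hP t ht).2 ⟨v, hv, by rw [h5]; exact hv2⟩ trivial
    choose! f hf1 hf2 using h4
    have h5 : P.card ≤ Q.card := by
      refine card_le_card_of_injOn f (fun t ht => hf1 t ht) ?_
      intro t ht t' ht' he
      refine hG t ht t' ht' (f t) (hf2 t ht) ?_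
      rw [he]
      exact hf2 t' ht'
    refine h5.trans (h1.trans ?_)
    rw [Polynomial.eval_comp]
    apply eval_mono
    rw [length_pairBits]
    simp only [Polynomial.eval_add, Polynomial.eval_mul, Polynomial.eval_C, Polynomial.eval_X]
    change v.length ≤ q.eval x.length at hv
    omega

end Pool.Agent.H20RD
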