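import Pool.Agent.H20RD.Blocks
import Pool.Agent.H620R2.Gauge2.Defs
import Pool.Agent.H620R2.Gauge.A2

/-!
# The test language
-/

set_option autoImplicit false

namespace Pool.Agent.H20RD

open Pool.Agent.NPC Pool.Agent.H622R2 Pool.Agent.H620R2.Gauge

/-- the first parameter of an input -/
def pj (x : List Bool) : ℕ := (unpair x).1.length
/-- the second parameter of an input -/
def pk (x : List Bool) : ℕ := (unpair (unpair x).2).1.length
/-- the third parameter of an input -/
def pm (x : List Bool) : ℕ := (unpair (unpair x).2).2.length

/-- the input with the parameters `j`, `k`, `m` -/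
def inpt (j k m : ℕ) : List Bool :=
  pairBits (List.replicate j true) (pairBits (List.replicate k true) (List.replicate m true))

theorem pj_inpt (j k m : ℕ) : pj (inpt j k m) = j := by
  simp [pj, inpt, unpair_pairBits]
theorem pk_inpt (j k m : ℕ) : pk (inpt j k m) = k := by
  simp [pk, inpt, unpair_pairBits]
theorem pm_inpt (j k m : ℕ) : pm (inpt j k m) = m := by
  simp [pm, inpt, unpair_pairBits]

/-- the language of the inputs for which a cell is hit -/
def Lang (β : Bool) (A : Oracle) : Set (List Bool) :=
  {x | ∃ z : List Bool, z.length = pm x ∧ ∀ i ≤ pk x, A (cs (pj x) (pk x) z i) = β}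

theorem mem_lang {β : Bool} {A : Oracle} {j k m : ℕ} :
    inpt j k m ∈ Lang β A ↔ ∃ z : List Bool, z.length = m ∧ A ∈ hitC β j k z := by
  unfold Lang hitC
  simp only [Set.mem_ofPred_eq, pj_inpt, pk_inpt, pm_inpt]

section
variable {α : Type} [TEnc α]

theorem poly_rep {f : α → ℕ} (b : Bool) (hf : UPoly f) :
    Poly (fun a => List.replicate (f a) b) :=
  (NPC.Poly.map hf (F := fun _ _ => b) (NPC.Poly.const b)).congr fun a => by simp

theorem poly_cs {j k i : α → ℕ} {z : α → List Bool} (hj : UPoly j) (hk : UPoly k) (hz : Poly z)
    (hi : UPoly i) : Poly (fun a => cs (j a) (k a) (z a) (i a)) := by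
  have h1 : UPoly (fun a => k a - i a) :=
    UPoly.of_le (Poly.sub hk.toPoly hi.toPoly) hk fun a => Nat.sub_le _ _
  exact Poly.append (poly_rep false hj) (Poly.append hz (Poly.append (poly_rep true hi)
    (poly_rep false h1)))

end

/-- the questions about a cell -/
def qs (y : List Bool) : List (List Bool) :=
  (List.range (pk (unpair y).2 + 1)).map fun i =>
    true :: cs (pj (unpair y).2) (pk (unpair y).2) (unpair y).1 (min i (pk (unpair y).2))

theorem upoly_pj {α : Type} [TEnc α] {f : α → List Bool} (hf : Poly f) : UPoly fun a => pj (f a) :=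
  UPoly.length (Poly.fst (poly_unpair.comp hf))

theorem upoly_pk {α : Type} [TEnc α] {f : α → List Bool} (hf : Poly f) : UPoly fun a => pk (f a) :=
  UPoly.length (Poly.fst (poly_unpair.comp (Poly.snd (poly_unpair.comp hf))))

theorem upoly_pm {α : Type} [TEnc α] {f : α → List Bool} (hf : Poly f) : UPoly fun a => pm (f a) :=
  UPoly.length (Poly.snd (poly_unpair.comp (Poly.snd (poly_unpair.comp hf))))

theorem poly_qs : Poly qs := by
  have hx : Poly (fun y => (unpair y).2) := Poly.snd poly_unpair
  have h1 : UPoly (fun y => pk (unpair y).2 + 1) := UPoly.add (upoly_pk hx) (UPoly.const 1)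
  refine NPC.Poly.map h1.range (F := fun y i =>
    true :: cs (pj (unpair y).2) (pk (unpair y).2) (unpair y).1 (min i (pk (unpair y).2))) ?_
  have hx' : Poly (fun p : List Bool × ℕ => (unpair p.1).2) := hx.comp (Poly.fst Poly.id)
  have hw' : Poly (fun p : List Bool × ℕ => (unpair p.1).1) :=
    (Poly.fst poly_unpair).comp (Poly.fst Poly.id)
  refine Poly.cons (NPC.Poly.const true) (poly_cs (upoly_pj hx') (upoly_pk hx') hw' ?_)
  exact UPoly.of_le (Poly.min (Poly.snd Poly.id) (upoly_pk hx').toPoly) (upoly_pk hx')
    fun p => min_le_right _ _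

/-- the answers are right -/
def fin (β : Bool) (p : List Bool × List Bool) : List Bool :=
  [decide ((unpair p.1).1.length = pm (unpair p.1).2) && p.2.all fun b => decide (b = β)]

theorem poly_fin (β : Bool) : Poly (fin β) := by
  have hy : Poly (fun p : List Bool × List Bool => unpair p.1) := poly_unpair.comp (Poly.fst Poly.id)
  refine Poly.cons ?_ (NPC.Poly.const [])
  refine (Poly.cond (Poly.decide_eq (UPoly.length (Poly.fst hy)).toPoly
    (upoly_pm (Poly.snd hy)).toPoly) (Poly.all (p := fun _ b => decide (b = β)) (Poly.snd Poly.id)
      (Poly.decide_eq (Poly.snd Poly.id) (NPC.Poly.const β))) (NPC.Poly.const false)).congr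
    fun p => ?_
  cases decide ((unpair p.1).1.length = pm (unpair p.1).2) <;> rfl

/-- **The test language is in `NP`.** -/
theorem isNP_lang (β : Bool) (O A : Oracle) : IsNP (join O A) (Lang β A) := by
  refine ⟨_, Polynomial.X, IsFP.tt poly_qs (poly_fin β), fun x => ?_⟩
  simp only [fin, unpair_pairBits, qs, List.cons.injEq, and_true, Bool.and_eq_true,
    decide_eq_true_eq, List.all_eq_true, Polynomial.eval_X]
  have hle : pm x ≤ x.length := by
    have h1 : ∀ y : List Bool, (unpair y).2.length ≤ y.length := by
      intro y
      unfold unpair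
      have : ∀ (n : ℕ) (s : List Bool × List Bool × Bool),
          (ustep^[n] s).2.1.length ≤ s.2.1.length := by
        intro n
        induction n with
        | zero => intro s; exact le_rfl
        | succ n ih =>
          intro s
          rw [Function.iterate_succ_apply]
          refine (ih _).trans ?_
          obtain ⟨a, l, b⟩ := s
          unfold ustep
          cases b with
          | true => simp
          | false =>
            match l with
            | [] => simp
            | true :: [] => simp
            | true :: c :: l' => simp; omega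
            | false :: l' => simp
      exact this _ _
    exact (h1 _).trans (h1 _)
  constructor
  · rintro ⟨z, hz, h⟩
    refine ⟨z, by omega, hz, fun b hb => ?_⟩
    simp only [List.map_map, List.mem_map, List.mem_range, Function.comp_apply] at hb
    obtain ⟨i, hi, rfl⟩ := hb
    exact h _ (min_le_right _ _)
  · rintro ⟨z, _, hz, h⟩
    refine ⟨z, hz, fun i hi => ?_⟩
    have h2 := h (A (cs (pj x) (pk x) z i)) (by
      simp only [List.map_map, List.mem_map, List.mem_range, Function.comp_apply]
      refine ⟨i, by omega, ?_⟩
      rw [min_eq_left hi]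
      rfl)
    exact h2

end Pool.Agent.H20RD
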