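import Pool.Agent.H20RD.Defs
import Mathlib.Probability.Independence.InfinitePi

/-!
# Random oracles with independent bits: finite dependence, independence, the stage inequality
-/

set_option autoImplicit false

namespace Pool.Agent.H20RD

open MeasureTheory ProbabilityTheory Finset

instance (p : unitInterval) : IsProbabilityMeasure (coin p) := ⟨by
  have h0 : (0 : ℝ) ≤ p := p.2.1
  have h1 : (0 : ℝ) ≤ 1 - p := by have := p.2.2; linarith
  simp only [coin, Measure.coe_add, Measure.coe_smul, Pi.add_apply, Pi.smul_apply,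
    measure_univ, smul_eq_mul, mul_one]
  rw [← ENNReal.ofReal_add h0 h1]
  simp⟩

instance (q : List Bool → unitInterval) : IsProbabilityMeasure (rnd q) := by
  unfold rnd; infer_instance

/-- the set `G` of oracles depends on the strings in `T` only -/
def DepOn (T : Finset (List Bool)) (G : Set Orc) : Prop :=
  ∀ A A' : Orc, (∀ x ∈ T, A x = A' x) → (A ∈ G ↔ A' ∈ G)

theorem DepOn.mono {T T' : Finset (List Bool)} {G : Set Orc} (h : DepOn T G) (hT : T ⊆ T') :
    DepOn T' G := fun A A' hA => h A A' fun x hx => hA x (hT hx)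

theorem DepOn.inter {T : Finset (List Bool)} {G H : Set Orc} (h : DepOn T G) (h' : DepOn T H) :
    DepOn T (G ∩ H) := fun A A' hA => and_congr (h A A' hA) (h' A A' hA)

theorem DepOn.compl {T : Finset (List Bool)} {G : Set Orc} (h : DepOn T G) : DepOn T Gᶜ :=
  fun A A' hA => not_congr (h A A' hA)

theorem DepOn.eq_preimage {T : Finset (List Bool)} {G : Set Orc} (h : DepOn T G) :
    G = (fun (A : Orc) (i : T) => A i) ⁻¹' ((fun (A : Orc) (i : T) => A i) '' G) := by
  ext A
  constructor
  · intro hA
    exact ⟨A, hA, rfl⟩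
  · rintro ⟨A', hA', he⟩
    refine (h A A' fun x hx => ?_).2 hA'
    exact (congrFun he ⟨x, hx⟩).symm

theorem DepOn.measurable {T : Finset (List Bool)} {G : Set Orc} (h : DepOn T G) :
    MeasurableSet G := by
  rw [h.eq_preimage]
  have h1 : Measurable (fun (A : Orc) (i : T) => A i) := by fun_prop
  exact h1 (Set.toFinite _).measurableSet

variable (q : List Bool → unitInterval)

theorem rnd_inter {T C : Finset (List Bool)} {G H : Set Orc} (hG : DepOn T G) (hH : DepOn C H)
    (hTC : Disjoint T C) : (rnd q).real (G ∩ H) = (rnd q).real G * (rnd q).real H := by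
  have h1 : iIndepFun (fun (x : List Bool) (A : Orc) => A x) (rnd q) :=
    iIndepFun_infinitePi (P := fun x : List Bool => coin (q x)) (X := fun _ b => b)
      (fun _ => measurable_id)
  have h2 := h1.indepFun_finset T C hTC (fun x => by fun_prop)
  have h3 := h2.measure_inter_preimage_eq_mul
    ((fun (A : Orc) (i : T) => A i) '' G) ((fun (A : Orc) (i : C) => A i) '' H)
    (Set.toFinite _).measurableSet (Set.toFinite _).measurableSet
  rw [← hG.eq_preimage, ← hH.eq_preimage] at h3
  unfold Measure.real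
  rw [h3, ENNReal.toReal_mul]

theorem sum_real_aux {γ : Type*} (μ : Measure Orc) [IsProbabilityMeasure μ] (K : Finset γ)
    (e : γ → ℝ) (X : γ → Set Orc) (hX : ∀ k ∈ K, MeasurableSet (X k)) :
    Integrable (fun A => ∑ k ∈ K, e k * (X k).indicator (fun _ => (1 : ℝ)) A) μ ∧
      ∫ A, ∑ k ∈ K, e k * (X k).indicator (fun _ => (1 : ℝ)) A ∂μ =
        ∑ k ∈ K, e k * μ.real (X k) := by
  have hi : ∀ k ∈ K, Integrable (fun A => e k * (X k).indicator (fun _ => (1 : ℝ)) A) μ := by
    intro k hk
    exact ((integrable_const (1 : ℝ)).indicator (hX k hk)).const_mul _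
  refine ⟨integrable_finsetSum _ hi, ?_⟩
  rw [integral_finsetSum _ hi]
  refine sum_congr rfl fun k hk => ?_
  rw [integral_const_mul, integral_indicator (hX k hk)]
  simp

/-- weighted sums of measures can be compared pointwise -/
theorem sum_real_le {α β : Type*} (μ : Measure Orc) [IsProbabilityMeasure μ] (I : Finset α)
    (J : Finset β) (c : α → ℝ) (d : β → ℝ) (F : α → Set Orc) (G : β → Set Orc)
    (hF : ∀ i ∈ I, MeasurableSet (F i)) (hG : ∀ j ∈ J, MeasurableSet (G j))
    (h : ∀ A : Orc, ∑ i ∈ I, c i * (F i).indicator (fun _ => (1 : ℝ)) A ≤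
      ∑ j ∈ J, d j * (G j).indicator (fun _ => (1 : ℝ)) A) :
    ∑ i ∈ I, c i * μ.real (F i) ≤ ∑ j ∈ J, d j * μ.real (G j) := by
  obtain ⟨i1, e1⟩ := sum_real_aux μ I c F hF
  obtain ⟨i2, e2⟩ := sum_real_aux μ J d G hG
  rw [← e1, ← e2]
  exact integral_mono i1 i2 h

end Pool.Agent.H20RD
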