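import Pool.Agent.H20RD.PDefs

/-!
# `⊕P` relative to an oracle
-/

set_option autoImplicit false

namespace Pool.Agent.H20RD

open Pool.Agent.NPC Pool.Agent.H620R2.Gauge

/-- The language `L` is in `⊕P` relative to `A`: there are a predicate in `P` relative to `A` and a
polynomial `p` such that `x` is in `L` if and only if the number of the strings `w` of length
`p |x|` for which the predicate is true for `⟨w, x⟩` is odd. -/
def IsParityP (A : Oracle) (L : Set (List Bool)) : Prop :=
  ∃ (V : List Bool → List Bool) (p : Polynomial ℕ), IsFP A V ∧ ∀ x : List Bool, x ∈ L ↔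
    Odd {w : List Bool | w.length = p.eval x.length ∧ V (pairBits w x) = [true]}.ncard

/-- The language `L` is decided in probabilistic time `2 ^ O(t n)` with unbounded error relative to
`A`: a polynomial-time verifier suffices if it gets the padded inputs. -/
def IsPPTime (t : ℕ → ℕ) (A : Oracle) (L : Set (List Bool)) : Prop :=
  ∃ (V : List Bool → List Bool) (p : Polynomial ℕ), IsFP A V ∧ ∀ x : List Bool, x ∈ L ↔
    2 ^ p.eval (padT t x).length <
      2 * {w : List Bool | w.length = p.eval (padT t x).length ∧
        V (pairBits w (padT t x)) = [true]}.ncard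

end Pool.Agent.H20RD
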