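import Pool.Agent.H20RD.SparsePP

/-!
# Relative to a sparse set, `PSPACE` is contained in `PP`: the proof
-/

set_option autoImplicit false

namespace Pool.Agent.H20RD

open Pool.Agent.NPC Pool.Agent.H622R2 Pool.Agent.H620R2.Gauge Finset

/-- the value of the oracle at the string of zeros of the same length -/
def dft (A : Oracle) (z : List Bool) : Bool := A (List.replicate z.length false)

/-- the list consists of different exceptional strings -/
def okU (A : Oracle) (b K : ℕ) (u : List Bool) : Prop :=
  (ent b K u).Nodup ∧ ∀ z ∈ ent b K u, A z ≠ dft A z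

/-- the code is good -/
def gd (A : Oracle) (b K : ℕ) (w : List Bool) : Prop :=
  okU A b K (w.take (2 * b * K + K)) ∧ Zer ((2 * b * K + K) +
    (ent b K (w.take (2 * b * K + K))).length * ((2 * b * K + K) + 1)) w

/-- the exceptional strings up to a length -/
noncomputable def exc (A : Oracle) (b : ℕ) : Finset (List Bool) :=
  (short b).filter fun z => A z ≠ dft A z

section sem

variable (b K : Polynomial ℕ) (O A : Oracle) (w x : List Bool)

theorem sB_pair : sB b (pairBits w x) = b.eval x.length := by simp [sB, unpair_pairBits]
theorem sK_pair : sK K (pairBits w x) = K.eval x.length := by simp [sK, unpair_pairBits]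
theorem sA_pair : sA b K (pairBits w x) = 2 * b.eval x.length * K.eval x.length +
    K.eval x.length := by simp [sA, sB_pair, sK_pair]
theorem sU_pair : sU b K (pairBits w x) = w.tail.take (2 * b.eval x.length * K.eval x.length +
    K.eval x.length) := by simp [sU, sA_pair, unpair_pairBits]

theorem mem_sI {i : ℕ} {y : List Bool} (h : i ∈ sI b K y) : i < sK K y := by
  unfold sI idxs at h
  exact List.mem_range.1 (List.mem_of_mem_filter h)

theorem nodup_sI (y : List Bool) : (sI b K y).Nodup := List.nodup_range.filter _

theorem sZ_eq {i : ℕ} {y : List Bool} (h : i < sK K y) :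
    sZ b K y i = dec (sB b y) (i * sB b y) (sU b K y) := by
  unfold sZ
  rw [min_eq_left h.le]

theorem ent_eq (y : List Bool) : ent (sB b y) (sK K y) (sU b K y) = (sI b K y).map (sZ b K y) := by
  unfold ent
  refine List.map_congr_left fun i hi => ?_
  exact (sZ_eq b K (mem_sI b K hi)).symm

theorem ans_low {i : ℕ} {y : List Bool} (h : i ≤ sB b y) :
    ((sQ b K y).map (join O A)).getD i false = A (List.replicate i false) := by
  unfold sQ
  rw [List.map_append, List.getD_append _ _ _ _ (by simpa using Nat.lt_succ_of_le h),
    List.getD_eq_getElem _ _ (by simpa using Nat.lt_succ_of_le h)]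
  simp only [List.map_map, List.getElem_map, List.getElem_range, Function.comp_apply]
  rw [min_eq_left h]
  rfl

theorem ans_high {i : ℕ} {y : List Bool} (h : i < sK K y) :
    ((sQ b K y).map (join O A)).getD (sB b y + 1 + i) false = A (sZ b K y i) := by
  unfold sQ
  rw [List.map_append, List.getD_append_right _ _ _ _ (by simp)]
  have e1 : sB b y + 1 + i - (List.map (join O A) (List.map (fun i => true :: List.replicate
      (min i (sB b y)) false) (List.range (sB b y + 1)))).length = i := by
    simp
  rw [e1, List.getD_eq_getElem _ _ (by simpa using h)]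
  simp only [List.map_map, List.getElem_map, List.getElem_range, Function.comp_apply]
  rfl

theorem g1_iff (y : List Bool) : g1 b K (y, (sQ b K y).map (join O A)) = true ↔
    ∀ z ∈ ent (sB b y) (sK K y) (sU b K y), A z ≠ dft A z := by
  unfold g1
  rw [ent_eq]
  simp only [List.all_eq_true, List.mem_map, forall_exists_index, and_imp,
    forall_apply_eq_imp_iff₂, decide_eq_true_eq]
  refine forall₂_congr fun i hi => ?_
  have h1 := mem_sI b K hi
  have h2 : (sZ b K y i).length ≤ sB b y := length_dec_le _ _ _
  rw [ans_high b K O A h1, ans_low b K O A h2]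
  rfl

theorem g2_iff (y : List Bool) : g2 b K y = true ↔ (ent (sB b y) (sK K y) (sU b K y)).Nodup := by
  unfold g2
  rw [ent_eq, List.nodup_map_iff_inj_on (nodup_sI b K y)]
  simp only [List.all_eq_true, Bool.or_eq_true, decide_eq_true_eq, Bool.not_eq_true',
    decide_eq_false_iff_not]
  refine forall₂_congr fun i hi => forall₂_congr fun j hj => ?_
  constructor
  · rintro (h | h) h2
    · exact h
    · exact absurd h2 h
  · intro h
    by_cases h2 : i = j
    · exact Or.inl h2
    · exact Or.inr fun h3 => h2 (h h3)

theorem g3_iff : g3 b K (pairBits w x) = true ↔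
    Zer (sA b K (pairBits w x) + (sI b K (pairBits w x)).length *
      (sA b K (pairBits w x) + 1)) w.tail := by
  unfold g3 Zer
  rw [unpair_pairBits]
  simp only [List.all_eq_true, decide_eq_true_eq]

theorem length_ent (y : List Bool) : (ent (sB b y) (sK K y) (sU b K y)).length =
    (sI b K y).length := by
  rw [ent_eq, List.length_map]

theorem test_iff : (g1 b K (pairBits w x, (sQ b K (pairBits w x)).map (join O A)) &&
    (g2 b K (pairBits w x) && g3 b K (pairBits w x))) = true ↔
      gd A (b.eval x.length) (K.eval x.length) w.tail := by
  have h1 := g1_iff b K O A (pairBits w x)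
  have h2 := g2_iff b K (pairBits w x)
  have h3 := g3_iff b K w x
  rw [← length_ent] at h3
  rw [sB_pair, sK_pair, sU_pair] at h1 h2 h3
  rw [sA_pair] at h3
  rw [Bool.and_eq_true, Bool.and_eq_true, h1, h2, h3]
  unfold gd okU
  tauto

open Classical in
theorem dcd_eq (o : List Bool) : dcd b K (pairBits w x,
    (sQ b K (pairBits w x)).map (join O A), o) = [true] ↔
      (if gd A (b.eval x.length) (K.eval x.length) w.tail then o = [true]
        else w.getD 0 false = true) := by
  have h1 := test_iff b K O A w x
  unfold dcd
  rw [unpair_pairBits]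
  by_cases h : gd A (b.eval x.length) (K.eval x.length) w.tail
  · rw [if_pos (h1.2 h), if_pos h]
  · rw [if_neg (fun h2 => h (h1.1 h2)), if_neg h]
    simp

end sem

open Classical in
/-- the number of accepted strings -/
theorem count_accept {m : ℕ} {P G Q : List Bool → Prop} [DecidablePred P]
    (h : ∀ c w, P (c :: w) ↔ if G w then Q w else c = true) :
    2 ^ (m + 1) < 2 * ((strs (m + 1)).filter P).card ↔
      ((strs m).filter fun w => G w ∧ ¬ Q w).card < ((strs m).filter fun w => G w ∧ Q w).card := by
  rw [card_filter_succ]
  have e1 : ((strs m).filter fun w => P (false :: w)).card =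
      ((strs m).filter fun w => G w ∧ Q w).card := by
    congr 1
    refine filter_congr fun w _ => ?_
    rw [h]
    by_cases hG : G w <;> simp [hG]
  have e2 : ((strs m).filter fun w => P (true :: w)).card =
      ((strs m).filter fun w => G w ∧ Q w).card + ((strs m).filter fun w => ¬ G w).card := by
    rw [← card_union_of_disjoint]
    · congr 1
      ext w
      rw [mem_union, mem_filter, mem_filter, mem_filter, h]
      by_cases hG : G w <;> simp [hG]
    · rw [Finset.disjoint_left]
      intro w h1 h2
      rw [mem_filter] at h1 h2
      exact h2.2 h1.2.1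
  have e3 : ((strs m).filter fun w => G w ∧ Q w).card +
      ((strs m).filter fun w => G w ∧ ¬ Q w).card + ((strs m).filter fun w => ¬ G w).card =
        2 ^ m := by
    rw [← card_strs m, ← card_union_of_disjoint, ← card_union_of_disjoint]
    · congr 1
      ext w
      rw [mem_union, mem_union, mem_filter, mem_filter, mem_filter]
      by_cases hG : G w <;> by_cases hQ : Q w <;> simp [hG, hQ]
    · rw [Finset.disjoint_left]
      intro w h1 h2
      rw [mem_union, mem_filter, mem_filter] at h1
      rw [mem_filter] at h2
      rcases h1 with h1 | h1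
      · exact h2.2 h1.2.1
      · exact h2.2 h1.2.1
    · rw [Finset.disjoint_left]
      intro w h1 h2
      rw [mem_filter] at h1 h2
      exact h2.2.2 h1.2.2
  rw [e1, e2, pow_succ]
  omega

/-- the full lists are the majority -/
theorem count_full {A : Oracle} {b K : ℕ} (hK : (exc A b).card ≤ K)
    {X Y : Finset (List Bool)}
    (hX : ∀ w ∈ X, w ∈ strs ((2 * b * K + K) + K * ((2 * b * K + K) + 1)) ∧ gd A b K w ∧
      ¬ (ent b K (w.take (2 * b * K + K))).toFinset = exc A b)
    (hY : ∀ w ∈ strs ((2 * b * K + K) + K * ((2 * b * K + K) + 1)), gd A b K w →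
      (ent b K (w.take (2 * b * K + K))).toFinset = exc A b → w ∈ Y) : X.card < Y.card := by
  have hsub : ∀ u, okU A b K u → (ent b K u).toFinset ⊆ exc A b := by
    intro u hu z hz
    rw [List.mem_toFinset] at hz
    exact mem_filter.2 ⟨mem_short.2 (length_ent_le hz), hu.2 z hz⟩
  refine count_codes (a := 2 * b * K + K) (K := K) (s := (2 * b * K + K) + 1)
    (m := (exc A b).card) (Nat.lt_succ_self _) hK (len := fun u => (ent b K u).length)
    (ok := okU A b K) (full := fun u => (ent b K u).toFinset = exc A b) ?_ ?_ ?_ ?_ ?_
  · intro u h1 h2
    rw [← h2, List.toFinset_card_of_nodup h1.1]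
  · intro u h1 h2
    rw [← List.toFinset_card_of_nodup h1.1]
    exact card_lt_card (Finset.ssubset_iff_subset_ne.2 ⟨hsub u h1, h2⟩)
  · obtain ⟨u, h1, h2⟩ := exists_ent (b := b) (K := K) (l := (exc A b).toList)
      (by rw [length_toList]; exact hK) (fun z hz => by
        rw [mem_toList] at hz
        exact mem_short.1 (mem_filter.1 hz).1)
    refine ⟨u, h1, ⟨?_, ?_⟩, ?_⟩
    · rw [h2]
      exact nodup_toList _
    · rw [h2]
      intro z hz
      rw [mem_toList] at hz
      exact (mem_filter.1 hz).2
    · rw [h2]
      exact toList_toFinset _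
  · intro w hw
    obtain ⟨h1, h2, h3⟩ := hX w hw
    exact ⟨mem_strs.1 h1, h2.1, h3, h2.2⟩
  · intro w h1 h2 h3 h4
    exact hY w (mem_strs.2 h1) ⟨h2, h4⟩ h3

/-- the oracle given by default values and a list of exceptions -/
def orcE (h : List Bool) (l : List (List Bool)) : Oracle := fun z =>
  if z ∈ l then !(h.getD z.length false) else h.getD z.length false

/-- **There is an oracle relative to which `PSPACE` is contained in `PP`, also if a sparse set is
added.** -/
theorem sparse_pp : ∃ O : Oracle, ∀ A : Oracle,
    (∃ κ : Polynomial ℕ, ∀ n, (exc A n).card ≤ κ.eval n) → ∀ L,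
      IsPSPACE (join O A) L → IsPP (join O A) L := by
  classical
  have hc1 := CC.poly_countable
  have hc2 := CC.salg_countable
  obtain ⟨g, hg⟩ := exists_surjective_nat (SAlg × Polynomial ℕ × Polynomial ℕ)
  choose bd hbd using pspace_task
  set R : ℕ → Polynomial ℕ := fun e => bd (g e).1 (g e).2.1 with hR
  let V : ℕ → Oracle → List Bool → Prop := fun e A y =>
    CC.Acc (g e).1 (CC.cut ((bd (g e).1 (g e).2.1).eval (unpair (unpair y).2).2.length)
      (join A (orcE (unpair y).1 (ent
        ((bd (g e).1 (g e).2.1).eval (unpair (unpair y).2).2.length)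
        ((g e).2.2.eval (unpair (unpair y).2).2.length) (unpair (unpair y).2).1))))
      (unpair (unpair y).2).2
  have hV : ∀ e A A' y, (∀ z : List Bool, z.length < (code R e y).length → A z = A' z) →
      (V e A y ↔ V e A' y) := by
    intro e A A' y h
    have hcut : ∀ D : Oracle,
        CC.cut ((bd (g e).1 (g e).2.1).eval (unpair (unpair y).2).2.length) (join A D) =
        CC.cut ((bd (g e).1 (g e).2.1).eval (unpair (unpair y).2).2.length) (join A' D) := by
      intro D
      funext z
      unfold CC.cut
      split_ifs with hz
      · rcases z with _ | ⟨c, z⟩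
        · rfl
        · cases c with
          | true => rfl
          | false =>
            change A z = A' z
            apply h
            have h1 := CC.lt_length_code R e y
            have h2 := eval_mono (bd (g e).1 (g e).2.1)
              ((length_unpair_snd (unpair y).2).trans (length_unpair_snd y))
            rw [List.length_cons] at hz
            change (bd (g e).1 (g e).2.1).eval y.length < _ at h1
            omega
      · rfl
    change CC.Acc _ _ _ ↔ CC.Acc _ _ _
    rw [hcut]
  refine ⟨CC.Phi R V fun _ => true, ?_⟩
  rintro A ⟨κ, hκ⟩ L ⟨M, p, hM⟩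
  set O := CC.Phi R V fun _ => true with hO
  set b := bd M p with hb
  set K : Polynomial ℕ := κ.comp b with hK
  obtain ⟨e, he⟩ := hg (M, p, K)
  -- the machine
  have hF1 : IsFP (join O A) (fun y => (sQ b K y).map (join O A)) :=
    IsFP.tt (A := join O A) (Q := sQ b K) (H := fun y => y.2) (poly_sQ b K) (Poly.snd Poly.id)
  have hF2 : IsFP (join O A) (fun y => [join O A (false :: code R e y)]) :=
    IsFP.tt (A := join O A) (Q := fun y => [false :: code R e y]) (H := fun y => y.2)
      (Poly.cons (Poly.cons (NPC.Poly.const false) (CC.poly_code R e)) (NPC.Poly.const []))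
      (Poly.snd Poly.id)
  have hF := IsFP.seq (φ := phi b K) (ψ := dcd b K) hF1 hF2 (poly_phi b K) (poly_dcd b K)
  refine ⟨_, (Polynomial.C 2 * b * K + K) + K * ((Polynomial.C 2 * b * K + K) + Polynomial.C 1) +
    Polynomial.C 1, hF, fun x => ?_⟩
  set bb := b.eval x.length with hbb
  set KK := K.eval x.length with hKK
  have hcard : (exc A bb).card ≤ KK := by
    have := hκ bb
    rw [hKK, hK, Polynomial.eval_comp]
    exact this
  have hP : ((Polynomial.C 2 * b * K + K) + K * ((Polynomial.C 2 * b * K + K) +
      Polynomial.C 1) + Polynomial.C 1 : Polynomial ℕ).eval x.length =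
      ((2 * bb * KK + KK) + KK * ((2 * bb * KK + KK) + 1)) + 1 := by
    simp only [Polynomial.eval_add, Polynomial.eval_mul, Polynomial.eval_C, hbb, hKK]
  rw [hP, ncard_eq]
  -- the value
  set hh : List Bool := (List.range (bb + 1)).map fun i => A (List.replicate i false) with hhh
  obtain ⟨Q, hQ⟩ : ∃ Q : List Bool → Prop, ∀ w, Q w ↔ O (code R e (pairBits hh
    (pairBits (w.take (2 * bb * KK + KK)) x))) = true := ⟨_, fun _ => Iff.rfl⟩
  have hphi : ∀ w, phi b K (pairBits w x, (sQ b K (pairBits w x)).map (join O A)) =
      pairBits hh (pairBits (w.tail.take (2 * bb * KK + KK)) x) := by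
    intro w
    unfold phi
    simp only
    rw [sU_pair, sB_pair, unpair_pairBits]
    congr 1
    refine List.ext_getElem ?_ fun i h1 h2 => ?_
    · rw [List.length_take, hhh]
      simp only [List.length_map, List.length_range, sQ, List.length_append, sB_pair]
      omega
    · rw [hhh, List.length_map, List.length_range] at h2
      rw [List.getElem_take]
      have h3 := ans_low b K O A (i := i) (y := pairBits w x) (by rw [sB_pair]; omega)
      have h4 : i < ((sQ b K (pairBits w x)).map (join O A)).length :=
        lt_of_lt_of_le h1 (List.length_take_le' _ _)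
      rw [List.getD_eq_getElem _ _ h4] at h3
      rw [h3]
      simp [hhh]
  rw [count_accept (G := gd A bb KK) (Q := Q) (fun c w => ?_)]
  · -- the values of the full lists
    have hval : ∀ w, gd A bb KK w →
        (ent bb KK (w.take (2 * bb * KK + KK))).toFinset = exc A bb → (Q w ↔ x ∈ L) := by
      intro w _ hw
      rw [hQ w, hO, CC.Phi_code R V _ hV e]
      change CC.Acc (g e).1 (CC.cut ((bd (g e).1 (g e).2.1).eval
        (unpair (unpair (pairBits hh (pairBits (w.take (2 * bb * KK + KK)) x))).2).2.length)
        (join O (orcE (unpair (pairBits hh (pairBits (w.take (2 * bb * KK + KK)) x))).1 (ent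
          ((bd (g e).1 (g e).2.1).eval
            (unpair (unpair (pairBits hh (pairBits (w.take (2 * bb * KK + KK)) x))).2).2.length)
          ((g e).2.2.eval
            (unpair (unpair (pairBits hh (pairBits (w.take (2 * bb * KK + KK)) x))).2).2.length)
          (unpair (unpair (pairBits hh (pairBits (w.take (2 * bb * KK + KK)) x))).2).1))))
        (unpair (unpair (pairBits hh (pairBits (w.take (2 * bb * KK + KK)) x))).2).2 ↔ _
      rw [unpair_pairBits]
      simp only
      rw [unpair_pairBits, he, hbd M p (join O A) L hM x]
      have hcut : CC.cut (b.eval x.length) (join O (orcE hh (ent (b.eval x.length)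
          (K.eval x.length) (w.take (2 * bb * KK + KK))))) =
          CC.cut (b.eval x.length) (join O A) := by
        funext z
        unfold CC.cut
        split_ifs with hz
        · rcases z with _ | ⟨c, z⟩
          · rfl
          · cases c with
            | false => rfl
            | true =>
              change orcE hh _ z = A z
              rw [List.length_cons] at hz
              have h1 : hh.getD z.length false = dft A z := by
                rw [hhh, List.getD_eq_getElem _ _ (by simp; omega)]
                simp [dft]
              have h2 : z ∈ ent (b.eval x.length) (K.eval x.length)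
                  (w.take (2 * bb * KK + KK)) ↔ A z ≠ dft A z := by
                rw [← List.mem_toFinset, hw]
                unfold exc
                rw [mem_filter, mem_short]
                exact and_iff_right (by omega)
              unfold orcE
              rw [h1]
              by_cases h3 : A z = dft A z
              · rw [if_neg (fun h4 => h2.1 h4 h3), h3]
              · rw [if_pos (h2.2 h3)]
                revert h3
                cases A z <;> cases dft A z <;> simp
        · rfl
      rw [← hcut]
    constructor
    · intro hx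
      refine count_full hcard (fun w hw => ?_) fun w h1 h2 h3 => ?_
      · rw [mem_filter] at hw
        exact ⟨hw.1, hw.2.1, fun h => hw.2.2 ((hval w hw.2.1 h).2 hx)⟩
      · rw [mem_filter]
        exact ⟨h1, h2, (hval w h2 h3).2 hx⟩
    · intro hlt
      by_contra hx
      have := count_full hcard (A := A) (b := bb) (K := KK)
        (X := (strs ((2 * bb * KK + KK) + KK * ((2 * bb * KK + KK) + 1))).filter fun w =>
          gd A bb KK w ∧ Q w)
        (Y := (strs ((2 * bb * KK + KK) + KK * ((2 * bb * KK + KK) + 1))).filter fun w =>
          gd A bb KK w ∧ ¬ Q w) (fun w hw => ?_) fun w h1 h2 h3 => ?_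
      · omega
      · rw [mem_filter] at hw
        exact ⟨hw.1, hw.2.1, fun h => hx ((hval w hw.2.1 h).1 hw.2.2)⟩
      · rw [mem_filter]
        exact ⟨h1, h2, fun h => hx ((hval w h2 h3).1 h)⟩
  · rw [dcd_eq, hphi]
    simp only [List.tail_cons, List.getD_cons_zero]
    by_cases h : gd A bb KK w
    · rw [if_pos h, if_pos h, List.cons.injEq, and_iff_left rfl, hQ]
      rfl
    · rw [if_neg h, if_neg h]

end Pool.Agent.H20RD
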