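import Pool.Agent.H20RD.Meas

/-!
# The stage inequality

A stage consists of finitely many blocks `n ∈ W`, each of which is a finite set of disjoint cells;
a cell is a finite set of strings, and it is hit if the oracle has a certain pattern on the cell.
`R n` is a set of oracles such that, if `A ∈ R n` and no cell of the block `n` is hit, most changes of
`A` on one cell, such that the cell is hit, lead out of `R n`.
-/

set_option autoImplicit false

namespace Pool.Agent.H20RD

open MeasureTheory ProbabilityTheory Finset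

/-- the cell `C` of `A` can be changed in such a way that the cell is hit and the oracle is in `R` -/
def Keeps (C : Finset (List Bool)) (hit R : Set Orc) (A : Orc) : Prop :=
  ∃ A' : Orc, (∀ x, x ∉ C → A' x = A x) ∧ A' ∈ hit ∧ A' ∈ R

theorem Keeps.congr {S C : Finset (List Bool)} {hit R : Set Orc} (hC : DepOn C hit)
    (hR : DepOn S R) {A B : Orc} (h : ∀ x ∈ S, A x = B x) (hA : Keeps C hit R A) :
    Keeps C hit R B := by
  classical
  obtain ⟨A', h1, h2, h3⟩ := hA
  refine ⟨fun x => if x ∈ C then A' x else B x, fun x hx => if_neg hx, ?_, ?_⟩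
  · exact (hC A' _ fun x hx => (if_pos hx).symm).1 h2
  · refine (hR A' _ fun x hx => ?_).1 h3
    show A' x = if x ∈ C then A' x else B x
    split_ifs with hx'
    · rfl
    · rw [h1 x hx', h x hx]

/-- the numbers of the stage inequality -/
theorem stage_num {d e L : ℝ} (hd : 0 ≤ d) (hL1 : 1 / 8 ≤ L) (hL2 : L ≤ 1 / 4)
    (h : (7 / 8) * L * (e - (1 / 8) * d) ≤ (d - e) + L ^ 2 * d) : e ≤ (15 / 16) * d := by
  by_contra hc
  rw [not_le] at hc
  have h1 : (7 / 8) * L * (e - (1 / 8) * d) ≥ (7 / 8) * L * ((15 / 16) * d - (1 / 8) * d) := by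
    apply mul_le_mul_of_nonneg_left <;> nlinarith
  have h2 : d - e < d / 16 := by linarith
  have h3 : (7 / 8) * L * ((15 / 16) * d - (1 / 8) * d) < d / 16 + L ^ 2 * d := by linarith
  have h4 : 0 ≤ ((7 / 8) * L * (13 / 16) - 1 / 16 - L ^ 2) * d := by
    apply mul_nonneg _ hd
    nlinarith [mul_nonneg (sub_nonneg.2 hL1) (sub_nonneg.2 hL2)]
  nlinarith

variable (q : List Bool → unitInterval)

theorem stage {κ : Type*} [DecidableEq κ] (W : Finset ℕ) (cells : ℕ → Finset κ)
    (C : ℕ → κ → Finset (List Bool)) (hit : ℕ → κ → Set Orc) (R : ℕ → Set Orc) (D : Set Orc)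
    (S T : Finset (List Bool))
    (hhit : ∀ n ∈ W, ∀ y ∈ cells n, DepOn (C n y) (hit n y))
    (hCS : ∀ n ∈ W, ∀ y ∈ cells n, C n y ⊆ S)
    (hdisj : ∀ n ∈ W, ∀ y ∈ cells n, ∀ n' ∈ W, ∀ y' ∈ cells n', (n ≠ n' ∨ y ≠ y') →
      Disjoint (C n y) (C n' y'))
    (hR : ∀ n ∈ W, DepOn S (R n)) (hD : DepOn T D) (hTS : T ⊆ S)
    (hT : ∀ n ∈ W, ∀ y ∈ cells n, Disjoint T (C n y))
    (hbad : ∀ n ∈ W, ∀ A ∈ R n, (∀ y ∈ cells n, A ∉ hit n y) → ∀ P : Finset κ, P ⊆ cells n →
      (∀ y ∈ P, Keeps (C n y) (hit n y) (R n) A) →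
      ∑ y ∈ P, (rnd q).real (hit n y) ≤ (1 / 8) * ∑ y ∈ cells n, (rnd q).real (hit n y))
    (hl : ∀ n ∈ W, ∑ y ∈ cells n, (rnd q).real (hit n y) ≤ 1 / 8)
    (hL1 : 1 / 8 ≤ ∑ n ∈ W, ∑ y ∈ cells n, (rnd q).real (hit n y))
    (hL2 : ∑ n ∈ W, ∑ y ∈ cells n, (rnd q).real (hit n y) ≤ 1 / 4) :
    (rnd q).real (D ∩ {A | ∀ n ∈ W, A ∈ R n}) ≤ (15 / 16) * (rnd q).real D := by
  classical
  set μ := rnd q with hμ
  set η : ℕ → κ → ℝ := fun n y => μ.real (hit n y) with hη
  have hη0 : ∀ n y, 0 ≤ η n y := fun n y => measureReal_nonneg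
  set lam : ℕ → ℝ := fun n => ∑ y ∈ cells n, η n y with hlam
  set L : ℝ := ∑ n ∈ W, lam n with hL
  set E : Set Orc := {A | ∀ n ∈ W, A ∈ R n} with hE
  have hES : DepOn S E := fun A A' h => by
    constructor
    · intro hA n hn
      exact (hR n hn A A' h).1 (hA n hn)
    · intro hA n hn
      exact (hR n hn A A' h).2 (hA n hn)
  have hDS : DepOn S D := hD.mono hTS
  set NH : ℕ → Set Orc := fun n => {A | ∀ y ∈ cells n, A ∉ hit n y} with hNH
  have hNHS : ∀ n ∈ W, DepOn S (NH n) := fun n hn A A' h => by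
    constructor
    · intro hA y hy hc
      exact hA y hy (((hhit n hn y hy).mono (hCS n hn y hy) A A' h).2 hc)
    · intro hA y hy hc
      exact hA y hy (((hhit n hn y hy).mono (hCS n hn y hy) A A' h).1 hc)
  set F : ℕ → κ → Set Orc := fun n y =>
    {A | (A ∈ D ∧ A ∈ E) ∧ A ∈ NH n ∧ ¬ Keeps (C n y) (hit n y) (R n) A} with hF
  have hFS : ∀ n ∈ W, ∀ y ∈ cells n, DepOn S (F n y) := by
    intro n hn y hy A A' h
    refine and_congr (and_congr (hDS A A' h) (hES A A' h)) (and_congr (hNHS n hn A A' h)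
      (not_congr ⟨Keeps.congr (hhit n hn y hy) (hR n hn) h,
        Keeps.congr (hhit n hn y hy) (hR n hn) fun x hx => (h x hx).symm⟩))
  set G : ℕ → κ → Set Orc := fun n y =>
    {A | ∃ A₀ : Orc, (∀ x, x ∉ C n y → A₀ x = A x) ∧ A₀ ∈ F n y} with hG
  have hGS : ∀ n ∈ W, ∀ y ∈ cells n, DepOn (S \ C n y) (G n y) := by
    have key : ∀ n ∈ W, ∀ y ∈ cells n, ∀ A B : Orc, (∀ x ∈ S \ C n y, A x = B x) →
        A ∈ G n y → B ∈ G n y := by
      rintro n hn y hy A B h ⟨A₀, h1, h2⟩
      refine ⟨fun x => if x ∈ C n y then A₀ x else B x, fun x hx => if_neg hx, ?_⟩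
      refine (hFS n hn y hy A₀ _ fun x hx => ?_).1 h2
      show A₀ x = if x ∈ C n y then A₀ x else B x
      split_ifs with hx'
      · rfl
      · rw [h1 x hx', h x (mem_sdiff.2 ⟨hx, hx'⟩)]
    intro n hn y hy A B h
    exact ⟨key n hn y hy A B h, key n hn y hy B A fun x hx => (h x hx).symm⟩
  -- (1)
  have h1 : ∀ n ∈ W, ∀ y ∈ cells n, η n y * μ.real (F n y) ≤
      μ.real ((D ∩ Eᶜ) ∩ hit n y) := by
    intro n hn y hy
    have e1 : μ.real (F n y) ≤ μ.real (G n y) :=
      measureReal_mono fun A hA => ⟨A, fun _ _ => rfl, hA⟩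
    have e2 : μ.real (G n y ∩ hit n y) = μ.real (G n y) * η n y :=
      rnd_inter q (hGS n hn y hy) (hhit n hn y hy) disjoint_sdiff_self_left
    have e3 : μ.real (G n y ∩ hit n y) ≤ μ.real ((D ∩ Eᶜ) ∩ hit n y) := by
      refine measureReal_mono ?_ (measure_ne_top _ _)
      rintro A ⟨⟨A₀, h1, ⟨h2, _⟩, _, h3⟩, h4⟩
      refine ⟨⟨?_, ?_⟩, h4⟩
      · refine (hD A₀ A fun x hx => h1 x ?_).1 h2
        exact Finset.disjoint_left.1 (hT n hn y hy) hx
      · intro hAE
        exact h3 ⟨A, fun x hx => (h1 x hx).symm, h4, hAE n hn⟩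
    calc η n y * μ.real (F n y) ≤ η n y * μ.real (G n y) :=
          mul_le_mul_of_nonneg_left e1 (hη0 n y)
      _ = μ.real (G n y ∩ hit n y) := by rw [e2, mul_comm]
      _ ≤ _ := e3
  -- (2)
  set I : Finset (Σ _ : ℕ, κ) := W.sigma cells with hI
  have hIm : ∀ i ∈ I, i.1 ∈ W ∧ i.2 ∈ cells i.1 := fun i hi => by
    rw [hI, mem_sigma] at hi
    exact hi
  have hitm : ∀ i ∈ I, MeasurableSet (hit i.1 i.2) := fun i hi =>
    (hhit i.1 (hIm i hi).1 i.2 (hIm i hi).2).measurable
  have hDm : MeasurableSet D := hD.measurable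
  have hEm : MeasurableSet E := hES.measurable
  have h2 : ∑ i ∈ I, μ.real ((D ∩ Eᶜ) ∩ hit i.1 i.2) ≤ μ.real (D ∩ Eᶜ) +
      ∑ p ∈ I.offDiag, μ.real ((D ∩ hit p.1.1 p.1.2) ∩ hit p.2.1 p.2.2) := by
    have := sum_real_le μ I (insert none (I.offDiag.map Function.Embedding.some))
      (fun _ => (1 : ℝ)) (fun _ => (1 : ℝ)) (fun i => (D ∩ Eᶜ) ∩ hit i.1 i.2)
      (fun o => match o with
        | none => D ∩ Eᶜ
        | some p => (D ∩ hit p.1.1 p.1.2) ∩ hit p.2.1 p.2.2)
      (fun i hi => (hDm.inter hEm.compl).inter (hitm i hi))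
      (by
        intro o ho
        rcases o with _ | p
        · exact hDm.inter hEm.compl
        · simp only [mem_insert, reduceCtorEq, mem_map, false_or] at ho
          obtain ⟨p', hp', he⟩ := ho
          have he' : p' = p := by simpa using he
          subst he'
          rw [mem_offDiag] at hp'
          exact (hDm.inter (hitm _ hp'.1)).inter (hitm _ hp'.2.1))
      (by
        intro A
        rw [sum_insert (by simp), sum_map]
        simp only [one_mul, Function.Embedding.some_apply]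
        set N : Finset (Σ _ : ℕ, κ) := I.filter fun i => A ∈ hit i.1 i.2 with hN
        by_cases hA : A ∈ D
        · by_cases hAE : A ∈ Eᶜ
          · have e1 : ∑ i ∈ I, ((D ∩ Eᶜ) ∩ hit i.1 i.2).indicator (fun _ => (1 : ℝ)) A =
                (N.card : ℝ) := by
              rw [hN, card_filter]
              push_cast
              refine sum_congr rfl fun i _ => ?_
              simp [Set.indicator, hA, Set.mem_inter_iff, hAE] 
            have e2 : ((N.offDiag.card : ℕ) : ℝ) ≤ ∑ p ∈ I.offDiag,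
                ((D ∩ hit p.1.1 p.1.2) ∩ hit p.2.1 p.2.2).indicator (fun _ => (1 : ℝ)) A := by
              rw [card_eq_sum_ones]
              push_cast
              have hsub : N.offDiag ⊆ I.offDiag := by
                intro p hp
                rw [mem_offDiag] at hp ⊢
                exact ⟨(mem_filter.1 hp.1).1, (mem_filter.1 hp.2.1).1, hp.2.2⟩
              refine le_trans (sum_le_sum fun p hp => ?_)
                (sum_le_sum_of_subset_of_nonneg hsub fun p _ _ =>
                  Set.indicator_nonneg (fun _ _ => zero_le_one) A)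
              rw [mem_offDiag] at hp
              rw [Set.indicator_of_mem (show A ∈ (D ∩ hit p.1.1 p.1.2) ∩ hit p.2.1 p.2.2 from
                ⟨⟨hA, (mem_filter.1 hp.1).2⟩, (mem_filter.1 hp.2.1).2⟩)]
            rw [e1]
            have e3 : (D ∩ Eᶜ).indicator (fun _ => (1 : ℝ)) A = 1 :=
              Set.indicator_of_mem (show A ∈ D ∩ Eᶜ from ⟨hA, hAE⟩) _
            rw [e3]
            refine le_trans ?_ (add_le_add_right e2 1)
            rw [offDiag_card]
            have e4 : N.card ≤ 1 + (N.card * N.card - N.card) := by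
              rcases Nat.lt_or_ge N.card 2 with h | h
              · omega
              · have : 2 * N.card ≤ N.card * N.card := Nat.mul_le_mul_right _ h
                omega
            exact_mod_cast e4
          · have e1 : ∑ i ∈ I, ((D ∩ Eᶜ) ∩ hit i.1 i.2).indicator (fun _ => (1 : ℝ)) A = 0 := by
              refine sum_eq_zero fun i _ => Set.indicator_of_notMem (fun h => hAE h.1.2) _
            rw [e1]
            refine add_nonneg (Set.indicator_nonneg (fun _ _ => zero_le_one) A) ?_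
            exact sum_nonneg fun p _ => Set.indicator_nonneg (fun _ _ => zero_le_one) A
        · have e1 : ∑ i ∈ I, ((D ∩ Eᶜ) ∩ hit i.1 i.2).indicator (fun _ => (1 : ℝ)) A = 0 := by
            refine sum_eq_zero fun i _ => Set.indicator_of_notMem (fun h => hA h.1.1) _
          rw [e1]
          refine add_nonneg (Set.indicator_nonneg (fun _ _ => zero_le_one) A) ?_
          exact sum_nonneg fun p _ => Set.indicator_nonneg (fun _ _ => zero_le_one) A)
    rw [sum_insert (by simp), sum_map] at this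
    simpa using this
  have h3 : ∑ p ∈ I.offDiag, μ.real ((D ∩ hit p.1.1 p.1.2) ∩ hit p.2.1 p.2.2) ≤
      L ^ 2 * μ.real D := by
    have e1 : ∀ p ∈ I.offDiag, μ.real ((D ∩ hit p.1.1 p.1.2) ∩ hit p.2.1 p.2.2) =
        μ.real D * (η p.1.1 p.1.2 * η p.2.1 p.2.2) := by
      intro p hp
      rw [mem_offDiag] at hp
      obtain ⟨hp1, hp2, hp3⟩ := hp
      obtain ⟨a1, a2⟩ := hIm _ hp1
      obtain ⟨b1, b2⟩ := hIm _ hp2
      have hne : p.1.1 ≠ p.2.1 ∨ p.1.2 ≠ p.2.2 := by
        by_contra hc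
        push Not at hc
        apply hp3
        rcases p with ⟨⟨n, y⟩, ⟨n', y'⟩⟩
        simp only at hc
        obtain ⟨rfl, rfl⟩ := hc
        rfl
      have d1 := hdisj _ a1 _ a2 _ b1 _ b2 hne
      have d2 : DepOn (T ∪ C p.1.1 p.1.2) (D ∩ hit p.1.1 p.1.2) :=
        (hD.mono subset_union_left).inter ((hhit _ a1 _ a2).mono subset_union_right)
      rw [rnd_inter q d2 (hhit _ b1 _ b2) (disjoint_union_left.2 ⟨hT _ b1 _ b2, d1⟩),
        rnd_inter q hD (hhit _ a1 _ a2) (hT _ a1 _ a2)]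
      ring
    rw [sum_congr rfl e1, ← mul_sum, mul_comm]
    refine mul_le_mul_of_nonneg_right ?_ measureReal_nonneg
    have e2 : L = ∑ i ∈ I, η i.1 i.2 := by rw [hL, hI, sum_sigma]
    rw [e2, sq, sum_mul_sum, ← sum_product']
    refine sum_le_sum_of_subset_of_nonneg (fun p hp => ?_) fun p _ _ =>
      mul_nonneg (hη0 _ _) (hη0 _ _)
    rw [mem_offDiag] at hp
    exact mem_product.2 ⟨hp.1, hp.2.1⟩
  -- (3)
  have h4 : ∑ n ∈ W, (7 / 8) * lam n * μ.real ((D ∩ E) ∩ NH n) ≤
      ∑ i ∈ I, η i.1 i.2 * μ.real (F i.1 i.2) := by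
    refine sum_real_le μ W I (fun n => (7 / 8) * lam n) (fun i => η i.1 i.2)
      (fun n => (D ∩ E) ∩ NH n) (fun i => F i.1 i.2)
      (fun n hn => (hDm.inter hEm).inter (hNHS n hn).measurable)
      (fun i hi => (hFS _ (hIm i hi).1 _ (hIm i hi).2).measurable) fun A => ?_
    rw [hI, sum_sigma]
    refine sum_le_sum fun n hn => ?_
    by_cases hA : A ∈ (D ∩ E) ∩ NH n
    · rw [Set.indicator_of_mem hA, mul_one]
      have e1 : ∑ y ∈ cells n, η n y * (F n y).indicator (fun _ => (1 : ℝ)) A =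
          ∑ y ∈ (cells n).filter (fun y => ¬ Keeps (C n y) (hit n y) (R n) A), η n y := by
        rw [sum_filter]
        refine sum_congr rfl fun y _ => ?_
        by_cases hk : Keeps (C n y) (hit n y) (R n) A
        · rw [Set.indicator_of_notMem (fun h => h.2.2 hk), mul_zero, if_neg (not_not.2 hk)]
        · rw [Set.indicator_of_mem (show A ∈ F n y from ⟨hA.1, hA.2, hk⟩), mul_one, if_pos hk]
      rw [e1]
      have e2 := hbad n hn A (hA.1.2 n hn) hA.2
        ((cells n).filter (fun y => Keeps (C n y) (hit n y) (R n) A)) (filter_subset _ _)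
        (fun y hy => (mem_filter.1 hy).2)
      have e3 := sum_filter_add_sum_filter_not (cells n)
        (fun y => Keeps (C n y) (hit n y) (R n) A) (fun y => η n y)
      change _ ≤ (1 / 8) * lam n at e2
      change _ = lam n at e3
      linarith
    · rw [Set.indicator_of_notMem hA, mul_zero]
      exact sum_nonneg fun y _ => mul_nonneg (hη0 _ _)
        (Set.indicator_nonneg (fun _ _ => zero_le_one) A)
  -- (4)
  have h5 : ∀ n ∈ W, μ.real (D ∩ E) - (1 / 8) * μ.real D ≤ μ.real ((D ∩ E) ∩ NH n) := by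
    intro n hn
    have e1 : μ.real (D ∩ E) ≤ μ.real ((D ∩ E) ∩ NH n) +
        μ.real (⋃ y ∈ cells n, D ∩ hit n y) := by
      refine (measureReal_mono ?_).trans (measureReal_union_le _ _)
      intro A hA
      by_cases h : A ∈ NH n
      · exact Or.inl ⟨hA, h⟩
      · right
        simp only [hNH, Set.mem_ofPred_eq, not_forall, not_not] at h
        obtain ⟨y, hy, hy'⟩ := h
        exact Set.mem_biUnion hy ⟨hA.1, hy'⟩
    have e2 : μ.real (⋃ y ∈ cells n, D ∩ hit n y) ≤ ∑ y ∈ cells n, μ.real (D ∩ hit n y) :=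
      measureReal_biUnion_finset_le _ _
    have e3 : ∑ y ∈ cells n, μ.real (D ∩ hit n y) = μ.real D * lam n := by
      rw [hlam, mul_sum]
      exact sum_congr rfl fun y hy => rnd_inter q hD (hhit n hn y hy) (hT n hn y hy)
    have e4 : μ.real D * lam n ≤ μ.real D * (1 / 8) :=
      mul_le_mul_of_nonneg_left (hl n hn) measureReal_nonneg
    linarith
  -- (5)
  have hd0 : 0 ≤ μ.real D := measureReal_nonneg
  have h6 : (7 / 8) * L * (μ.real (D ∩ E) - (1 / 8) * μ.real D) ≤
      ∑ n ∈ W, (7 / 8) * lam n * μ.real ((D ∩ E) ∩ NH n) := by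
    rw [hL, mul_sum, sum_mul]
    refine sum_le_sum fun n hn => mul_le_mul_of_nonneg_left (h5 n hn) ?_
    exact mul_nonneg (by norm_num) (sum_nonneg fun y _ => hη0 _ _)
  have h7 : ∑ i ∈ I, η i.1 i.2 * μ.real (F i.1 i.2) ≤
      ∑ i ∈ I, μ.real ((D ∩ Eᶜ) ∩ hit i.1 i.2) :=
    sum_le_sum fun i hi => h1 _ (hIm i hi).1 _ (hIm i hi).2
  have h8 : μ.real (D ∩ Eᶜ) = μ.real D - μ.real (D ∩ E) := by
    have h9 : μ.real (D ∩ E) + μ.real (D \ E) = μ.real D :=
      measureReal_inter_add_sdiff hEm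
    rw [← Set.sdiff_eq]
    linarith
  refine stage_num hd0 hL1 hL2 ?_
  linarith

end Pool.Agent.H20RD
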